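import Mathlib

set_option autoImplicit false

open Set Cardinal

namespace Pool.Agent.H467Z.Lin

/-- sets of reals closed under field operations and square roots -/
structure SqC (F : Set ℝ) : Prop where
  add : ∀ {x y}, x ∈ F → y ∈ F → x + y ∈ F
  sub : ∀ {x y}, x ∈ F → y ∈ F → x - y ∈ F
  mul : ∀ {x y}, x ∈ F → y ∈ F → x * y ∈ F
  div : ∀ {x y}, y ∈ F → y ≠ 0 → y * x ∈ F → x ∈ F
  sq : ∀ {x}, x ^ 2 ∈ F → x ∈ F
  rat : ∀ q : ℚ, (q : ℝ) ∈ F

lemma sqc_closure (s : Set ℝ) : SqC ((AlgebraicIndependent.matroid ℚ ℝ).closure s) := by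
  rw [AlgebraicIndependent.matroid_closure_eq]
  refine ⟨fun hx hy => Subalgebra.add_mem _ hx hy, fun hx hy => Subalgebra.sub_mem _ hx hy,
    fun hx hy => Subalgebra.mul_mem _ hx hy, fun {x y} hy h0 hxy => ?_, fun {x} hx => ?_,
    fun q => ?_⟩
  · simp only [SetLike.mem_coe, Subalgebra.mem_algebraicClosure] at *
    exact IsAlgebraic.of_mul (mem_nonZeroDivisors_of_ne_zero h0) hy hxy
  · simp only [SetLike.mem_coe, Subalgebra.mem_algebraicClosure] at *
    exact IsAlgebraic.of_pow two_pos hx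
  · simp only [SetLike.mem_coe, Subalgebra.mem_algebraicClosure]
    exact isAlgebraic_algebraMap (A := ℝ)
      (⟨(q : ℝ), Subalgebra.algebraMap_mem _ q⟩ : Algebra.adjoin ℚ s)

lemma exists_generic {ι : Type} [Fintype ι] (τ : ι → ℝ) {η : ℝ} (hη : 0 < η) :
    ∃ y : ι → ℝ, (∀ i, |y i - τ i| < η) ∧ ∀ s : Finset ℝ,
      (∀ F : Set ℝ, SqC F → (s : Set ℝ) ⊆ F → ∀ i, y i ∈ F) → Fintype.card ι ≤ s.card := by
  obtain ⟨B, hB⟩ := (AlgebraicIndependent.matroid ℚ ℝ).exists_isBase
  have hinf : B.Infinite := by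
    intro hfin
    have hT := AlgebraicIndependent.matroid_isBase_iff.1 hB
    have alg := hT.isAlgebraic
    have h1 := Algebra.IsAlgebraic.cardinalMk_le_max
      (Algebra.adjoin ℚ (Set.range ((↑) : B → ℝ))) ℝ
    have h2 := Algebra.lift_cardinalMk_adjoin_le ℚ (Set.range ((↑) : B → ℝ))
    have h3 : #(Set.range ((↑) : B → ℝ)) ≤ ℵ₀ := by
      rw [Subtype.range_coe]; exact le_aleph0_iff_set_countable.2 hfin.countable
    simp only [lift_id, mk_eq_aleph0 ℚ] at h2
    have h4 : #ℝ ≤ ℵ₀ := h1.trans (max_le (h2.trans (max_le (max_le le_rfl h3) le_rfl)) le_rfl)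
    rw [mk_real] at h4
    exact absurd h4 (not_le.2 aleph0_lt_continuum)
  have := hinf.to_subtype
  obtain ⟨z, hz⟩ : ∃ z : ι → B, Function.Injective z :=
    ⟨(Infinite.natEmbedding B) ∘ (fun i => (Fintype.equivFin ι i : ℕ)),
      (Infinite.natEmbedding B).injective.comp
        (Fin.val_injective.comp (Fintype.equivFin ι).injective)⟩
  have hr : ∀ i, ∃ r : ℚ, |(z i : ℝ) + r - τ i| < η := fun i => by
    obtain ⟨r, h1, h2⟩ := exists_rat_btwn (show τ i - z i - η < τ i - z i + η by linarith)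
    exact ⟨r, abs_lt.2 ⟨by linarith, by linarith⟩⟩
  choose r hr using hr
  refine ⟨fun i => z i + r i, hr, fun s hs => ?_⟩
  set M := AlgebraicIndependent.matroid ℚ ℝ
  have hF := sqc_closure (s : Set ℝ)
  have h1 := hs _ hF (M.subset_closure _ (subset_univ _))
  have h2 : Set.range (fun i => (z i : ℝ)) ⊆ M.closure s := by
    rintro _ ⟨i, rfl⟩
    simpa using hF.sub (h1 i) (hF.rat (r i))
  have h3 : M.Indep (Set.range (fun i => (z i : ℝ))) :=
    hB.indep.subset (by rintro _ ⟨i, rfl⟩; exact (z i).2)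
  have h4 := h3.encard_le_eRk_of_subset h2
  rw [M.eRk_closure_eq] at h4
  have h5 := h4.trans (M.eRk_le_encard _)
  have hinj : Function.Injective (fun i => (z i : ℝ)) := Subtype.val_injective.comp hz
  rw [Set.encard_coe_eq_coe_finsetCard, ← Set.image_univ, hinj.injOn.encard_image,
    Set.encard_univ, ENat.card_eq_coe_fintype_card] at h5
  exact_mod_cast h5

end Pool.Agent.H467Z.Lin
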