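import Pool.Agent.H467Z.Lin.Ray
import Pool.Agent.H467Z.Lin.Gen

set_option autoImplicit false

open scoped ContDiff Topology RealInnerProductSpace
open Set Filter Complex

namespace Pool.Agent.H467Z.Lin

lemma circ {F : Set ℝ} (hF : SqC F) {p q L z : ℂ} (hpq : p ≠ q) (h1 : ‖p - L‖ ^ 2 ∈ F)
    (h2 : ‖q - L‖ ^ 2 ∈ F) (h3 : ‖p - q‖ ^ 2 ∈ F) (h4 : ‖p - z‖ ^ 2 ∈ F) (h5 : ‖q - z‖ ^ 2 ∈ F) :
    ‖z - L‖ ^ 2 ∈ F := by
  have two : (2 : ℝ) ∈ F := by simpa using hF.rat 2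
  have key : ∀ w : ℂ, ‖p - w‖ ^ 2 ∈ F → ‖q - w‖ ^ 2 ∈ F →
      dt (p - q) (p - w) ∈ F ∧ cr (p - q) (p - w) ∈ F := by
    intro w a b
    have d : dt (p - q) (p - w) ∈ F := by
      refine hF.div two two_ne_zero ?_
      have : 2 * dt (p - q) (p - w) = ‖p - w‖ ^ 2 + ‖p - q‖ ^ 2 - ‖q - w‖ ^ 2 := by
        simp only [nsq, dt, sub_re, sub_im]; ring
      rw [this]; exact hF.sub (hF.add a h3) b
    refine ⟨d, hF.sq ?_⟩
    have : cr (p - q) (p - w) ^ 2 =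
        ‖p - q‖ ^ 2 * ‖p - w‖ ^ 2 - dt (p - q) (p - w) * dt (p - q) (p - w) := by
      linear_combination cr_dt (p - q) (p - w)
    rw [this]; exact hF.sub (hF.mul h3 a) (hF.mul d d)
  obtain ⟨a1, a2⟩ := key L h1 h2
  obtain ⟨b1, b2⟩ := key z h4 h5
  refine hF.div h3 (pow_ne_zero _ (norm_ne_zero_iff.2 (sub_ne_zero.2 hpq))) ?_
  have : ‖p - q‖ ^ 2 * ‖z - L‖ ^ 2 =
      (dt (p - q) (p - L) - dt (p - q) (p - z)) * (dt (p - q) (p - L) - dt (p - q) (p - z)) +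
      (cr (p - q) (p - L) - cr (p - q) (p - z)) * (cr (p - q) (p - L) - cr (p - q) (p - z)) := by
    simp only [nsq, dt, cr, sub_re, sub_im]; ring
  rw [this]
  exact hF.add (hF.mul (hF.sub a1 b1) (hF.sub a1 b1)) (hF.mul (hF.sub a2 b2) (hF.sub a2 b2))

lemma Iso.norm {h : ℂ → E3} {p : ℂ} (H : Iso h p) (v : ℂ) : ‖fderiv ℝ h p v‖ = ‖v‖ := by
  have := H v v
  rw [real_inner_self_eq_norm_sq, real_inner_self_eq_norm_sq] at this
  exact (pow_left_inj₀ (norm_nonneg _) (norm_nonneg _) two_ne_zero).1 this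

lemma Rul.ker {h : ℂ → E3} (hs : ContDiff ℝ ∞ h) {u p : ℂ} (hu : ‖u‖ = 1) (H : Rul h u p) :
    fderiv ℝ (fderiv ℝ h) p u = 0 := by
  have a := H.1
  have b := H.2.1
  rw [dv_comm hs.contDiffAt, dv_dv hs.contDiffAt] at b
  rw [dv_dv hs.contDiffAt] at a
  ext1 v
  have hn : u.re * u.re + u.im * u.im = 1 := by rw [← nsq, hu]; norm_num
  have hv : v = (v.re * u.re + v.im * u.im) • u + (v.im * u.re - v.re * u.im) • (I * u) := by
    apply Complex.ext <;> simp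
    · linear_combination (-v.re) * hn
    · linear_combination (-v.im) * hn
  rw [hv, map_add, map_smul, map_smul, a, b]; simp

variable {S V : Type}

def Sys.P (σ : Sys S V) (n : ℕ) (s : S) : Set S :=
  σ.reach n s ∪ σ.reach n (σ.flip s) ∪ {s, σ.rot s}

lemma Sys.P_finite (σ : Sys S V) (n : ℕ) (s : S) : (σ.P n s).Finite :=
  ((σ.reach_finite _ _).union (σ.reach_finite _ _)).union (toFinite _)

lemma edge_iso {σ : Sys S V} {K D δ : ℝ} (d : Data σ K D δ) (hδ : 0 < δ)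
    (hδm : σ.M * (10 * δ) ≤ σ.m) (s : S) {θ : ℝ} (h0 : 0 ≤ θ) (h1 : θ ≤ 1) {y : ℂ}
    (hy : y = σ.L s + θ • (σ.L (σ.rot s) - σ.L s)) (jL : 10 * δ ≤ ‖σ.L s - y‖)
    (jR : 10 * δ ≤ ‖σ.L (σ.rot s) - y‖) : IsoN (d.h s) y := by
  have a1 := σ.alt s θ
  rw [← hy] at a1
  have hM : 0 ≤ σ.M := (norm_nonneg _).trans (σ.len s)
  have hM' : 0 < σ.M := by
    rcases hM.eq_or_lt with e | e
    · rw [← e] at a1; linarith [σ.m_pos]
    · exact e
  have a2 := le_of_mul_le_mul_left (hδm.trans a1) hM'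
  exact d.iso s y ⟨θ, 0, h0, le_rfl, by linarith, by rw [hy]; simp⟩ (by linarith) (by linarith)
    (by linarith)

lemma two_pts {σ : Sys S V} {K D δ : ℝ} (d : Data σ K D δ) (hδ : 0 < δ)
    (hδm : σ.M * (10 * δ) ≤ σ.m) (hK : 0 ≤ K) {n : ℕ}
    (hn : 4 * σ.M / σ.m * D + 2 < n * (σ.m ^ 2 / (2 * σ.M ^ 4))) (s : S) {θ : ℝ} (h0 : 0 ≤ θ)
    (h1 : θ ≤ 1) {y : ℂ} (hy : y = σ.L s + θ • (σ.L (σ.rot s) - σ.L s))
    (jL : 10 * δ ≤ ‖σ.L s - y‖) (jR : 10 * δ ≤ ‖σ.L (σ.rot s) - y‖)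
    (hne : fderiv ℝ (fderiv ℝ (d.h s)) y (σ.L (σ.rot s) - σ.L s) ≠ 0) :
    ∃ s1 ∈ σ.P n s, ∃ s2 ∈ σ.P n s, σ.L s1 ≠ σ.L s2 ∧
      ‖d.h s y + fderiv ℝ (d.h s) y (σ.L s1 - y) - d.X (σ.lab s1)‖ ≤ 2 * (1 + K) * δ ∧
      ‖d.h s y + fderiv ℝ (d.h s) y (σ.L s2 - y) - d.X (σ.lab s2)‖ ≤ 2 * (1 + K) * δ := by
  have iso := edge_iso d hδ hδm s h0 h1 hy jL jR
  set L := σ.L s with hL
  set R := σ.L (σ.rot s) with hR
  have t0 : 0 < θ := by
    rcases h0.eq_or_lt with e | e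
    · rw [hy, ← e] at jL; simp at jL; linarith
    · exact e
  have t1 : θ < 1 := by
    rcases h1.eq_or_lt with e | e
    · rw [hy, e] at jR; simp at jR; linarith
    · exact e
  have pot : ∀ (u w : ℂ) (a : ℝ), ‖u‖ = 1 → 0 ≤ a → a ≤ 1 → 4 * σ.M / σ.m * D + 1 <
      4 * σ.M / σ.m * 0 + (1 - 2 * a) * (dt u w / ‖w‖) + n * (σ.m ^ 2 / (2 * σ.M ^ 4)) := by
    intro u w a hu a0 a1
    have c1 : |dt u w / ‖w‖| ≤ 1 := by
      rw [abs_div, abs_norm]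
      exact div_le_one_of_le₀ (by simpa [hu] using abs_dt_le u _) (norm_nonneg _)
    have c2 := abs_le.1 c1
    nlinarith
  have main : ∀ u : ℂ, ‖u‖ = 1 → Rul (d.h s) u y → cr u (R - L) < 0 →
      ∃ s1 ∈ σ.P n s, ∃ s2 ∈ σ.P n s, σ.L s1 ≠ σ.L s2 ∧
      ‖d.h s y + fderiv ℝ (d.h s) y (σ.L s1 - y) - d.X (σ.lab s1)‖ ≤ 2 * (1 + K) * δ ∧
      ‖d.h s y + fderiv ℝ (d.h s) y (σ.L s2 - y) - d.X (σ.lab s2)‖ ≤ 2 * (1 + K) * δ := by
    intro u hu hr hc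
    have c1 : cr u (L - y) = -θ * cr u (R - L) := by rw [hy]; simp [cr]; ring
    have c2 : cr u (R - y) = (1 - θ) * cr u (R - L) := by rw [hy]; simp [cr]; ring
    have cn : ∀ w, cr (-u) w = -cr u w := fun w => by simp [cr]; ring
    obtain ⟨s1, m1, p1, q1⟩ := shoot d hδ hδm hK (y0 := y) hu (x0 := d.h s y) iso.iso.norm
      (fun s' p => d.diam s' s p y) n s 0 θ le_rfl h0 h1 (by rw [c1]; nlinarith)
      (by rw [c2]; nlinarith) (by simpa using hy) (by simpa using jL) (by simpa using jR)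
      ⟨by simpa using hr, by simp, by simp⟩ (pot _ _ _ hu h0 h1)
    have hfl := d.hflip s θ y h0 h1 hy (by linarith) (by linarith)
    obtain ⟨s2, m2, p2, q2⟩ := shoot d hδ hδm hK (y0 := y) (u := -u) (by simpa using hu)
      (x0 := d.h s y) iso.iso.norm (fun s' p => d.diam s' s p y) n (σ.flip s) 0 (1 - θ) le_rfl
      (by linarith) (by linarith) (by rw [σ.flipL, cn, c2]; nlinarith)
      (by rw [σ.flipR, cn, c1]; nlinarith)
      (by rw [σ.flipL, σ.flipR, hy, ← hL, ← hR]; module) (by simpa [σ.flipL] using jR)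
      (by simpa [σ.flipR] using jL)
      (Jet.congr (h := d.h s) (by simpa using hfl) ⟨by simpa using hr.neg, by simp, by simp⟩)
      (pot _ _ _ (by simpa using hu) (by linarith) (by linarith))
    refine ⟨s1, Or.inl (Or.inl m1), s2, Or.inl (Or.inr m2), fun e => ?_, q1, q2⟩
    rw [e] at p1
    simp only [dt, neg_re, neg_im] at p1 p2
    linarith
  obtain ⟨u, hu, hr⟩ := exists_rul (d.smooth s) iso (fun e => hne (by rw [e]; rfl))
  rcases lt_trichotomy (cr u (R - L)) 0 with c | c | c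
  · exact main u hu hr c
  · exfalso
    apply hne
    have := on_line (u := u) (y0 := L) (p := R) hu c
    have e : R - L = dt u (R - L) • u := by linear_combination this
    rw [e, map_smul, hr.ker (d.smooth s) hu]
    ext1 v; simp
  · exact main (-u) (by simpa using hu) hr.neg (by simp [cr] at c ⊢; linarith)

lemma edge_alg {σ : Sys S V} {K D δ ρ : ℝ} (d : Data σ K D δ) (hδ : 0 < δ)
    (hδm : σ.M * (20 * δ) ≤ σ.m) (hK : 0 ≤ K) {n : ℕ}
    (hn : 4 * σ.M / σ.m * D + 2 < n * (σ.m ^ 2 / (2 * σ.M ^ 4))) (s : S) {Y : V → E3} {c0 : E3}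
    (hY : ∀ v, ‖d.X v - c0 - Y v‖ < ρ / 2) (hρ : 10 * (1 + K) * δ ≤ ρ / 2)
    (gap : ∀ s1 ∈ σ.P n s, ∀ s2 ∈ σ.P n s,
      |‖σ.L s1 - σ.L s2‖ - ‖Y (σ.lab s1) - Y (σ.lab s2)‖| < 2 * ρ →
        ‖σ.L s1 - σ.L s2‖ = ‖Y (σ.lab s1) - Y (σ.lab s2)‖)
    {F : Set ℝ} (hF : SqC F) (hYF : ∀ v w, ‖Y v - Y w‖ ^ 2 ∈ F) :
    ‖σ.L (σ.rot s) - σ.L s‖ ^ 2 ∈ F := by
  have hM : 0 ≤ σ.M := (norm_nonneg _).trans (σ.len s)
  have hδm' : σ.M * (10 * δ) ≤ σ.m := by nlinarith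
  set L := σ.L s with hL
  set R := σ.L (σ.rot s) with hR
  set h := d.h s with hh
  have hs : ContDiff ℝ ∞ h := d.smooth s
  have hl : 20 * δ ≤ ‖R - L‖ := by
    have a1 := σ.alt (σ.rot (σ.rot s)) 1
    simp only [σ.rot3, one_smul, add_sub_cancel] at a1
    have hM' : 0 < σ.M := by
      rcases hM.eq_or_lt with e | e
      · rw [← e] at a1; linarith [σ.m_pos]
      · exact e
    exact le_of_mul_le_mul_left (hδm.trans a1) hM'
  have hl0 : 0 < ‖R - L‖ := by linarith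
  set θ0 := 10 * δ / ‖R - L‖ with hθ0
  have t0 : 0 < θ0 := by positivity
  have t1 : θ0 ≤ 1 / 2 := by rw [hθ0, div_le_iff₀ hl0]; linarith
  have t2 : θ0 * ‖R - L‖ = 10 * δ := by rw [hθ0]; field_simp
  set y : ℝ → ℂ := fun θ => L + θ • (R - L) with hy
  have nL : ∀ θ, 0 ≤ θ → ‖L - y θ‖ = θ * ‖R - L‖ := fun θ h => by
    simp only [hy, sub_add_cancel_left, norm_neg, norm_smul, Real.norm_eq_abs, abs_of_nonneg h]
  have nR : ∀ θ, θ ≤ 1 → ‖R - y θ‖ = (1 - θ) * ‖R - L‖ := fun θ h => by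
    have : R - y θ = (1 - θ) • (R - L) := by simp only [hy]; module
    rw [this, norm_smul, Real.norm_eq_abs, abs_of_nonneg (by linarith)]
  have jL : ∀ θ ∈ Icc θ0 (1 - θ0), 10 * δ ≤ ‖L - y θ‖ := fun θ h => by
    rw [nL θ (by linarith [h.1])]; nlinarith [h.1]
  have jR : ∀ θ ∈ Icc θ0 (1 - θ0), 10 * δ ≤ ‖R - y θ‖ := fun θ h => by
    rw [nR θ (by linarith [h.2])]; nlinarith [h.2]
  have iso : ∀ θ ∈ Icc θ0 (1 - θ0), Iso h (y θ) := fun θ hθ =>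
    (edge_iso d hδ hδm' s (by linarith [hθ.1]) (by linarith [hθ.2]) rfl (jL θ hθ) (jR θ hθ)).iso
  set Φ : ℝ → ℂ → E3 := fun θ p => h (y θ) + fderiv ℝ h (y θ) (p - y θ) with hΦ
  have hder : ∀ p θ, HasDerivAt (fun θ => Φ θ p)
      (fderiv ℝ (fderiv ℝ h) (y θ) (R - L) (p - y θ)) θ := by
    intro p θ
    have a0 : HasDerivAt y (R - L) θ := by
      have := ((hasDerivAt_id θ).smul_const (R - L)).const_add L
      rw [one_smul] at this
      exact this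
    have a1 : HasDerivAt (fun θ => h (y θ)) (fderiv ℝ h (y θ) (R - L)) θ :=
      (cda_diff hs.contDiffAt).hasFDerivAt.comp_hasDerivAt θ a0
    have a2 : HasDerivAt (fun θ => fderiv ℝ h (y θ)) (fderiv ℝ (fderiv ℝ h) (y θ) (R - L)) θ :=
      ((hs.contDiffAt.fderiv_right (m := ∞) (by simp)).differentiableAt
        (by simp)).hasFDerivAt.comp_hasDerivAt θ a0
    have a3 := a1.add (a2.clm_apply (a0.const_sub p))
    refine a3.congr_deriv ?_
    rw [map_neg]; abel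
  have cont : ∀ p, Continuous fun θ => Φ θ p := fun p =>
    continuous_iff_continuousAt.2 fun θ => (hder p θ).continuousAt
  set N : ℝ → S → Prop := fun θ s' => ‖Φ θ (σ.L s') - c0 - Y (σ.lab s')‖ < ρ with hN
  have Nopen : ∀ s', IsOpen {θ | N θ s'} := fun s' =>
    isOpen_lt (((cont _).sub continuous_const).sub continuous_const).norm continuous_const
  have toN : ∀ θ s', ‖Φ θ (σ.L s') - d.X (σ.lab s')‖ ≤ 10 * (1 + K) * δ → N θ s' := by
    intro θ s' hb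
    have e : Φ θ (σ.L s') - c0 - Y (σ.lab s') =
        (Φ θ (σ.L s') - d.X (σ.lab s')) + (d.X (σ.lab s') - c0 - Y (σ.lab s')) := by abel
    simp only [hN]
    rw [e]
    linarith [norm_add_le (Φ θ (σ.L s') - d.X (σ.lab s')) (d.X (σ.lab s') - c0 - Y (σ.lab s')),
      hY (σ.lab s')]
  have exact : ∀ θ ∈ Icc θ0 (1 - θ0), ∀ s1 ∈ σ.P n s, ∀ s2 ∈ σ.P n s, N θ s1 → N θ s2 →
      ‖σ.L s1 - σ.L s2‖ ^ 2 ∈ F := by
    intro θ hθ s1 m1 s2 m2 n1 n2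
    rw [gap s1 m1 s2 m2 ?_]
    · exact hYF _ _
    have e1 : ‖σ.L s1 - σ.L s2‖ = ‖Φ θ (σ.L s1) - Φ θ (σ.L s2)‖ := by
      rw [← (iso θ hθ).norm]; congr 1; simp only [hΦ, map_sub]; abel
    rw [e1]
    refine (abs_norm_sub_norm_le _ _).trans_lt ?_
    have e2 : Φ θ (σ.L s1) - Φ θ (σ.L s2) - (Y (σ.lab s1) - Y (σ.lab s2)) =
        (Φ θ (σ.L s1) - c0 - Y (σ.lab s1)) - (Φ θ (σ.L s2) - c0 - Y (σ.lab s2)) := by abel
    rw [e2]
    simp only [hN] at n1 n2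
    linarith [norm_sub_le (Φ θ (σ.L s1) - c0 - Y (σ.lab s1)) (Φ θ (σ.L s2) - c0 - Y (σ.lab s2))]
  have endp : ∀ θ ∈ Icc θ0 (1 - θ0), ∀ s', d.h s' = h → ‖σ.L s' - y θ‖ = 10 * δ → N θ s' := by
    intro θ hθ s' e1 e2
    apply toN
    have : Φ θ (σ.L s') - d.X (σ.lab s') =
        fderiv ℝ h (y θ) (σ.L s' - y θ) + (d.h s' (y θ) - d.h s' (σ.L s')) := by
      rw [d.hL, e1]; simp only [hΦ]; abel
    rw [this]
    refine (norm_add_le _ _).trans ?_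
    rw [(iso θ hθ).norm]
    have := d.lip s' (y θ) (σ.L s')
    rw [norm_sub_rev (y θ), e2] at this
    linarith
  have ms : s ∈ σ.P n s := Or.inr (by simp)
  have mr : σ.rot s ∈ σ.P n s := Or.inr (by simp)
  set T : Set ℝ := {θ | ∀ s' ∈ σ.P n s, N θ s' → ‖σ.L s' - L‖ ^ 2 ∈ F} with hT
  have Tcl : IsClosed T := by
    have : T = ⋂ s' ∈ σ.P n s, ⋂ (_ : ‖σ.L s' - L‖ ^ 2 ∉ F), {θ | N θ s'}ᶜ := by
      ext θ
      simp only [hT, mem_ofPred_eq, mem_iInter, mem_compl_iff]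
      exact forall₂_congr fun s' _ => ⟨fun a b c => b (a c), fun a b => by_contra fun c => a c b⟩
    rw [this]
    exact isClosed_biInter fun s' _ => isClosed_iInter fun _ => (Nopen s').isClosed_compl
  have lo : θ0 ∈ Icc θ0 (1 - θ0) := ⟨le_rfl, by linarith⟩
  have hi : 1 - θ0 ∈ Icc θ0 (1 - θ0) := ⟨by linarith, le_rfl⟩
  have sub : Icc θ0 (1 - θ0) ⊆ T := by
    refine (Tcl.inter isClosed_Icc).Icc_subset_of_forall_mem_nhdsWithin
      (fun s' m' n' => exact θ0 lo s' m' s ms n' (endp θ0 lo s rfl (by rw [nL θ0 t0.le, t2]))) ?_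
    rintro x ⟨xT, hx⟩
    have hI : Icc θ0 (1 - θ0) ∈ 𝓝[>] x := Icc_mem_nhdsGT_of_mem hx
    by_cases good : ∃ s1 ∈ σ.P n s, ∃ s2 ∈ σ.P n s, σ.L s1 ≠ σ.L s2 ∧
        ‖Φ x (σ.L s1) - d.X (σ.lab s1)‖ ≤ 2 * (1 + K) * δ ∧
        ‖Φ x (σ.L s2) - d.X (σ.lab s2)‖ ≤ 2 * (1 + K) * δ
    · obtain ⟨s1, m1, s2, m2, hne, b1, b2⟩ := good
      have n1 : N x s1 := toN x s1 (by nlinarith)
      have n2 : N x s2 := toN x s2 (by nlinarith)
      filter_upwards [hI, mem_nhdsWithin_of_mem_nhds ((Nopen s1).mem_nhds n1),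
        mem_nhdsWithin_of_mem_nhds ((Nopen s2).mem_nhds n2)] with θ hθ k1 k2
      intro s' m' n'
      exact circ hF hne (xT s1 m1 n1) (xT s2 m2 n2) (exact θ hθ s1 m1 s2 m2 k1 k2)
        (exact θ hθ s1 m1 s' m' k1 n') (exact θ hθ s2 m2 s' m' k2 n')
    · have ev : ∀ᶠ θ in 𝓝 x, ∀ s1 ∈ σ.P n s, ∀ s2 ∈ σ.P n s, ¬ (σ.L s1 ≠ σ.L s2 ∧
          ‖Φ θ (σ.L s1) - d.X (σ.lab s1)‖ ≤ 2 * (1 + K) * δ ∧
          ‖Φ θ (σ.L s2) - d.X (σ.lab s2)‖ ≤ 2 * (1 + K) * δ) := by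
        rw [eventually_all_finite (σ.P_finite n s)]
        intro s1 m1
        rw [eventually_all_finite (σ.P_finite n s)]
        intro s2 m2
        have cl : IsClosed {θ : ℝ | σ.L s1 ≠ σ.L s2 ∧
            ‖Φ θ (σ.L s1) - d.X (σ.lab s1)‖ ≤ 2 * (1 + K) * δ ∧
            ‖Φ θ (σ.L s2) - d.X (σ.lab s2)‖ ≤ 2 * (1 + K) * δ} :=
          isClosed_const.inter
            ((isClosed_le ((cont _).sub continuous_const).norm continuous_const).inter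
              (isClosed_le ((cont _).sub continuous_const).norm continuous_const))
        exact cl.isOpen_compl.mem_nhds fun hc => good ⟨s1, m1, s2, m2, hc⟩
      obtain ⟨b, hb, hsub⟩ := mem_nhdsGE_iff_exists_Icc_subset.1
        (inter_mem (mem_nhdsWithin_of_mem_nhds ev) (Icc_mem_nhdsGE_of_mem hx))
      have cst : ∀ p, ∀ θ ∈ Icc x b, Φ θ p = Φ x p := fun p =>
        const_of_deriv (y := fun θ => Φ θ p) fun θ hθ => by
          have hz : fderiv ℝ (fderiv ℝ h) (y θ) (R - L) = 0 := by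
            by_contra hne
            have hθ' := (hsub hθ).2
            obtain ⟨s1, m1, s2, m2, hc⟩ := two_pts d hδ hδm' hK hn s (θ := θ)
              (by linarith [hθ'.1]) (by linarith [hθ'.2]) rfl (jL θ hθ') (jR θ hθ') hne
            exact (hsub hθ).1 s1 m1 s2 m2 hc
          have := hder p θ
          rw [hz] at this
          simpa using this
      filter_upwards [Icc_mem_nhdsGT_of_mem (⟨le_rfl, hb⟩ : x ∈ Ico x b)] with θ hθ
      intro s' m' n'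
      apply xT s' m'
      simp only [hN] at n' ⊢
      rwa [cst _ θ hθ] at n'
  exact sub hi (σ.rot s) mr (endp _ hi (σ.rot s) (d.hrot s) (by
    rw [nR _ (by linarith), sub_sub_cancel, t2]))

theorem abstract [Fintype V] (σ : Sys S V) {K D : ℝ} (hK : 0 ≤ K)
    (hex : ∀ δ0 > 0, ∃ δ, 0 < δ ∧ δ ≤ δ0 ∧ Nonempty (Data σ K D δ)) (v0 : V) :
    ∃ Y : V → E3, Y v0 = 0 ∧ ∀ F : Set ℝ, SqC F → (∀ v i, Y v i ∈ F) →
      ∀ s, ‖σ.L (σ.rot s) - σ.L s‖ ^ 2 ∈ F := by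
  choose δ hδ hδ' hd using fun k : ℕ => hex (1 / ((k : ℝ) + 1)) (by positivity)
  have d := fun k => (hd k).some
  obtain ⟨Y, -, φ, hφ, hlim⟩ := tendsto_subseq_of_bounded
    (Metric.isBounded_closedBall (x := (0 : V → E3)) (r := max D 0))
    (x := fun k v => (d k).X v - (d k).X v0) (fun k => by
      rw [mem_closedBall_zero_iff, pi_norm_le_iff_of_nonneg (le_max_right _ _)]
      exact fun v => ((d k).diamX v v0).trans (le_max_left _ _))
  have hlim' : ∀ v, Tendsto (fun k => (d (φ k)).X v - (d (φ k)).X v0) atTop (𝓝 (Y v)) :=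
    fun v => tendsto_pi_nhds.1 hlim v
  refine ⟨Y, ?_, fun F hF hYF s => ?_⟩
  · have := hlim' v0
    simp only [sub_self] at this
    exact (tendsto_nhds_unique tendsto_const_nhds this).symm
  have hm := σ.m_pos
  have hM : 0 < σ.M := by
    have a1 := σ.alt s 0
    by_contra hc
    push Not at hc
    nlinarith [norm_nonneg (σ.L (σ.rot (σ.rot s)) - (σ.L s + (0 : ℝ) • (σ.L (σ.rot s) - σ.L s)))]
  obtain ⟨n, hn⟩ := exists_nat_gt ((4 * σ.M / σ.m * D + 2) / (σ.m ^ 2 / (2 * σ.M ^ 4)))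
  rw [div_lt_iff₀ (by positivity)] at hn
  have ev : ∀ᶠ ρ in 𝓝[>] (0 : ℝ), ∀ s1 ∈ σ.P n s, ∀ s2 ∈ σ.P n s,
      |‖σ.L s1 - σ.L s2‖ - ‖Y (σ.lab s1) - Y (σ.lab s2)‖| < 2 * ρ →
        ‖σ.L s1 - σ.L s2‖ = ‖Y (σ.lab s1) - Y (σ.lab s2)‖ := by
    rw [eventually_all_finite (σ.P_finite n s)]
    intro s1 _
    rw [eventually_all_finite (σ.P_finite n s)]
    intro s2 _
    by_cases e : ‖σ.L s1 - σ.L s2‖ = ‖Y (σ.lab s1) - Y (σ.lab s2)‖
    · exact Eventually.of_forall fun _ _ => e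
    · have hp := abs_pos.2 (sub_ne_zero.2 e)
      filter_upwards [Ioo_mem_nhdsGT (half_pos hp)] with ρ hρ hc
      linarith [hρ.2]
  obtain ⟨ρ, gap, hρ⟩ := (ev.and self_mem_nhdsWithin).exists
  have hρ : 0 < ρ := hρ
  have hδ0 : Tendsto (fun k => δ (φ k)) atTop (𝓝 0) :=
    (squeeze_zero (fun k => (hδ k).le) hδ' tendsto_one_div_add_atTop_nhds_zero_nat).comp
      hφ.tendsto_atTop
  have e1 : ∀ᶠ k in atTop, ∀ v, ‖(d (φ k)).X v - (d (φ k)).X v0 - Y v‖ < ρ / 2 := by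
    rw [eventually_all]
    intro v
    simpa [dist_eq_norm] using Metric.tendsto_nhds.1 (hlim' v) _ (half_pos hρ)
  have e2 : ∀ᶠ k in atTop, δ (φ k) < σ.m / (σ.M * 20) := hδ0.eventually_lt_const (by positivity)
  have e3 : ∀ᶠ k in atTop, δ (φ k) < ρ / 2 / (10 * (1 + K)) :=
    hδ0.eventually_lt_const (by positivity)
  obtain ⟨k, k1, k2, k3⟩ := (e1.and (e2.and e3)).exists
  rw [lt_div_iff₀ (by positivity)] at k2 k3
  refine edge_alg (d (φ k)) (hδ _) (by linarith) hK hn s k1 (by linarith) gap hF fun v w => ?_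
  rw [EuclideanSpace.norm_sq_eq, Fin.sum_univ_three]
  simp only [PiLp.sub_apply, Real.norm_eq_abs, sq_abs]
  have := fun i => hF.sub (hYF v i) (hYF w i)
  simp only [sq]
  exact hF.add (hF.add (hF.mul (this 0) (this 0)) (hF.mul (this 1) (this 1)))
    (hF.mul (this 2) (this 2))

end Pool.Agent.H467Z.Lin
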