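import Pool.Agent.H467Z.Lin.Dat

set_option autoImplicit false

open scoped ContDiff Topology RealInnerProductSpace
open Set Filter Complex

namespace Pool.Agent.H467Z.Lin

lemma bil_abs {E F G η : ℝ} (hE : |E| ≤ η) (hF : |F| ≤ η) (hG : |G| ≤ η) {v w : R2} (hv : ‖v‖ ≤ 1)
    (hw : ‖w‖ ≤ 1) : |bil E F G v w| ≤ 4 * η := by
  have hη : 0 ≤ η := (abs_nonneg _).trans hE
  have v1 : |v.1| ≤ 1 := (norm_fst_le v).trans hv
  have v2 : |v.2| ≤ 1 := (norm_snd_le v).trans hv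
  have w1 : |w.1| ≤ 1 := (norm_fst_le w).trans hw
  have w2 : |w.2| ≤ 1 := (norm_snd_le w).trans hw
  have key : ∀ c a b : ℝ, |c| ≤ η → |a| ≤ 1 → |b| ≤ 1 → |c * a * b| ≤ η := fun c a b hc ha hb => by
    rw [abs_mul, abs_mul]
    exact (mul_le_mul (mul_le_mul hc ha (abs_nonneg _) hη) hb (abs_nonneg _) (by linarith)).trans
      (by linarith)
  have a1 := abs_le.1 (key E _ _ hE v1 w1)
  have a2 := abs_le.1 (key F _ _ hF v1 w2)
  have a3 := abs_le.1 (key F _ _ hF v2 w1)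
  have a4 := abs_le.1 (key G _ _ hG v2 w2)
  unfold bil
  exact abs_le.2 ⟨by linarith, by linarith⟩

lemma bil_sub (E F G E' F' G' : ℝ) (v w : R2) :
    bil E F G v w - bil E' F' G' v w = bil (E - E') (F - F') (G - G') v w := by unfold bil; ring

lemma her_pert {A B C A0 B0 C0 M η : ℝ} (hA : 0 ≤ A) (hAM : A ≤ M) (hB : 0 ≤ B) (hBM : B ≤ M)
    (hC : 0 ≤ C) (hCM : C ≤ M) (hA0 : 0 ≤ A0) (hAM0 : A0 ≤ M) (hB0 : 0 ≤ B0) (hBM0 : B0 ≤ M)
    (hC0 : 0 ≤ C0) (hCM0 : C0 ≤ M) (h1 : |A - A0| ≤ η) (h2 : |B - B0| ≤ η) (h3 : |C - C0| ≤ η) :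
    Her A0 B0 C0 - 20 * M * η ≤ Her A B C := by
  have hη : 0 ≤ η := (abs_nonneg _).trans h1
  have e : Her A B C - Her A0 B0 C0 = 4 * (A * (B - B0)) + 4 * (B0 * (A - A0)) -
      ((A - A0) + (B - B0) - (C - C0)) * ((A + B - C) + (A0 + B0 - C0)) := by unfold Her; ring
  have k1 : |A * (B - B0)| ≤ M * η := by
    rw [abs_mul, abs_of_nonneg hA]; exact mul_le_mul hAM h2 (abs_nonneg _) (by linarith)
  have k2 : |B0 * (A - A0)| ≤ M * η := by
    rw [abs_mul, abs_of_nonneg hB0]; exact mul_le_mul hBM0 h1 (abs_nonneg _) (by linarith)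
  have k3 : |((A - A0) + (B - B0) - (C - C0)) * ((A + B - C) + (A0 + B0 - C0))| ≤
      (3 * η) * (4 * M) := by
    rw [abs_mul]
    rw [abs_le] at h1 h2 h3
    exact mul_le_mul (abs_le.2 ⟨by linarith, by linarith⟩) (abs_le.2 ⟨by linarith, by linarith⟩)
      (abs_nonneg _) (by positivity)
  rw [abs_le] at k1 k2 k3
  linarith

lemma det_lo {E F G m : ℝ} (hm : 0 < m) (h : ∀ v : R2, m * (v.1 ^ 2 + v.2 ^ 2) ≤ bil E F G v v) :
    m ^ 2 ≤ E * G - F ^ 2 := by
  have h1 := h (1, 0)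
  have h2 := h (0, 1)
  have h3 := h (-F, E)
  simp only [bil] at h1 h2 h3
  have hE : 0 < E := by linarith
  have hmE : m ≤ E := by linarith
  have : E * m ^ 2 ≤ E * (E * G - F ^ 2) := by
    nlinarith [mul_nonneg hm.le (sq_nonneg F), mul_le_mul_of_nonneg_left hmE (mul_pos hm hE).le]
  exact le_of_mul_le_mul_left this hE

def e1 : R2 := (1, 0)
def e2 : R2 := (0, 1)

lemma iso_basis {A : R2 →L[ℝ] E3} {B : R2 →L[ℝ] ℂ} (h1 : ⟪A e1, A e1⟫ = dt (B e1) (B e1))
    (h2 : ⟪A e1, A e2⟫ = dt (B e1) (B e2)) (h3 : ⟪A e2, A e2⟫ = dt (B e2) (B e2)) (v w : R2) :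
    ⟪A v, A w⟫ = dt (B v) (B w) := by
  have hv : ∀ v : R2, v = v.1 • e1 + v.2 • e2 := fun v => by simp [e1, e2]
  rw [hv v, hv w]
  simp only [map_add, map_smul, inner_add_left, inner_add_right, inner_smul_left, inner_smul_right,
    real_inner_comm (A e1) (A e2), h1, h2, h3, conj_trivial]
  simp [dt]; ring

section
variable (N : ℕ)

def lab (a : Z2) : ZMod N × ZMod N := ((a.1 : ZMod N), (a.2 : ZMod N))
def rep (v : ZMod N × ZMod N) : Z2 := ((v.1.val : ℤ), (v.2.val : ℤ))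
def dvec : Fin 3 → Z2 := ![(1, 0), (0, 1), (-1, 1)]

/-- periodicity under `N ℤ²` -/
def PerN {α : Type} (F : R2 → α) : Prop := ∀ (x : R2) (i j : ℤ), F (x + pt (N * i, N * j)) = F x

def q1 (y : (ZMod N × ZMod N) × Fin 3 → ℝ) (a d : Z2) : ℝ :=
  if d = (1, 0) then y (lab N a, 0) else if d = (0, 1) then y (lab N a, 1)
  else if d = (-1, 1) then y (lab N a, 2) else 0

def qq (y : (ZMod N × ZMod N) × Fin 3 → ℝ) (a b : Z2) : ℝ := q1 N y a (b - a) + q1 N y b (a - b)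

variable {N}

lemma lab_rep [NeZero N] (v : ZMod N × ZMod N) : lab N (rep N v) = v := by simp [lab, rep]

lemma PerN.rep_lab [NeZero N] {α : Type} {F : R2 → α} (h : PerN N F) (a : Z2) :
    F (pt a) = F (pt (rep N (lab N a))) := by
  rw [← h (pt (rep N (lab N a))) (a.1 / N) (a.2 / N)]
  congr 1
  simp only [pt, rep, lab, ZMod.val_intCast, Prod.mk_add_mk]
  rw [← Int.cast_add, ← Int.cast_add, Int.emod_add_mul_ediv, Int.emod_add_mul_ediv]

lemma qq_per (y : (ZMod N × ZMod N) × Fin 3 → ℝ) (i j : ℤ) (a b : Z2) :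
    qq N y (a + (N * i, N * j)) (b + (N * i, N * j)) = qq N y a b := by
  have h : ∀ a : Z2, lab N (a + (N * i, N * j)) = lab N a := fun a => by simp [lab]
  simp only [qq, q1, h, add_sub_add_right_eq_sub]

lemma qq_cases (y : (ZMod N × ZMod N) × Fin 3 → ℝ) {a b : Z2} (h : IsDir (b - a)) :
    ∃ k, (b - a = dvec k ∧ qq N y a b = y (lab N a, k)) ∨
      (a - b = dvec k ∧ qq N y a b = y (lab N b, k)) := by
  have e : a - b = -(b - a) := by abel
  unfold qq
  rw [e]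
  rcases h with h | h | h | h | h | h <;> rw [h]
  · exact ⟨0, Or.inl ⟨rfl, by simp [q1]⟩⟩
  · exact ⟨1, Or.inl ⟨rfl, by simp [q1]⟩⟩
  · exact ⟨2, Or.inl ⟨rfl, by simp [q1]⟩⟩
  · exact ⟨0, Or.inr ⟨rfl, by simp [q1]⟩⟩
  · exact ⟨1, Or.inr ⟨rfl, by simp [q1]⟩⟩
  · exact ⟨2, Or.inr ⟨rfl, by simp [q1]⟩⟩

lemma PerN.diam [NeZero N] {f : R2 → E3} (h : PerN N f) {K : ℝ} (hK0 : 0 ≤ K)
    (hK : ∀ x y, ‖f x - f y‖ ≤ K * ‖x - y‖) (x y : R2) : ‖f x - f y‖ ≤ K * N := by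
  have hN : (0 : ℝ) < N := Nat.cast_pos.2 (NeZero.pos N)
  have key : ∀ t : ℝ, 0 ≤ t - N * ⌊t / N⌋ ∧ t - N * ⌊t / N⌋ ≤ N := fun t => by
    have a1 := Int.floor_le (t / N)
    have a2 := Int.lt_floor_add_one (t / N)
    rw [le_div_iff₀ hN] at a1
    rw [div_lt_iff₀ hN] at a2
    constructor <;> linarith
  rw [← h x (-⌊x.1 / N⌋) (-⌊x.2 / N⌋), ← h y (-⌊y.1 / N⌋) (-⌊y.2 / N⌋)]
  refine (hK _ _).trans (mul_le_mul_of_nonneg_left ?_ hK0)
  rw [Prod.norm_def]
  have := key x.1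
  have := key x.2
  have := key y.1
  have := key y.2
  refine max_le ?_ ?_ <;> simp only [pt, Prod.fst_sub, Prod.snd_sub, Prod.fst_add, Prod.snd_add,
    Real.norm_eq_abs] <;> push_cast <;> exact abs_le.2 ⟨by linarith, by linarith⟩

end

lemma pt_sub (a b : Z2) : pt b - pt a = pt (b - a) := by simp [pt]

theorem core (N : ℕ) [NeZero N] {E F G : R2 → ℝ} (sE : ContDiff ℝ ∞ E) (sF : ContDiff ℝ ∞ F)
    (sG : ContDiff ℝ ∞ G) (pE : PerN N E) (pF : PerN N F) (pG : PerN N G) {m0 M0 η om ε : ℝ}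
    (hm0 : 0 < m0) (hη : 0 < η) (hω : 0 ≤ om)
    (lo : ∀ (x v : R2), m0 * (v.1 ^ 2 + v.2 ^ 2) ≤ bil (E x) (F x) (G x) v v)
    (hi : ∀ x, |E x| ≤ M0 ∧ |F x| ≤ M0 ∧ |G x| ≤ M0)
    (osc : ∀ x y, ‖x - y‖ ≤ 3 → |E x - E y| ≤ η ∧ |F x - F y| ≤ η ∧ |G x - G y| ≤ η)
    (h1 : 5 * η ≤ m0 / 4) (h2 : η ≤ 1) (h3 : 100 * (4 * M0 + 5) * η ≤ 3 * m0 ^ 2)
    (h4 : 400 * η ^ 2 + 120 * (4 * M0 + 5) * η ≤ 4 * min (m0 / 4) (m0 ^ 2) * om ^ 2)
    (h5 : 6 * Cp * om ≤ √(min (m0 / 4) (m0 ^ 2)) / (4 * √(4 * M0 + 5)) / 2)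
    (h6 : 100 * η + 8 * √(4 * M0 + 5) * (6 * Cp * om) + (6 * Cp * om) ^ 2 ≤ ε) (h7 : ε ≤ 1) :
    ∃ E' F' G' : R2 → ℝ, ContDiff ℝ ∞ E' ∧ ContDiff ℝ ∞ F' ∧ ContDiff ℝ ∞ G' ∧
      PerN N E' ∧ PerN N F' ∧ PerN N G' ∧
      (∀ x, |E' x - E x| ≤ ε ∧ |F' x - F x| ≤ ε ∧ |G' x - G x| ≤ ε) ∧
      ¬ ∃ f : R2 → E3, ContDiff ℝ ∞ f ∧ PerN N f ∧ ∀ x,
        ⟪fderiv ℝ f x e1, fderiv ℝ f x e1⟫ = E' x ∧ ⟪fderiv ℝ f x e1, fderiv ℝ f x e2⟫ = F' x ∧
          ⟪fderiv ℝ f x e2, fderiv ℝ f x e2⟫ = G' x := by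
  set G0 : R2 → R2 → R2 → ℝ := fun x v w => bil (E x) (F x) (G x) v w with hG0
  have sG0 : ∀ v w, ContDiff ℝ ∞ fun x => G0 x v w := fun v w => by
    simp only [hG0, bil]; fun_prop
  have pG0 : ∀ v w, PerN N fun x => G0 x v w := fun v w x i j => by
    simp only [hG0, pE x i j, pF x i j, pG x i j]
  have hM0 : 0 ≤ M0 := (abs_nonneg _).trans (hi 0).1
  obtain ⟨y, hy, gen⟩ := exists_generic (ι := (ZMod N × ZMod N) × Fin 3)
    (fun i => G0 (pt (rep N i.1)) (pt (dvec i.2)) (pt (dvec i.2))) hη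
  have HQ : ∀ a b c, IsTri a b c → ∀ x, ‖x - pt a‖ ≤ 3 → ‖x - pt b‖ ≤ 3 →
      |qq N y a b - G0 x (pt b - pt a) (pt b - pt a)| ≤ 5 * η := by
    intro a b c h x ha hb
    have key : ∀ (p : Z2) (k : Fin 3), ‖x - pt p‖ ≤ 3 → ‖pt (dvec k)‖ ≤ 1 →
        |y (lab N p, k) - G0 x (pt (dvec k)) (pt (dvec k))| ≤ 5 * η := by
      intro p k hp hk
      have a1 := hy (lab N p, k)
      simp only at a1
      rw [← (pG0 (pt (dvec k)) (pt (dvec k))).rep_lab p] at a1
      obtain ⟨o1, o2, o3⟩ := osc x (pt p) hp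
      have a2 := bil_abs o1 o2 o3 hk hk
      rw [← bil_sub] at a2
      rw [abs_lt] at a1
      rw [abs_le] at a2
      exact abs_le.2 ⟨by simp only [hG0] at a1 ⊢; linarith, by simp only [hG0] at a1 ⊢; linarith⟩
    have n1 := (pt_le h).1
    obtain ⟨k, ⟨e, e'⟩ | ⟨e, e'⟩⟩ := qq_cases y h.1
    · rw [pt_sub, e] at n1 ⊢
      rw [e']; exact key a k ha n1
    · have e2 : G0 x (pt b - pt a) (pt b - pt a) = G0 x (pt a - pt b) (pt a - pt b) := by
        simp [hG0, bil]; ring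
      rw [norm_sub_rev] at n1
      rw [e2, e']
      rw [pt_sub, e] at n1 ⊢
      exact key b k hb n1
  have qs : ∀ a b, qq N y a b = qq N y b a := fun a b => add_comm _ _
  have Gs : ∀ x (a b : Z2), G0 x (pt b - pt a) (pt b - pt a) = G0 x (pt a - pt b) (pt a - pt b) :=
    fun x a b => by simp [hG0, bil]; ring
  have Glo : ∀ x a b c, IsTri a b c → m0 / 2 ≤ G0 x (pt b - pt a) (pt b - pt a) := by
    intro x a b c h
    obtain ⟨d1, d2, f1, f2, -, -, f5, -⟩ := h.real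
    have := lo x (pt b - pt a)
    simp only [pt, Prod.mk_sub_mk, f1, f2, add_sub_cancel_left, hG0] at this ⊢
    nlinarith [sq_nonneg (d1 - d2)]
  have Ghi : ∀ x a b c, IsTri a b c → G0 x (pt b - pt a) (pt b - pt a) ≤ 4 * M0 := fun x a b c h =>
    (le_abs_self _).trans (bil_abs (hi x).1 (hi x).2.1 (hi x).2.2 (pt_le h).1 (pt_le h).1)
  have na : ∀ a : Z2, ‖pt a - pt a‖ ≤ 3 := fun a => by simp
  have nb : ∀ a b c, IsTri a b c → ‖pt a - pt b‖ ≤ 3 ∧ ‖pt a - pt c‖ ≤ 3 := fun a b c h => by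
    rw [norm_sub_rev, norm_sub_rev (pt a)]; exact ⟨by linarith [(pt_le h).1], by linarith [(pt_le h).2]⟩
  have qlo : ∀ a b c, IsTri a b c → m0 / 4 ≤ qq N y a b := fun a b c h => by
    linarith [(abs_le.1 (HQ a b c h (pt a) (na a) (nb a b c h).1)).1, Glo (pt a) a b c h]
  have qhi : ∀ a b c, IsTri a b c → qq N y a b ≤ 4 * M0 + 5 := fun a b c h => by
    linarith [(abs_le.1 (HQ a b c h (pt a) (na a) (nb a b c h).1)).2, Ghi (pt a) a b c h]
  let Q : QD := QD.mk (qq N y) (min (m0 / 4) (m0 ^ 2)) (4 * M0 + 5) (10 * η) om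
      (lt_min (by linarith) (by positivity)) hω (by linarith) qs
      (fun a b c h => (min_le_left _ _).trans (qlo a b c h)) qhi
      (fun a b c h => by
        refine (min_le_right _ _).trans ?_
        have kA := HQ a b c h (pt a) (na a) (nb a b c h).1
        have kB := HQ c a b h.rot.rot (pt a) (nb a b c h).2 (na a)
        have kC := HQ b c a h.rot (pt a) (nb a b c h).1 (nb a b c h).2
        rw [qs c a] at kB
        have hp := her_pert (M := 4 * M0 + 5) (by linarith [qlo a b c h]) (qhi a b c h)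
          (by rw [qs]; linarith [qlo _ _ _ h.rot.rot]) (by rw [qs]; exact qhi _ _ _ h.rot.rot)
          (by linarith [qlo _ _ _ h.rot]) (qhi _ _ _ h.rot)
          (by linarith [Glo (pt a) _ _ _ h]) (by linarith [Ghi (pt a) _ _ _ h])
          (by linarith [Glo (pt a) _ _ _ h.rot.rot]) (by linarith [Ghi (pt a) _ _ _ h.rot.rot])
          (by linarith [Glo (pt a) _ _ _ h.rot]) (by linarith [Ghi (pt a) _ _ _ h.rot]) kA kB kC
        have hd := det_lo hm0 (lo (pt a))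
        have e : Her (G0 (pt a) (pt b - pt a) (pt b - pt a)) (G0 (pt a) (pt a - pt c) (pt a - pt c))
            (G0 (pt a) (pt c - pt b) (pt c - pt b)) = 4 * (E (pt a) * G (pt a) - F (pt a) ^ 2) := by
          obtain ⟨d1, d2, f1, f2, f3, f4, f5, -⟩ := h.real
          simp only [hG0]
          generalize E (pt a) = E0
          generalize F (pt a) = F0
          generalize G (pt a) = G1
          simp only [Her, bil, pt, Prod.mk_sub_mk, f1, f2, f3, f4]
          linear_combination (4 * (E0 * G1 - F0 ^ 2) * (d1 ^ 2 + d1 * d2 + d2 ^ 2 + 1)) * f5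
        rw [e] at hp
        linarith)
      (fun a b c h => by
        have f := h.flip
        have kB := HQ c a b h.rot.rot (pt a) (nb a b c h).2 (na a)
        have kC := HQ b c a h.rot (pt a) (nb a b c h).1 (nb a b c h).2
        have n' := (nb _ _ _ f.rot).1
        have kB' := HQ _ _ _ f.rot.rot (pt a) n' (nb a b c h).1
        have kC' := HQ _ _ _ f.rot (pt a) (na a) n'
        have e1 : pt b - pt (a + b - c) = pt c - pt a := by simp [pt]; constructor <;> ring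
        have e2 : pt (a + b - c) - pt a = pt b - pt c := by simp [pt]; constructor <;> ring
        rw [e1, qs, Gs] at kB'
        rw [e2, Gs] at kC'
        rw [qs c a] at kB
        rw [abs_le] at kB kC kB' kC'
        exact ⟨abs_le.2 ⟨by linarith, by linarith⟩, abs_le.2 ⟨by linarith, by linarith⟩⟩)
  have close : ∀ δ, 0 < δ → δ ≤ 1 / 100 → ∀ x v w : R2, ‖v‖ ≤ 1 → ‖w‖ ≤ 1 →
      |Q.gd δ G0 x v w - G0 x v w| ≤ ε := by
    intro δ hδ hδ1 x v w hv hw
    have hε : 0 ≤ ε := by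
      have := Cp_one
      refine le_trans (by positivity) h6
    have e : Q.gd δ G0 x v w - G0 x v w = kap δ x * (Q.gflat δ x v w - G0 x v w) := by
      unfold QD.gd; ring
    rw [e]
    rcases Q.cover' hδ x with ⟨s, hs⟩ | h
    swap
    · rw [h.eq_of_nhds]; simpa using hε
    have nv : ∀ a b c, IsTri a b c → x ∈ Zone δ (10 * δ) a b c → ‖x - pt a‖ ≤ 3 := by
      intro a b c h hx
      have a1 : |lam c a x| ≤ 1 := abs_le.2 ⟨by linarith [hx.2.2.1], by linarith [hx.2.2.2]⟩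
      have a2 : |lam a b x| ≤ 1 := abs_le.2 ⟨by linarith [hx.1.1], by linarith [hx.1.2]⟩
      linarith [near_vertex h x]
    have t := hs.1.1
    have xa := nv _ _ _ t hs.2
    have xb := nv _ _ _ t.rot (zone_rot hs.2)
    have xc := nv _ _ _ t.rot.rot (zone_rot (zone_rot hs.2))
    have kB := HQ _ _ _ t.rot.rot x xc xa
    rw [qs, Gs] at kB
    have := QD.gs_close hδ hs.1 x (HQ _ _ _ t x xa xb) kB (HQ _ _ _ t.rot x xb xc) hv hw
    rw [QD.gflat_eq hδ hδ1 hs, abs_mul, abs_of_nonneg (kap_mem δ x).1]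
    refine (mul_le_of_le_one_left (abs_nonneg _) (kap_mem δ x).2).trans (this.trans ?_)
    exact le_trans (by simp only [Q]; linarith) h6
  have n1 : ‖e1‖ ≤ 1 := by simp [e1]
  have n2 : ‖e2‖ ≤ 1 := by simp [e2]
  have g11 : ∀ x, G0 x e1 e1 = E x := fun x => by simp [hG0, bil, e1]
  have g12 : ∀ x, G0 x e1 e2 = F x := fun x => by simp [hG0, bil, e1, e2]
  have g22 : ∀ x, G0 x e2 e2 = G x := fun x => by simp [hG0, bil, e2]
  by_contra hcon
  push Not at hcon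
  have hsM : 0 < √(4 * M0 + 5) := Real.sqrt_pos.2 (by linarith)
  have c0p : 0 < Q.c0 := (QD.exists_val (Q := Q) (a := (0, 0)) (b := (1, 0)) (c := (0, 1))
    (by simp [IsTri, IsDir])).c0_pos
  obtain ⟨Y, hY0, hY⟩ := abstract (Q.sys (lab N)) (K := 2 * √(M0 + 1) * (2 / Q.c0))
    (D := 2 * √(M0 + 1) * N) (by positivity) (fun δ0 hδ0 => by
      set δ := min (1 / 100) (δ0 / (100 * √(4 * M0 + 5))) with hδd
      have hδ : 0 < δ := lt_min (by norm_num) (by positivity)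
      have hδ1 : δ ≤ 1 / 100 := min_le_left _ _
      have hδ2 : δ ≤ δ0 / (100 * √(4 * M0 + 5)) := min_le_right _ _
      rw [le_div_iff₀ (by positivity)] at hδ2
      refine ⟨√(4 * M0 + 5) * (100 * δ), by positivity, by linarith, ?_⟩
      have per : ∀ v w, PerN N fun x => Q.gd δ G0 x v w := fun v w x i j =>
        QD.gd_per hδ hδ1 (qq_per y i j) x v w (pG0 v w x i j)
      obtain ⟨f, hf, pf, hiso⟩ := hcon _ _ _ (QD.gd_cd hδ hδ1 e1 e1 (sG0 _ _))
        (QD.gd_cd hδ hδ1 e1 e2 (sG0 _ _)) (QD.gd_cd hδ hδ1 e2 e2 (sG0 _ _)) (per _ _) (per _ _)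
        (per _ _) (fun x => ⟨g11 x ▸ close δ hδ hδ1 x _ _ n1 n1, g12 x ▸ close δ hδ hδ1 x _ _ n1 n2,
          g22 x ▸ close δ hδ hδ1 x _ _ n2 n2⟩)
      have lip : ∀ x y, ‖f x - f y‖ ≤ 2 * √(M0 + 1) * ‖x - y‖ := by
        intro x y
        refine (convex_univ (𝕜 := ℝ) (E := R2)).norm_image_sub_le_of_norm_fderiv_le
          (fun x _ => hf.differentiable (by simp) x) (fun x _ => ?_) (mem_univ y) (mem_univ x)
        refine ContinuousLinearMap.opNorm_le_bound _ (by positivity) fun v => ?_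
        have b1 : ‖fderiv ℝ f x e1‖ ≤ √(M0 + 1) := Real.le_sqrt_of_sq_le (by
          rw [← real_inner_self_eq_norm_sq, (hiso x).1]
          have := abs_le.1 (close δ hδ hδ1 x _ _ n1 n1)
          rw [g11] at this
          linarith [(abs_le.1 (hi x).1).2])
        have b2 : ‖fderiv ℝ f x e2‖ ≤ √(M0 + 1) := Real.le_sqrt_of_sq_le (by
          rw [← real_inner_self_eq_norm_sq, (hiso x).2.2]
          have := abs_le.1 (close δ hδ hδ1 x _ _ n2 n2)
          rw [g22] at this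
          linarith [(abs_le.1 (hi x).2.2).2])
        have hv : v = v.1 • e1 + v.2 • e2 := by simp [e1, e2]
        conv_lhs => rw [hv, map_add, map_smul, map_smul]
        refine (norm_add_le _ _).trans ?_
        rw [norm_smul, norm_smul]
        have := mul_le_mul (norm_fst_le v) b1 (norm_nonneg _) (norm_nonneg _)
        have := mul_le_mul (norm_snd_le v) b2 (norm_nonneg _) (norm_nonneg _)
        linarith
      have dm := pf.diam (by positivity) lip
      refine QD.data_of (Q := Q) hδ hδ1 h5 (lab N) hf (X := fun v => f (pt (rep N v)))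
        (fun a => pf.rep_lab a) (by positivity) lip dm (fun v w => dm _ _) ?_
      intro s x hs hx
      have eq : ∀ v w, Q.gd δ G0 x v w = Q.gs δ s x v w := fun v w => by
        unfold QD.gd
        rw [kap_inner hδ hδ1 hs.1 hx, QD.gflat_eq hδ hδ1 ⟨hs, zone_mono (by linarith) hx⟩]
        ring
      exact iso_basis ((hiso x).1.trans (eq _ _)) ((hiso x).2.1.trans (eq _ _))
        ((hiso x).2.2.trans (eq _ _))) 0
  classical
  have cnt := gen (((Finset.univ.erase (0 : ZMod N × ZMod N)) ×ˢ (Finset.univ : Finset (Fin 3))).image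
    fun p => Y p.1 p.2) (fun F hF hs i => by
      have hall : ∀ v i, Y v i ∈ F := fun v i => by
        by_cases e : v = 0
        · rw [e, hY0]; simpa using hF.rat 0
        · apply hs
          simp only [Finset.coe_image, mem_image]
          exact ⟨(v, i), by simp [e], rfl⟩
      obtain ⟨v, k⟩ := i
      have t : IsTri (rep N v) (rep N v + dvec k)
          (rep N v + (-(dvec k).2, (dvec k).1 + (dvec k).2)) := by
        fin_cases k <;> simp [IsTri, IsDir, dvec]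
      have := hY F hF hall ⟨_, QD.exists_val (Q := Q) t⟩
      have e : ‖(Q.sys (lab N)).L ((Q.sys (lab N)).rot ⟨_, QD.exists_val (Q := Q) t⟩) -
          (Q.sys (lab N)).L ⟨_, QD.exists_val (Q := Q) t⟩‖ ^ 2 = qq N y (rep N v) (rep N v + dvec k) :=
        (QD.exists_val (Q := Q) t).2
      rw [e] at this
      have e2 : qq N y (rep N v) (rep N v + dvec k) = y (v, k) := by
        fin_cases k <;> simp [qq, q1, dvec, lab_rep]
      rwa [e2] at this)
  have c2 := cnt.trans Finset.card_image_le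
  rw [Finset.card_product, Finset.card_erase_of_mem (Finset.mem_univ _), Fintype.card_prod,
    Finset.card_univ, Finset.card_univ, Fintype.card_fin] at c2
  have : 0 < Fintype.card (ZMod N × ZMod N) := Fintype.card_pos
  omega

end Pool.Agent.H467Z.Lin
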