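import Pool.Agent.H467Z.Lin.Glue
import Pool.Agent.H467Z.Lin.Alg

set_option autoImplicit false

open scoped ContDiff Topology RealInnerProductSpace
open Set Filter Complex

namespace Pool.Agent.H467Z.Lin

def bil (E F G : ℝ) (v w : R2) : ℝ := E * v.1 * w.1 + F * (v.1 * w.2 + v.2 * w.1) + G * v.2 * w.2

namespace QD
variable {Q : QD} {δ : ℝ}

lemma gs_close (hδ : 0 < δ) {s : St} (h : Q.Val s) (x : R2) {E F G η : ℝ}
    (hA : |Q.q s.a s.b - bil E F G (pt s.b - pt s.a) (pt s.b - pt s.a)| ≤ η)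
    (hB : |Q.q s.a s.c - bil E F G (pt s.c - pt s.a) (pt s.c - pt s.a)| ≤ η)
    (hC : |Q.q s.b s.c - bil E F G (pt s.c - pt s.b) (pt s.c - pt s.b)| ≤ η)
    {v w : R2} (hv : ‖v‖ ≤ 1) (hw : ‖w‖ ≤ 1) :
    |Q.gs δ s x v w - bil E F G v w| ≤
      20 * η + 8 * √Q.M1 * (6 * Cp * Q.ω) + (6 * Cp * Q.ω) ^ 2 := by
  have hη : 0 ≤ η := (abs_nonneg _).trans hA
  have hM := h.M_pos
  have he : 0 ≤ 6 * Cp * Q.ω := by have := Cp_one; have := Q.ω_nonneg; positivity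
  set e := 6 * Cp * Q.ω with hee
  have p1 := phi_der hδ h x v
  have p2 := phi_der hδ h x w
  have l1 := Lam_hi h v
  have l2 := Lam_hi h w
  rw [← hee] at p1 p2
  set a := fderiv ℝ (Q.phi δ s) x v - Q.Lam s v with ha
  set b := fderiv ℝ (Q.phi δ s) x w - Q.Lam s w with hb
  have e1 : Q.gs δ s x v w - dt (Q.Lam s v) (Q.Lam s w) =
      dt (Q.Lam s v) b + dt a (Q.Lam s w) + dt a b := by
    simp only [gs, ha, hb, dt, sub_re, sub_im]; ring
  have q1 : ‖a‖ ≤ e := by nlinarith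
  have q2 : ‖b‖ ≤ e := by nlinarith
  have q3 : ‖Q.Lam s v‖ ≤ 4 * √Q.M1 := by nlinarith
  have q4 : ‖Q.Lam s w‖ ≤ 4 * √Q.M1 := by nlinarith
  have r1 := abs_le.1 ((abs_dt_le (Q.Lam s v) b).trans (mul_le_mul q3 q2 (norm_nonneg _) (by positivity)))
  have r2 := abs_le.1 ((abs_dt_le a (Q.Lam s w)).trans (mul_le_mul q1 q4 (norm_nonneg _) he))
  have r3 := abs_le.1 ((abs_dt_le a b).trans (mul_le_mul q1 q2 (norm_nonneg _) he))
  have nA := h.2
  have nB := h.nsqO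
  have nC : ‖Q.O s - s.R‖ ^ 2 = Q.q s.b s.c := h.rot.2
  have s1 : |dlam s.c s.a v| ≤ 2 := by linarith [dlam_le h.1.rot.rot v]
  have s2 : |dlam s.c s.a w| ≤ 2 := by linarith [dlam_le h.1.rot.rot w]
  have s3 : |dlam s.a s.b v| ≤ 2 := by linarith [dlam_le h.1 v]
  have s4 : |dlam s.a s.b w| ≤ 2 := by linarith [dlam_le h.1 w]
  have ev := vec_eq h.1 v
  have ew := vec_eq h.1 w
  rw [Lam_apply, Lam_apply] at *
  generalize dlam s.c s.a v = σ1 at *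
  generalize dlam s.c s.a w = σ2 at *
  generalize dlam s.a s.b v = τ1 at *
  generalize dlam s.a s.b w = τ2 at *
  set dA := Q.q s.a s.b - bil E F G (pt s.b - pt s.a) (pt s.b - pt s.a) with hdA
  set dB := Q.q s.a s.c - bil E F G (pt s.c - pt s.a) (pt s.c - pt s.a) with hdB
  set dC := Q.q s.b s.c - bil E F G (pt s.c - pt s.b) (pt s.c - pt s.b) with hdC
  have e2 : dt (σ1 • (s.R - s.L) + τ1 • (Q.O s - s.L)) (σ2 • (s.R - s.L) + τ2 • (Q.O s - s.L)) -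
      bil E F G v w = dA * (σ1 * σ2) + (dA + dB - dC) / 2 * (σ1 * τ2 + τ1 * σ2) + dB * (τ1 * τ2) := by
    rw [hdA, hdB, hdC, ← nA, ← nB, ← nC, ev, ew]
    simp [nsq, dt, bil]
    ring
  have m4 : ∀ a b : ℝ, |a| ≤ 2 → |b| ≤ 2 → |a * b| ≤ 4 := fun a b ha hb => by
    rw [abs_mul]; nlinarith [abs_nonneg a, abs_nonneg b]
  have t1 : |dA * (σ1 * σ2)| ≤ η * 4 := by
    rw [abs_mul]; exact mul_le_mul hA (m4 _ _ s1 s2) (abs_nonneg _) hη
  have t2 : |dB * (τ1 * τ2)| ≤ η * 4 := by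
    rw [abs_mul]; exact mul_le_mul hB (m4 _ _ s3 s4) (abs_nonneg _) hη
  have t3 : |(dA + dB - dC) / 2 * (σ1 * τ2 + τ1 * σ2)| ≤ (3 * η / 2) * 8 := by
    rw [abs_mul]
    have u1 := abs_le.1 hA
    have u2 := abs_le.1 hB
    have u3 := abs_le.1 hC
    refine mul_le_mul (abs_le.2 ⟨by linarith, by linarith⟩) ((abs_add_le _ _).trans ?_)
      (abs_nonneg _) (by positivity)
    linarith [m4 _ _ s1 s4, m4 _ _ s3 s2]
  have := abs_le.1 t1
  have := abs_le.1 t2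
  have := abs_le.1 t3
  exact abs_le.2 ⟨by nlinarith, by nlinarith⟩

lemma inv_spec (hδ : 0 < δ) (hω : 6 * Cp * Q.ω ≤ Q.c0 / 2) {s : St} (h : Q.Val s) :
    Function.Bijective (Q.phi δ s) ∧ ContDiff ℝ ∞ (Function.invFun (Q.phi δ s)) ∧
      ∀ x y, Q.c0 / 2 * ‖x - y‖ ≤ ‖Q.phi δ s x - Q.phi δ s y‖ :=
  exists_inv (Q.phi_cd δ s) (Q.Lam s) h.c0_pos (Lam_lo h) fun x v =>
    (phi_der hδ h x v).trans (mul_le_mul_of_nonneg_right hω (norm_nonneg _))

lemma loc (hδ : 0 < δ) (hω : 6 * Cp * Q.ω ≤ Q.c0 / 2) {s : St} (h : Q.Val s) {β γ : ℝ}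
    (hβ : 0 ≤ β) (hγ : 0 ≤ γ) (hs : β + γ ≤ 1) {p : ℂ}
    (hp : p = s.L + β • (s.R - s.L) + γ • (Q.O s - s.L)) :
    |lam s.a s.b (Function.invFun (Q.phi δ s) p) - γ| ≤ δ ∧
    |lam s.c s.a (Function.invFun (Q.phi δ s) p) - β| ≤ δ ∧
    |lam s.b s.c (Function.invFun (Q.phi δ s) p) - (1 - β - γ)| ≤ δ := by
  obtain ⟨bij, -, anti⟩ := inv_spec hδ hω h
  obtain ⟨b1, b2, b3⟩ := lam_bary h.1 β γ
  set x0 := pt s.a + β • (pt s.b - pt s.a) + γ • (pt s.c - pt s.a)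
  set x := Function.invFun (Q.phi δ s) p
  have e := anti x x0
  rw [Function.rightInverse_invFun bij.2 p, phi_eq h.1 x0, b1, b2, b3, ← hp, sub_add_cancel_left,
    norm_neg] at e
  have key : ∀ (t : ℝ) (s' : St), 0 ≤ t → Q.Val s' → ‖psi δ t • Q.w s'‖ ≤ δ * Q.ω := by
    intro t s' ht hs'
    rw [norm_smul, Real.norm_eq_abs]
    exact mul_le_mul (psi_abs hδ ht) hs'.w_le (norm_nonneg _) hδ.le
  have k1 := key γ s hγ h
  have k2 := key (1 - β - γ) _ (by linarith) h.rot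
  have k3 := key β _ hβ h.rot.rot
  have k4 := e.trans norm_add₃_le
  have hc := h.c0_pos
  have k5 : ‖x - x0‖ ≤ δ / 2 := by
    have a1 : 6 * Q.ω ≤ Q.c0 / 2 := by nlinarith [Cp_one, Q.ω_nonneg]
    have a2 : Q.c0 / 2 * ‖x - x0‖ ≤ Q.c0 / 2 * (δ / 2) := by nlinarith
    exact le_of_mul_le_mul_left a2 (by positivity)
  rw [← b1, ← b2]
  nth_rewrite 2 [b1, b2]
  rw [← b3, lam_sub, lam_sub, lam_sub]
  exact ⟨by linarith [dlam_le h.1 (x - x0)], by linarith [dlam_le h.1.rot.rot (x - x0)],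
    by linarith [dlam_le h.1.rot (x - x0)]⟩

lemma far {s : St} (h : Q.Val s) {β γ r : ℝ} (hβ : 0 ≤ β) (hγ : 0 ≤ γ) (hs : β + γ ≤ 1) {p : ℂ}
    (hp : p = s.L + β • (s.R - s.L) + γ • (Q.O s - s.L)) :
    (√Q.M1 * r < ‖s.L - p‖ → r < β + γ) ∧ (√Q.M1 * r < ‖s.R - p‖ → r < 1 - β) ∧
      (√Q.M1 * r < ‖Q.O s - p‖ → r < 1 - γ) := by
  have hM := h.M_pos
  have key : ∀ (a b : ℝ) (u v z : ℂ), 0 ≤ a → 0 ≤ b → ‖u‖ ≤ √Q.M1 → ‖v‖ ≤ √Q.M1 →
      z = a • u + b • v → √Q.M1 * r < ‖z‖ → r < a + b := by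
    intro a b u v z ha hb hu hv hz hr
    have := norm_add_le (a • u) (b • v)
    rw [← hz, norm_smul, norm_smul, Real.norm_eq_abs, Real.norm_eq_abs, abs_of_nonneg ha,
      abs_of_nonneg hb] at this
    refine lt_of_mul_lt_mul_left (a := √Q.M1) ?_ hM.le
    nlinarith
  have l1 := h.len
  have l2 := h.lenO
  have l3 : ‖Q.O s - s.R‖ ≤ √Q.M1 := h.rot.len
  refine ⟨fun k => ?_, fun k => ?_, fun k => ?_⟩
  · rw [norm_sub_rev] at k
    exact key β γ _ _ _ hβ hγ l1 l2 (by rw [hp]; module) k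
  · have := key (1 - β - γ) γ (s.R - s.L) (-(Q.O s - s.R)) _ (by linarith) hγ l1
      (by rwa [norm_neg]) (by rw [hp]; module) k
    linarith
  · have := key (1 - β - γ) β (Q.O s - s.L) (Q.O s - s.R) _ (by linarith) hβ l2 l3
      (by rw [hp]; module) k
    linarith

lemma data_of (hδ : 0 < δ) (hδ1 : δ ≤ 1 / 100) (hω : 6 * Cp * Q.ω ≤ Q.c0 / 2) {V : Type}
    (lab : Z2 → V) {f : R2 → E3} (hf : ContDiff ℝ ∞ f) {X : V → E3}
    (hX : ∀ a, f (pt a) = X (lab a)) {Kf D : ℝ} (hKf : 0 ≤ Kf)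
    (hK : ∀ x y, ‖f x - f y‖ ≤ Kf * ‖x - y‖) (hD : ∀ x y, ‖f x - f y‖ ≤ D)
    (hDX : ∀ v w, ‖X v - X w‖ ≤ D)
    (hiso : ∀ s x, Q.Val s → x ∈ Zone δ (88 * δ) s.a s.b s.c → ∀ v w,
      ⟪fderiv ℝ f x v, fderiv ℝ f x w⟫ = Q.gs δ s x v w) :
    Nonempty (Data (Q.sys lab) (Kf * (2 / Q.c0)) D (√Q.M1 * (100 * δ))) := by
  refine ⟨⟨fun s => f ∘ Function.invFun (Q.phi δ s.1), X,
    fun s => hf.comp (inv_spec hδ hω s.2).2.1, fun s => ?_, fun s => ?_, fun s p q => ?_,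
    fun s s' p q => hD _ _, hDX, ?_, ?_⟩⟩
  · show f ∘ Function.invFun (Q.phi δ (Q.rot s.1)) = _
    rw [phi_rot s.2.1]
  · obtain ⟨b1, b2, b3⟩ := lam_bary s.2.1 0 0
    simp only [zero_smul, add_zero, sub_zero] at b1 b2 b3
    have e : Q.phi δ s.1 (pt s.1.a) = s.1.L := by
      rw [phi_eq s.2.1, b1, b2, b3, psi_at0, psi_zero hδ (by linarith)]; simp
    show f (Function.invFun (Q.phi δ s.1) s.1.L) = X (lab s.1.a)
    rw [← e, Function.leftInverse_invFun (inv_spec hδ hω s.2).1.1, hX]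
  · obtain ⟨bij, -, anti⟩ := inv_spec hδ hω s.2
    have e := anti (Function.invFun (Q.phi δ s.1) p) (Function.invFun (Q.phi δ s.1) q)
    rw [Function.rightInverse_invFun bij.2 p, Function.rightInverse_invFun bij.2 q] at e
    refine (hK _ _).trans ?_
    rw [mul_assoc]
    refine mul_le_mul_of_nonneg_left ?_ hKf
    have hc := s.2.c0_pos
    rw [div_mul_eq_mul_div, le_div_iff₀ hc]
    linarith
  · rintro ⟨s, h⟩ p ⟨β, γ, hβ, hγ, hs, hp⟩ f1 f2 f3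
    obtain ⟨bij, sm, -⟩ := inv_spec hδ hω h
    obtain ⟨l1, l2, l3⟩ := loc hδ hω h hβ hγ hs hp
    obtain ⟨g1, g2, g3⟩ := far (r := 100 * δ) h hβ hγ hs hp
    have g1 := g1 f1
    have g2 := g2 f2
    have g3 := g3 f3
    rw [abs_le] at l1 l2 l3
    have hz : Function.invFun (Q.phi δ s) p ∈ Zone δ (88 * δ) s.a s.b s.c :=
      ⟨⟨by linarith, by linarith⟩, ⟨by linarith, by linarith⟩, ⟨by linarith, by linarith⟩⟩
    filter_upwards [sm.continuous.continuousAt.preimage_mem_nhds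
      ((zone_open _ _ _ _ _).mem_nhds hz)] with y hy v w
    have d1 := sm.differentiable (by simp) y
    have d2 := hf.differentiable (by simp) (Function.invFun (Q.phi δ s) y)
    have d3 := (Q.phi_cd δ s).differentiable (by simp) (Function.invFun (Q.phi δ s) y)
    have c1 := fderiv_comp y d3 d1
    rw [(Function.rightInverse_invFun bij.2).comp_eq_id, fderiv_id] at c1
    have c2 := fun v => congrArg (fun A : ℂ →L[ℝ] ℂ => A v) c1
    simp only [ContinuousLinearMap.id_apply, ContinuousLinearMap.comp_apply] at c2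
    show ⟪fderiv ℝ (f ∘ Function.invFun (Q.phi δ s)) y v,
      fderiv ℝ (f ∘ Function.invFun (Q.phi δ s)) y w⟫ = _
    rw [fderiv_comp y d2 d1]
    simp only [ContinuousLinearMap.comp_apply]
    rw [hiso s _ h hy, gs, ← c2, ← c2]
    simp [dt, Complex.inner, mul_comm]
  · rintro ⟨s, h⟩ θ p h0 h1 hp f1 f2
    have hp' : p = s.L + θ • (s.R - s.L) + (0 : ℝ) • (Q.O s - s.L) := by
      rw [zero_smul, add_zero]; exact hp
    obtain ⟨bij, sm, -⟩ := inv_spec hδ hω h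
    obtain ⟨l1, l2, l3⟩ := loc hδ hω h h0 le_rfl (by linarith) hp'
    obtain ⟨g1, g2, -⟩ := far (r := 100 * δ) h h0 le_rfl (by linarith) hp'
    have g1 := g1 f1
    have g2 := g2 f2
    rw [abs_le] at l1 l2 l3
    obtain ⟨k1, k2, k3⟩ := lam_flip h.1 (Function.invFun (Q.phi δ s) p)
    have ev := phi_flip_ev (Q := Q) hδ h.1 (x := Function.invFun (Q.phi δ s) p)
      ⟨⟨by linarith, by linarith⟩, ⟨by linarith, by linarith⟩, ⟨by linarith, by linarith⟩⟩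
      ⟨⟨by linarith, by linarith⟩, ⟨by linarith, by linarith⟩, ⟨by linarith, by linarith⟩⟩
    filter_upwards [sm.continuous.continuousAt.eventually ev] with y hy
    show f (Function.invFun (Q.phi δ (flip s)) y) = f (Function.invFun (Q.phi δ s) y)
    rw [Function.rightInverse_invFun bij.2 y] at hy
    conv_lhs => rw [← hy]
    rw [Function.leftInverse_invFun (inv_spec hδ hω h.flip).1.1]

end QD

end Pool.Agent.H467Z.Lin
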