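import Mathlib

set_option autoImplicit false

open scoped ContDiff RealInnerProductSpace

namespace Pool.Agent.H467Z.Lin

/-- `ℤ²`-periodic maps on the plane, that is, maps on the torus `T² = ℝ² / ℤ²`. -/
def Per {α : Type} (F : ℝ × ℝ → α) : Prop := ∀ (x : ℝ × ℝ) (i j : ℤ), F (x + ((i : ℝ), (j : ℝ))) = F x

/-- A smooth Riemannian metric on `T²`, given by its matrix `g_ij` in the standard coordinates. -/
structure IsMetric (g : ℝ × ℝ → Matrix (Fin 2) (Fin 2) ℝ) : Prop where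
  smooth : ∀ i j, ContDiff ℝ ∞ fun x => g x i j
  per : Per g
  pos : ∀ x, (g x).PosDef

/-- The `A`-norm of the symmetric tensor `B - A`, the square root of
`A^{ik} A^{jl} (B - A)_{ij} (B - A)_{kl}`. -/
noncomputable def relNorm (A B : Matrix (Fin 2) (Fin 2) ℝ) : ℝ :=
  √(Matrix.trace (A⁻¹ * (B - A) * (A⁻¹ * (B - A))))

/-- The derivative of `f` at `x` along the `i`-th coordinate. -/
noncomputable def coordDeriv (f : ℝ × ℝ → EuclideanSpace ℝ (Fin 3)) (x : ℝ × ℝ) (i : Fin 2) :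
    EuclideanSpace ℝ (Fin 3) :=
  fderiv ℝ f x (![(1, 0), (0, 1)] i)

/-- A smooth map `f : T² → ℝ³` that pulls the Euclidean metric back to `g`. -/
structure IsIsometricImmersion (g : ℝ × ℝ → Matrix (Fin 2) (Fin 2) ℝ)
    (f : ℝ × ℝ → EuclideanSpace ℝ (Fin 3)) : Prop where
  smooth : ContDiff ℝ ∞ f
  per : Per f
  pullback : ∀ x i j, ⟪coordDeriv f x i, coordDeriv f x j⟫ = g x i j

end Pool.Agent.H467Z.Lin
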