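import Pool.Agent.H467Z.Lin.Dv

set_option autoImplicit false

open scoped ContDiff Topology RealInnerProductSpace
open Set Filter Complex

namespace Pool.Agent.H467Z.Lin

/-- the differential preserves inner products at `p` -/
def Iso (h : ℂ → E3) (p : ℂ) : Prop := ∀ v w : ℂ, ⟪dv v h p, dv w h p⟫ = ⟪v, w⟫

def IsoN (h : ℂ → E3) (p : ℂ) : Prop := ∀ᶠ q in 𝓝 p, Iso h q

/-- `u` is a ruling direction at the non-planar point `p` -/
def Rul (h : ℂ → E3) (u p : ℂ) : Prop :=
  dv u (dv u h) p = 0 ∧ dv (I * u) (dv u h) p = 0 ∧ dv (I * u) (dv (I * u) h) p ≠ 0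

lemma IsoN.ev {h : ℂ → E3} {p : ℂ} (H : IsoN h p) : ∀ᶠ q in 𝓝 p, IsoN h q :=
  H.eventually_nhds

lemma IsoN.iso {h : ℂ → E3} {p : ℂ} (H : IsoN h p) : Iso h p := H.self_of_nhds

lemma orth {h : ℂ → E3} (hs : ContDiff ℝ ∞ h) {p : ℂ} (H : IsoN h p) (v w z : ℂ) :
    ⟪dv v (dv w h) p, dv z h p⟫ = 0 := by
  have key : ∀ v w z : ℂ, ⟪dv v (dv w h) p, dv z h p⟫ + ⟪dv v (dv z h) p, dv w h p⟫ = 0 := by
    intro v w z
    have e : (fun q => ⟪dv w h q, dv z h q⟫) =ᶠ[𝓝 p] fun _ => ⟪w, z⟫ := by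
      filter_upwards [H] with q hq using hq w z
    have := dv_congr' e v
    rw [dv_inner (dv_cd hs w).contDiffAt (dv_cd hs z).contDiffAt, dv_const] at this
    rw [real_inner_comm (dv w h p)]
    exact this
  have sy : ∀ v w : ℂ, dv v (dv w h) p = dv w (dv v h) p := fun v w => dv_comm hs.contDiffAt v w
  have a1 := key v w z
  have a2 := key z v w
  have a3 := key w z v
  rw [sy z v, sy z w] at a2
  rw [sy w v] at a3
  linarith

lemma gauss {h : ℂ → E3} (hs : ContDiff ℝ ∞ h) {p : ℂ} (H : IsoN h p) (v w : ℂ) :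
    ⟪dv v (dv v h) p, dv w (dv w h) p⟫ = ⟪dv w (dv v h) p, dv w (dv v h) p⟫ := by
  have e1 : (fun q => ⟪dv v (dv v h) q, dv w h q⟫) =ᶠ[𝓝 p] fun _ => (0 : ℝ) := by
    filter_upwards [H.ev] with q hq using orth hs hq v v w
  have e2 : (fun q => ⟪dv w (dv v h) q, dv w h q⟫) =ᶠ[𝓝 p] fun _ => (0 : ℝ) := by
    filter_upwards [H.ev] with q hq using orth hs hq w v w
  have d1 := dv_congr' e1 w
  have d2 := dv_congr' e2 v
  rw [dv_inner (dv_cd (dv_cd hs _) _).contDiffAt (dv_cd hs _).contDiffAt, dv_const] at d1 d2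
  rw [dv_comm (dv_cd hs v).contDiffAt w v] at d1
  rw [dv_comm hs.contDiffAt v w] at d2
  linarith

lemma inner_u {u : ℂ} (hu : ‖u‖ = 1) :
    ⟪u, u⟫ = (1 : ℝ) ∧ ⟪I * u, I * u⟫ = (1 : ℝ) ∧ ⟪u, I * u⟫ = (0 : ℝ) := by
  refine ⟨?_, ?_, ?_⟩
  · rw [real_inner_self_eq_norm_sq, hu]; norm_num
  · rw [real_inner_self_eq_norm_sq, norm_mul, hu]; simp
  · simp [Complex.inner]; ring

/-- second derivatives in the frame `u, I u` -/
lemma rank_one {h : ℂ → E3} (hs : ContDiff ℝ ∞ h) {p u : ℂ} (hu : ‖u‖ = 1) (H : IsoN h p) :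
    ∃ n : E3, ⟪n, n⟫ = 1 ∧ ∃ A B C : ℝ, dv u (dv u h) p = A • n ∧ dv (I * u) (dv u h) p = B • n ∧
      dv (I * u) (dv (I * u) h) p = C • n ∧ A * C = B * B := by
  obtain ⟨i1, i2, i3⟩ := inner_u hu
  obtain ⟨n, hn, hX⟩ := par (a := dv u h p) (b := dv (I * u) h p) (by rw [H.iso, i1])
    (by rw [H.iso, i2]) (by rw [H.iso, i3])
  have ha := hX _ (orth hs H u u u) (orth hs H u u (I * u))
  have hb := hX _ (orth hs H (I * u) u u) (orth hs H (I * u) u (I * u))
  have hc := hX _ (orth hs H (I * u) (I * u) u) (orth hs H (I * u) (I * u) (I * u))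
  refine ⟨n, hn, _, _, _, ha, hb, hc, ?_⟩
  have g := gauss hs H u (I * u)
  rw [ha, hb, hc] at g
  simp only [inner_smul_left, inner_smul_right, hn, conj_trivial, mul_one] at g
  linarith

/-- slope of the ruling -/
noncomputable def slope (h : ℂ → E3) (u : ℂ) : ℂ → ℝ := fun q =>
  -(⟪dv (I * u) (dv u h) q, dv (I * u) (dv (I * u) h) q⟫ /
    ⟪dv (I * u) (dv (I * u) h) q, dv (I * u) (dv (I * u) h) q⟫)

lemma slope_cda {h : ℂ → E3} (hs : ContDiff ℝ ∞ h) {p u : ℂ}
    (hc : dv (I * u) (dv (I * u) h) p ≠ 0) : ContDiffAt ℝ ∞ (slope h u) p := by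
  have c1 := (dv_cd (dv_cd hs u) (I * u)).contDiffAt (x := p)
  have c2 := (dv_cd (dv_cd hs (I * u)) (I * u)).contDiffAt (x := p)
  exact ((c1.inner ℝ c2).div (c2.inner ℝ c2) (by simpa using hc)).neg

lemma slope_eq {h : ℂ → E3} (hs : ContDiff ℝ ∞ h) {p u : ℂ} (hu : ‖u‖ = 1) (H : IsoN h p)
    (hc : dv (I * u) (dv (I * u) h) p ≠ 0) :
    dv (I * u) (dv u h) p = (-slope h u p) • dv (I * u) (dv (I * u) h) p ∧
    dv u (dv u h) p = (slope h u p * slope h u p) • dv (I * u) (dv (I * u) h) p := by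
  obtain ⟨n, hn, A, B, C, ha, hb, hc', hg⟩ := rank_one hs hu H
  have hC : C ≠ 0 := by rintro rfl; apply hc; rw [hc', zero_smul]
  have hm : slope h u p = -(B / C) := by
    unfold slope
    rw [hb, hc']
    simp only [inner_smul_left, inner_smul_right, hn, conj_trivial]
    field_simp
  rw [hm, ha, hb, hc', smul_smul, smul_smul]
  constructor
  · congr 1; field_simp
  · congr 1; field_simp; linarith

def Good (h : ℂ → E3) (u p : ℂ) : Prop := IsoN h p ∧ dv (I * u) (dv (I * u) h) p ≠ 0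

lemma Good.ev {h : ℂ → E3} (hs : ContDiff ℝ ∞ h) {p u : ℂ} (H : Good h u p) :
    ∀ᶠ q in 𝓝 p, Good h u q :=
  H.1.ev.and ((dv_cd (dv_cd hs _) _).continuous.continuousAt.eventually_ne H.2)

lemma burgers {h : ℂ → E3} (hs : ContDiff ℝ ∞ h) {p u : ℂ} (hu : ‖u‖ = 1) (H : Good h u p) :
    dv u (dv (I * u) (dv (I * u) h)) p =
      -(dv (I * u) (slope h u) p • dv (I * u) (dv (I * u) h) p)
        - slope h u p • dv (I * u) (dv (I * u) (dv (I * u) h)) p ∧
    dv u (slope h u) p = -(slope h u p * dv (I * u) (slope h u) p) := by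
  set w := I * u with hw
  set m := slope h u with hm
  set c := dv w (dv w h) with hc
  have hmc : ContDiffAt ℝ ∞ m p := slope_cda hs H.2
  have hcc : ContDiffAt ℝ ∞ c p := (dv_cd (dv_cd hs w) w).contDiffAt
  have eb : dv w (dv u h) =ᶠ[𝓝 p] fun q => (-m q) • c q := by
    filter_upwards [H.ev hs] with q hq using (slope_eq hs hu hq.1 hq.2).1
  have ea : dv u (dv u h) =ᶠ[𝓝 p] fun q => (m q * m q) • c q := by
    filter_upwards [H.ev hs] with q hq using (slope_eq hs hu hq.1 hq.2).2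
  have sw : dv w (dv u h) = dv u (dv w h) := funext fun q => dv_comm hs.contDiffAt w u
  have k1 : dv w (dv w (dv u h)) p = dv u c p := by
    rw [sw]; exact dv_comm (dv_cd hs w).contDiffAt w u
  have k2 : dv w (dv u (dv u h)) p = dv u (dv w (dv u h)) p := dv_comm (dv_cd hs u).contDiffAt w u
  rw [dv_congr' eb w, dv_smul hmc.neg hcc, dv_neg] at k1
  rw [dv_congr' eb u, dv_congr' ea w, dv_smul hmc.neg hcc, dv_neg, dv_smul (hmc.mul hmc) hcc,
    dv_mul hmc hmc, ← k1] at k2
  refine ⟨by rw [← k1]; simp [sub_eq_add_neg], ?_⟩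
  have k3 : (dv u m p + m p * dv w m p) • c p = 0 := by
    linear_combination (norm := module) k2
  rcases smul_eq_zero.1 k3 with k | k
  · linarith
  · exact absurd k H.2

lemma riccati {h : ℂ → E3} (hs : ContDiff ℝ ∞ h) {p u : ℂ} (hu : ‖u‖ = 1) (H : Good h u p)
    (h0 : slope h u p = 0) :
    dv u (dv (I * u) (slope h u)) p = -(dv (I * u) (slope h u) p * dv (I * u) (slope h u) p) := by
  have hmc : ContDiffAt ℝ ∞ (slope h u) p := slope_cda hs H.2
  have e : dv u (slope h u) =ᶠ[𝓝 p] fun q => -(slope h u q * dv (I * u) (slope h u) q) := by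
    filter_upwards [H.ev hs] with q hq using (burgers hs hu hq).2
  rw [dv_comm hmc, dv_congr' e, dv_neg, dv_mul hmc (dv_cda hmc _), h0]
  simp

lemma ray_aux {h : ℂ → E3} (hs : ContDiff ℝ ∞ h) {y u : ℂ} (hu : ‖u‖ = 1) {T : ℝ}
    (H : ∀ t ∈ Icc 0 T, Good h u (y + t • u)) (h0 : slope h u y = 0) :
    ∀ t ∈ Icc 0 T, slope h u (y + t • u) = 0 ∧
      (1 + dv (I * u) (slope h u) y * t) • dv (I * u) (dv (I * u) h) (y + t • u)
        = dv (I * u) (dv (I * u) h) y := by
  set w := I * u with hw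
  set m := slope h u with hm
  set c := dv w (dv w h) with hc
  have hmc : ∀ t ∈ Icc 0 T, ContDiffAt ℝ ∞ m (y + t • u) := fun t ht => slope_cda hs (H t ht).2
  have hμ : ∀ t ∈ Icc 0 T, HasDerivAt (fun τ : ℝ => dv w m (y + τ • u))
      (dv u (dv w m) (y + t • u)) t := fun t ht => dv_line (dv_cda (hmc t ht) w)
  have hμc : ContinuousOn (fun τ : ℝ => -dv w m (y + τ • u)) (Icc 0 T) := fun t ht =>
    (hμ t ht).continuousAt.continuousWithinAt.neg
  have z1 : ∀ t ∈ Icc 0 T, m (y + t • u) = 0 := by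
    refine ode_zero (y := fun τ : ℝ => m (y + τ • u)) hμc (fun t ht => ?_) (by simpa using h0)
    have := dv_line (hmc t ht)
    rw [(burgers hs hu (H t ht)).2] at this
    refine this.congr_deriv ?_
    simp only [← hw, ← hm]; ring
  have z2 : ∀ t ∈ Icc 0 T, dv w m (y + t • u) * (1 + dv w m y * t) - dv w m y = 0 := by
    refine ode_zero (y := fun τ : ℝ => dv w m (y + τ • u) * (1 + dv w m y * τ) - dv w m y) hμc
      (fun t ht => ?_) (by simp)
    have a1 := hμ t ht
    rw [riccati hs hu (H t ht) (z1 t ht)] at a1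
    have a2 : HasDerivAt (fun τ : ℝ => 1 + dv w m y * τ) (dv w m y) t := by
      simpa using ((hasDerivAt_id t).const_mul (dv w m y)).const_add 1
    have := (a1.mul a2).sub_const (dv w m y)
    refine this.congr_deriv ?_
    simp only [← hw, ← hm]; ring
  have z3 := const_of_deriv (a := 0) (T := T)
    (y := fun τ : ℝ => (1 + dv w m y * τ) • c (y + τ • u)) (fun t ht => by
      have a1 : HasDerivAt (fun τ : ℝ => c (y + τ • u)) (dv u c (y + t • u)) t :=
        dv_line (dv_cd (dv_cd hs w) w).contDiffAt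
      rw [(burgers hs hu (H t ht)).1, ← hm, z1 t ht, ← hw, ← hc] at a1
      have a2 : HasDerivAt (fun τ : ℝ => 1 + dv w m y * τ) (dv w m y) t := by
        simpa using ((hasDerivAt_id t).const_mul (dv w m y)).const_add 1
      have := a2.smul a1
      refine this.congr_deriv ?_
      have e := z2 t ht
      linear_combination (norm := module) (-e) • c (y + t • u))
  intro t ht
  refine ⟨z1 t ht, ?_⟩
  simpa using z3 t ht

lemma fderiv_ext {h k : ℂ → E3} {p q u : ℂ} (hu : ‖u‖ = 1) (h1 : dv u h p = dv u k q)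
    (h2 : dv (I * u) h p = dv (I * u) k q) : fderiv ℝ h p = fderiv ℝ k q := by
  ext1 v
  have hn : u.re * u.re + u.im * u.im = 1 := by
    have := Complex.normSq_eq_norm_sq u
    rw [hu, Complex.normSq_apply] at this; linarith
  have hv : v = (v.re * u.re + v.im * u.im) • u + (v.im * u.re - v.re * u.im) • (I * u) := by
    apply Complex.ext <;> simp
    · linear_combination (-v.re) * hn
    · linear_combination (-v.im) * hn
  unfold dv at h1 h2
  rw [hv, map_add, map_add, map_smul, map_smul, map_smul, map_smul, h1, h2]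

/-- rulings extend along the whole segment -/
lemma ray {h : ℂ → E3} (hs : ContDiff ℝ ∞ h) {y u : ℂ} (hu : ‖u‖ = 1) {T : ℝ} (hT : 0 ≤ T)
    (H : ∀ t ∈ Icc 0 T, IsoN h (y + t • u)) (h0 : Rul h u y) :
    Rul h u (y + T • u) ∧ fderiv ℝ h (y + T • u) = fderiv ℝ h y ∧
      h (y + T • u) = h y + T • fderiv ℝ h y u := by
  set w := I * u with hw
  set c := dv w (dv w h) with hc
  have m0 : slope h u y = 0 := by
    have := h0.2.1
    simp only [slope, this, inner_zero_left, zero_div, neg_zero]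
  have cc : Continuous fun τ : ℝ => c (y + τ • u) :=
    (dv_cd (dv_cd hs w) w).continuous.comp (by fun_prop)
  have hne : ∀ t ∈ Icc 0 T, c (y + t • u) ≠ 0 := by
    by_contra hcon
    push Not at hcon
    have hK : IsCompact (Icc 0 T ∩ {t : ℝ | c (y + t • u) = 0}) :=
      isCompact_Icc.inter_right (isClosed_eq cc continuous_const)
    obtain ⟨t0, ⟨ht0, hz⟩, hmin⟩ := hK.exists_isLeast (by
      obtain ⟨t, ht, hz⟩ := hcon; exact ⟨t, ht, hz⟩)
    have hpos : 0 < t0 := by
      rcases ht0.1.eq_or_lt with e | e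
      · exfalso; apply h0.2.2; have : c (y + t0 • u) = 0 := hz; rw [← e] at this; simpa using this
      · exact e
    have hcl : IsClosed {t : ℝ | (1 + dv w (slope h u) y * t) • c (y + t • u) = c y} :=
      isClosed_eq (Continuous.smul (f := fun t : ℝ => 1 + dv w (slope h u) y * t) (by fun_prop) cc)
        continuous_const
    have hsub : Ico 0 t0 ⊆ {t : ℝ | (1 + dv w (slope h u) y * t) • c (y + t • u) = c y} := by
      intro t ht
      refine (ray_aux hs hu (T := t) (fun τ hτ => ⟨H τ ⟨hτ.1, ?_⟩, fun hz' => ?_⟩) m0 t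
        ⟨ht.1, le_rfl⟩).2
      · linarith [hτ.2, ht.2, ht0.2]
      · have := hmin ⟨⟨hτ.1, by linarith [hτ.2, ht.2, ht0.2]⟩, hz'⟩
        linarith [hτ.2, ht.2]
    have := hcl.closure_subset_iff.2 hsub (by rw [closure_Ico hpos.ne]; exact ⟨hpos.le, le_rfl⟩)
    have hz' : c (y + t0 • u) = 0 := hz
    simp only [mem_ofPred_eq, hz', smul_zero] at this
    exact h0.2.2 this.symm
  have z := ray_aux hs hu (T := T) (fun t ht => ⟨H t ht, hne t ht⟩) m0
  have za : ∀ t ∈ Icc 0 T, dv u (dv u h) (y + t • u) = 0 := fun t ht => by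
    rw [(slope_eq hs hu (H t ht) (hne t ht)).2, (z t ht).1]; simp
  have zb : ∀ t ∈ Icc 0 T, dv w (dv u h) (y + t • u) = 0 := fun t ht => by
    rw [(slope_eq hs hu (H t ht) (hne t ht)).1, (z t ht).1]; simp
  have hT' : T ∈ Icc 0 T := ⟨hT, le_rfl⟩
  have c1 := const_of_deriv (a := 0) (T := T) (y := fun τ : ℝ => dv u h (y + τ • u))
    (fun t ht => by rw [← za t ht]; exact dv_line (dv_cd hs u).contDiffAt)
  have c2 := const_of_deriv (a := 0) (T := T) (y := fun τ : ℝ => dv w h (y + τ • u))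
    (fun t ht => by
      rw [← zb t ht, dv_comm hs.contDiffAt w u]; exact dv_line (dv_cd hs w).contDiffAt)
  have c3 := const_of_deriv (a := 0) (T := T) (y := fun τ : ℝ => h (y + τ • u) - τ • dv u h y)
    (fun t ht => by
      have a1 := dv_line (y := y) (u := u) (t := t) hs.contDiffAt
      have a2 : HasDerivAt (fun τ : ℝ => τ • dv u h y) (dv u h y) t := by
        simpa using (hasDerivAt_id t).smul_const (dv u h y)
      have := a1.sub a2
      have e := c1 t ht
      simp only [zero_smul, add_zero] at e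
      rw [e, sub_self] at this
      exact this)
  refine ⟨⟨za T hT', zb T hT', hne T hT'⟩, fderiv_ext hu (by simpa using c1 T hT')
    (by simpa using c2 T hT'), ?_⟩
  have := c3 T hT'
  simp only [zero_smul, add_zero, sub_zero] at this
  rw [← this]; simp [dv]

lemma Rul.neg {h : ℂ → E3} {u p : ℂ} (H : Rul h u p) : Rul h (-u) p := by
  obtain ⟨a, b, c⟩ := H
  simp only [Rul, mul_neg, dv_negdir, dv_neg, neg_neg]
  exact ⟨a, b, c⟩

lemma Rul.congr {h k : ℂ → E3} {u p : ℂ} (e : k =ᶠ[𝓝 p] h) (H : Rul h u p) : Rul k u p := by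
  unfold Rul
  rw [dv_congr' (dv_congr e _), dv_congr' (dv_congr e _), dv_congr' (dv_congr e _)]
  exact H

/-- at a non-planar point there is a ruling direction -/
lemma exists_rul {h : ℂ → E3} (hs : ContDiff ℝ ∞ h) {p : ℂ} (H : IsoN h p)
    (hne : fderiv ℝ (fderiv ℝ h) p ≠ 0) : ∃ u : ℂ, ‖u‖ = 1 ∧ Rul h u p := by
  set Q := fderiv ℝ (fderiv ℝ h) p with hQ
  have dd : ∀ v w, dv v (dv w h) p = Q v w := fun v w => dv_dv hs.contDiffAt v w
  have sy : ∀ v w, Q v w = Q w v := fun v w => by rw [← dd, ← dd, dv_comm hs.contDiffAt]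
  obtain ⟨n, hn, A, B, C, ha, hb, hc, hg⟩ := rank_one hs (u := 1) (by simp) H
  simp only [mul_one, dd] at ha hb hc
  have hQv : ∀ v w : ℂ, Q v w =
      (v.re * w.re * A + (v.re * w.im + v.im * w.re) * B + v.im * w.im * C) • n := by
    intro v w
    have hv : v = v.re • (1 : ℂ) + v.im • I := by simp [Complex.re_add_im]
    have hw : w = w.re • (1 : ℂ) + w.im • I := by simp [Complex.re_add_im]
    conv_lhs => rw [hv, hw]
    simp only [map_add, map_smul, add_apply, smul_apply]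
    rw [ha, hb, hc, sy 1 I, hb]
    module
  have ex : ∃ v : ℂ, v ≠ 0 ∧ ∀ w, Q w v = 0 := by
    by_cases hC : C = 0
    · have hB : B = 0 := by rw [hC] at hg; simpa using hg.symm
      exact ⟨I, I_ne_zero, fun w => by rw [hQv]; simp [hB, hC]⟩
    · refine ⟨⟨C, -B⟩, fun e => hC (by simpa using congrArg Complex.re e), fun w => ?_⟩
      rw [hQv]
      have : w.re * C * A + (w.re * -B + w.im * C) * B + w.im * -B * C = 0 := by
        linear_combination w.re * hg
      simp only [this, zero_smul]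
  obtain ⟨v, hv, hk⟩ := ex
  have hvn : ‖v‖ ≠ 0 := by simpa using hv
  set u : ℂ := (‖v‖⁻¹ : ℝ) • v with hu
  have hu1 : ‖u‖ = 1 := by rw [hu, norm_smul]; simp [hvn]
  have hk' : ∀ w, Q w u = 0 := fun w => by rw [hu, map_smul, hk, smul_zero]
  refine ⟨u, hu1, by rw [dd, hk'], by rw [dd, hk'], fun e => hne ?_⟩
  rw [dd] at e
  have hn : u.re * u.re + u.im * u.im = 1 := by
    have := Complex.normSq_eq_norm_sq u
    rw [hu1, Complex.normSq_apply] at this; linarith
  have hv : ∀ v : ℂ, v = (v.re * u.re + v.im * u.im) • u + (v.im * u.re - v.re * u.im) • (I * u) := by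
    intro v
    apply Complex.ext <;> simp
    · linear_combination (-v.re) * hn
    · linear_combination (-v.im) * hn
  ext1 a; ext1 b
  rw [hv a, hv b]
  simp only [map_add, map_smul, add_apply, smul_apply]
  rw [e, hk', hk', sy u (I * u), hk']
  simp

end Pool.Agent.H467Z.Lin
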