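import Mathlib

set_option autoImplicit false

open scoped ContDiff Topology RealInnerProductSpace
open Set Filter

namespace Pool.Agent.H467Z.Lin

abbrev E3 := EuclideanSpace ℝ (Fin 3)

section dv
variable {G : Type} [NormedAddCommGroup G] [NormedSpace ℝ G]

/-- directional derivative -/
noncomputable def dv (v : ℂ) (F : ℂ → G) : ℂ → G := fun p => fderiv ℝ F p v

lemma cda_diff {F : ℂ → G} {p : ℂ} (h : ContDiffAt ℝ ∞ F p) : DifferentiableAt ℝ F p :=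
  h.differentiableAt (by simp)

lemma dv_cda {F : ℂ → G} {p : ℂ} (h : ContDiffAt ℝ ∞ F p) (v : ℂ) : ContDiffAt ℝ ∞ (dv v F) p := by
  have h1 : ContDiffAt ℝ ∞ (fderiv ℝ F) p := h.fderiv_right (m := ∞) (by simp)
  exact h1.clm_apply contDiffAt_const

lemma dv_cd {F : ℂ → G} (h : ContDiff ℝ ∞ F) (v : ℂ) : ContDiff ℝ ∞ (dv v F) :=
  contDiff_iff_contDiffAt.2 fun _ => dv_cda h.contDiffAt v

lemma dv_dv {F : ℂ → G} {p : ℂ} (h : ContDiffAt ℝ ∞ F p) (v w : ℂ) :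
    dv v (dv w F) p = fderiv ℝ (fderiv ℝ F) p v w := by
  have h1 : ContDiffAt ℝ ∞ (fderiv ℝ F) p := h.fderiv_right (m := ∞) (by simp)
  have h2 : DifferentiableAt ℝ (fderiv ℝ F) p := h1.differentiableAt (by simp)
  have : HasFDerivAt (fun q => fderiv ℝ F q w)
      ((ContinuousLinearMap.apply ℝ G w).comp (fderiv ℝ (fderiv ℝ F) p)) p :=
    (ContinuousLinearMap.apply ℝ G w).hasFDerivAt.comp p h2.hasFDerivAt
  unfold dv
  rw [this.fderiv]; rfl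

lemma dv_comm {F : ℂ → G} {p : ℂ} (h : ContDiffAt ℝ ∞ F p) (v w : ℂ) :
    dv v (dv w F) p = dv w (dv v F) p := by
  rw [dv_dv h, dv_dv h]
  exact (h.isSymmSndFDerivAt (by simp [minSmoothness_of_isRCLikeNormedField]; exact ENat.LEInfty.out)).eq v w

lemma dv_congr {F H : ℂ → G} {p : ℂ} (h : F =ᶠ[𝓝 p] H) (v : ℂ) : dv v F =ᶠ[𝓝 p] dv v H := by
  have := h.fderiv (𝕜 := ℝ)
  filter_upwards [this] with q hq
  simp [dv, hq]

lemma dv_congr' {F H : ℂ → G} {p : ℂ} (h : F =ᶠ[𝓝 p] H) (v : ℂ) : dv v F p = dv v H p :=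
  (dv_congr h v).eq_of_nhds

lemma dv_const (c : G) (v p : ℂ) : dv v (fun _ => c) p = 0 := by simp [dv]

lemma dv_neg (F : ℂ → G) (v p : ℂ) : dv v (fun q => - F q) p = - dv v F p := by
  simp [dv, fderiv_fun_neg]

lemma dv_smul {f : ℂ → ℝ} {F : ℂ → G} {p : ℂ} (hf : ContDiffAt ℝ ∞ f p) (hF : ContDiffAt ℝ ∞ F p)
    (v : ℂ) : dv v (fun q => f q • F q) p = dv v f p • F p + f p • dv v F p := by
  unfold dv
  rw [fderiv_fun_smul (cda_diff hf) (cda_diff hF)]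
  simp [add_comm]

lemma dv_mul {f g : ℂ → ℝ} {p : ℂ} (hf : ContDiffAt ℝ ∞ f p) (hg : ContDiffAt ℝ ∞ g p)
    (v : ℂ) : dv v (fun q => f q * g q) p = dv v f p * g p + f p * dv v g p :=
  dv_smul hf hg v

lemma dv_inner {F H : ℂ → E3} {p : ℂ} (hF : ContDiffAt ℝ ∞ F p) (hH : ContDiffAt ℝ ∞ H p)
    (v : ℂ) : dv v (fun q => ⟪F q, H q⟫) p = ⟪dv v F p, H p⟫ + ⟪F p, dv v H p⟫ := by
  unfold dv
  rw [fderiv_inner_apply ℝ (cda_diff hF) (cda_diff hH), add_comm]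

lemma dv_line {F : ℂ → G} {y u : ℂ} {t : ℝ} (h : ContDiffAt ℝ ∞ F (y + t • u)) :
    HasDerivAt (fun τ : ℝ => F (y + τ • u)) (dv u F (y + t • u)) t := by
  have h1 : HasDerivAt (fun τ : ℝ => y + τ • u) u t := by
    simpa using ((hasDerivAt_id t).smul_const u).const_add y
  exact (cda_diff h).hasFDerivAt.comp_hasDerivAt t h1

lemma dv_negdir (F : ℂ → G) (v : ℂ) : dv (-v) F = fun q => - dv v F q := by
  funext q; simp [dv]

end dv

lemma ode_zero {y k : ℝ → ℝ} {T : ℝ} (hk : ContinuousOn k (Icc 0 T))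
    (hy : ∀ t ∈ Icc 0 T, HasDerivAt y (k t * y t) t) (h0 : y 0 = 0) : ∀ t ∈ Icc 0 T, y t = 0 := by
  obtain ⟨K, hK⟩ := isCompact_Icc.exists_bound_of_continuousOn hk
  refine eq_zero_of_abs_deriv_le_mul_abs_self_of_eq_zero_right (K := K) (f' := fun t => k t * y t)
    (fun t ht => (hy t ht).continuousAt.continuousWithinAt)
    (fun t ht => (hy t (Ico_subset_Icc_self ht)).hasDerivWithinAt) h0 fun t ht => ?_
  rw [norm_mul]
  exact mul_le_mul_of_nonneg_right (hK t (Ico_subset_Icc_self ht)) (norm_nonneg _)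

lemma const_of_deriv {G : Type} [NormedAddCommGroup G] [NormedSpace ℝ G] {y : ℝ → G} {a T : ℝ}
    (hy : ∀ t ∈ Icc a T, HasDerivAt y 0 t) : ∀ t ∈ Icc a T, y t = y a :=
  constant_of_has_deriv_right_zero (fun t ht => (hy t ht).continuousAt.continuousWithinAt)
    (fun t ht => (hy t (Ico_subset_Icc_self ht)).hasDerivWithinAt)

lemma par {a b : E3} (ha : ⟪a, a⟫ = 1) (hb : ⟪b, b⟫ = 1) (hab : ⟪a, b⟫ = 0) :
    ∃ n : E3, ⟪n, n⟫ = 1 ∧ ∀ X : E3, ⟪X, a⟫ = 0 → ⟪X, b⟫ = 0 → X = ⟪X, n⟫ • n := by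
  simp only [PiLp.inner_apply, Fin.sum_univ_three, RCLike.inner_apply, conj_trivial] at ha hb hab ⊢
  refine ⟨!₂[a 1 * b 2 - a 2 * b 1, a 2 * b 0 - a 0 * b 2, a 0 * b 1 - a 1 * b 0], ?_, ?_⟩
  · simp
    linear_combination (b 0 * b 0 + b 1 * b 1 + b 2 * b 2) * ha + hb
      - (b 0 * a 0 + b 1 * a 1 + b 2 * a 2) * hab
  · intro X h1 h2
    ext i
    fin_cases i <;> simp
    · linear_combination (-(X 0) * (b 0 * b 0 + b 1 * b 1 + b 2 * b 2)) * ha - X 0 * hb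
        + X 0 * (b 0 * a 0 + b 1 * a 1 + b 2 * a 2) * hab
        - ((a 2 * b 0 - a 0 * b 2) * b 2 - (a 0 * b 1 - a 1 * b 0) * b 1) * h1
        + ((a 2 * b 0 - a 0 * b 2) * a 2 - (a 0 * b 1 - a 1 * b 0) * a 1) * h2
    · linear_combination (-(X 1) * (b 0 * b 0 + b 1 * b 1 + b 2 * b 2)) * ha - X 1 * hb
        + X 1 * (b 0 * a 0 + b 1 * a 1 + b 2 * a 2) * hab
        - ((a 0 * b 1 - a 1 * b 0) * b 0 - (a 1 * b 2 - a 2 * b 1) * b 2) * h1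
        + ((a 0 * b 1 - a 1 * b 0) * a 0 - (a 1 * b 2 - a 2 * b 1) * a 2) * h2
    · linear_combination (-(X 2) * (b 0 * b 0 + b 1 * b 1 + b 2 * b 2)) * ha - X 2 * hb
        + X 2 * (b 0 * a 0 + b 1 * a 1 + b 2 * a 2) * hab
        - ((a 1 * b 2 - a 2 * b 1) * b 1 - (a 2 * b 0 - a 0 * b 2) * b 0) * h1
        + ((a 1 * b 2 - a 2 * b 1) * a 1 - (a 2 * b 0 - a 0 * b 2) * a 0) * h2

end Pool.Agent.H467Z.Lin
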