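import Pool.Agent.H467Z.Lin.Phi

set_option autoImplicit false

open scoped ContDiff Topology RealInnerProductSpace
open Set Filter Complex

namespace Pool.Agent.H467Z.Lin

def Zone (δ r : ℝ) (a b c : Z2) : Set R2 :=
  {x | (-(2 * δ) < lam a b x ∧ lam a b x < 1 - r) ∧ (-(2 * δ) < lam b c x ∧ lam b c x < 1 - r) ∧
    (-(2 * δ) < lam c a x ∧ lam c a x < 1 - r)}

lemma zone_open (δ r : ℝ) (a b c : Z2) : IsOpen (Zone δ r a b c) := by
  have h := fun a b => (isOpen_lt (continuous_const (y := -(2 * δ))) (lam_cd a b).continuous).inter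
    (isOpen_lt (lam_cd a b).continuous (continuous_const (y := 1 - r)))
  exact (h a b).inter ((h b c).inter (h c a))

lemma zone_rot {δ r : ℝ} {a b c : Z2} {x : R2} (h : x ∈ Zone δ r a b c) : x ∈ Zone δ r b c a :=
  ⟨h.2.1, h.2.2, h.1⟩

lemma zone_mono {δ r r' : ℝ} (hr : r' ≤ r) {a b c : Z2} {x : R2} (h : x ∈ Zone δ r a b c) :
    x ∈ Zone δ r' a b c :=
  ⟨⟨h.1.1, by linarith [h.1.2]⟩, ⟨h.2.1.1, by linarith [h.2.1.2]⟩, ⟨h.2.2.1, by linarith [h.2.2.2]⟩⟩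

lemma near_vertex {a b c : Z2} (h : IsTri a b c) (x : R2) :
    ‖x - pt a‖ ≤ |lam c a x| + |lam a b x| := by
  have e : lam c a x = dlam c a (x - pt a) := by
    simp only [lam_apply, dlam_apply, pt, Prod.fst_sub, Prod.snd_sub]; ring
  rw [e]; exact norm_le_dlam h _

noncomputable def bmp (δ t : ℝ) : ℝ :=
  Real.smoothTransition (2 - (Real.sin (t * Real.pi) / (44 * δ)) ^ 2)

noncomputable def kap (δ : ℝ) (x : R2) : ℝ := 1 - bmp δ x.1 * bmp δ x.2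

lemma bmp_cd (δ : ℝ) : ContDiff ℝ ∞ (bmp δ) := by
  unfold bmp
  exact Real.smoothTransition.contDiff.comp (by fun_prop)

lemma kap_cd (δ : ℝ) : ContDiff ℝ ∞ (kap δ) :=
  contDiff_const.sub (((bmp_cd δ).comp contDiff_fst).mul ((bmp_cd δ).comp contDiff_snd))

lemma kap_mem (δ : ℝ) (x : R2) : 0 ≤ kap δ x ∧ kap δ x ≤ 1 := by
  have h := fun t => And.intro (show 0 ≤ bmp δ t from Real.smoothTransition.nonneg _)
    (show bmp δ t ≤ 1 from Real.smoothTransition.le_one _)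
  unfold kap
  constructor <;> nlinarith [h x.1, h x.2, mul_nonneg (h x.1).1 (h x.2).1]

lemma abs_sin_shift (t : ℝ) (n : ℤ) :
    |Real.sin ((t + n) * Real.pi)| = |Real.sin (t * Real.pi)| := by
  rw [add_mul, Real.sin_add_int_mul_pi, abs_mul]
  simp [abs_zpow]

lemma bmp_shift (δ t : ℝ) (n : ℤ) : bmp δ (t + n) = bmp δ t := by
  unfold bmp
  rw [div_pow, div_pow, ← sq_abs (Real.sin _), abs_sin_shift, sq_abs]

lemma kap_shift (δ : ℝ) (x : R2) (n : Z2) : kap δ (x + pt n) = kap δ x := by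
  simp [kap, pt, bmp_shift]

lemma bmp_one {δ t : ℝ} (hδ : 0 < δ) {n : ℤ} (h : |t - n| ≤ 11 * δ) : bmp δ t = 1 := by
  have e := abs_sin_shift (t - n) n
  rw [sub_add_cancel] at e
  have h1 : |Real.sin (t * Real.pi)| ≤ 44 * δ := by
    rw [e]
    refine Real.abs_sin_le_abs.trans ?_
    rw [abs_mul, abs_of_pos Real.pi_pos]
    nlinarith [Real.pi_le_four, Real.pi_pos, abs_nonneg (t - n)]
  apply Real.smoothTransition.one_of_one_le
  have : (Real.sin (t * Real.pi) / (44 * δ)) ^ 2 ≤ 1 := by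
    rw [div_pow, div_le_one (by positivity), ← sq_abs]
    exact pow_le_pow_left₀ (abs_nonneg _) h1 2
  linarith

lemma bmp_ne {δ t : ℝ} (hδ : 0 < δ) (h : bmp δ t ≠ 0) : ∃ n : ℤ, |t - n| ≤ 44 * δ := by
  refine ⟨round t, ?_⟩
  by_contra hc
  push Not at hc
  apply h
  apply Real.smoothTransition.zero_of_nonpos
  have e := abs_sin_shift (t - round t) (round t)
  rw [sub_add_cancel] at e
  have h0 := abs_sub_round t
  have hp := Real.pi_pos
  have h1 := Real.mul_abs_le_abs_sin (x := (t - round t) * Real.pi) (by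
    rw [abs_mul, abs_of_pos hp]; nlinarith)
  rw [abs_mul, abs_of_pos hp, ← e] at h1
  have h2 : 88 * δ ≤ |Real.sin (t * Real.pi)| := by
    have : 2 / Real.pi * (|t - round t| * Real.pi) = 2 * |t - round t| := by field_simp
    linarith
  have : 4 ≤ (Real.sin (t * Real.pi) / (44 * δ)) ^ 2 := by
    rw [div_pow, le_div_iff₀ (by positivity), ← sq_abs (Real.sin _)]
    nlinarith
  linarith

lemma exists_tri (x : R2) :
    ∃ a b c, IsTri a b c ∧ 0 ≤ lam a b x ∧ 0 ≤ lam b c x ∧ 0 ≤ lam c a x := by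
  have a1 := Int.floor_le x.1
  have a2 := Int.lt_floor_add_one x.1
  have b1 := Int.floor_le x.2
  have b2 := Int.lt_floor_add_one x.2
  rcases le_total (x.1 - ⌊x.1⌋ + (x.2 - ⌊x.2⌋)) 1 with h | h
  · refine ⟨(⌊x.1⌋, ⌊x.2⌋), (⌊x.1⌋ + 1, ⌊x.2⌋), (⌊x.1⌋, ⌊x.2⌋ + 1), by simp [IsTri, IsDir], ?_, ?_, ?_⟩ <;>
      simp only [lam_apply] <;> push_cast <;> linarith
  · refine ⟨(⌊x.1⌋ + 1, ⌊x.2⌋ + 1), (⌊x.1⌋, ⌊x.2⌋ + 1), (⌊x.1⌋ + 1, ⌊x.2⌋), by simp [IsTri, IsDir],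
      ?_, ?_, ?_⟩ <;> simp only [lam_apply] <;> push_cast <;> linarith

lemma cover {δ : ℝ} (hδ : 0 < δ) (x : R2) :
    (∃ a b c, IsTri a b c ∧ x ∈ Zone δ (10 * δ) a b c) ∨ kap δ =ᶠ[𝓝 x] fun _ => 0 := by
  obtain ⟨a, b, c, h, h1, h2, h3⟩ := exists_tri x
  have key : ∀ a b c, IsTri a b c → 0 ≤ lam a b x → 0 ≤ lam c a x → 1 - 10 * δ ≤ lam b c x →
      kap δ =ᶠ[𝓝 x] fun _ => 0 := by
    intro a b c h h1 h3 h2
    have n1 := near_vertex h x
    rw [abs_of_nonneg h1, abs_of_nonneg h3] at n1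
    have n2 : x ∈ Metric.ball (pt a) (11 * δ) := by
      rw [mem_ball_iff_norm]; linarith [lam_sum h x]
    filter_upwards [Metric.isOpen_ball.mem_nhds n2] with y hy
    rw [mem_ball_iff_norm] at hy
    have e1 : bmp δ y.1 = 1 := bmp_one hδ (n := a.1) ((norm_fst_le (y - pt a)).trans hy.le)
    have e2 : bmp δ y.2 = 1 := bmp_one hδ (n := a.2) ((norm_snd_le (y - pt a)).trans hy.le)
    simp [kap, e1, e2]
  rcases lt_or_ge (lam a b x) (1 - 10 * δ) with k1 | k1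
  rcases lt_or_ge (lam b c x) (1 - 10 * δ) with k2 | k2
  rcases lt_or_ge (lam c a x) (1 - 10 * δ) with k3 | k3
  · exact Or.inl ⟨a, b, c, h, ⟨by linarith, k1⟩, ⟨by linarith, k2⟩, ⟨by linarith, k3⟩⟩
  · exact Or.inr (key b c a h.rot h2 h1 k3)
  · exact Or.inr (key a b c h h1 h3 k2)
  · exact Or.inr (key c a b h.rot.rot h3 h2 k1)

lemma kap_inner {δ : ℝ} (hδ : 0 < δ) (hδ1 : δ ≤ 1 / 100) {a b c : Z2} (h : IsTri a b c) {x : R2}
    (hx : x ∈ Zone δ (88 * δ) a b c) : kap δ x = 1 := by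
  by_contra hc
  have hne : bmp δ x.1 * bmp δ x.2 ≠ 0 := fun e => hc (by simp [kap, e])
  obtain ⟨n1, h1⟩ := bmp_ne hδ (left_ne_zero_of_mul hne)
  obtain ⟨n2, h2⟩ := bmp_ne hδ (right_ne_zero_of_mul hne)
  have hn : ‖x - pt (n1, n2)‖ ≤ 44 * δ := by
    rw [Prod.norm_def]; exact max_le h1 h2
  have key : ∀ a b c, IsTri a b c → -(2 * δ) < lam a b x → lam a b x < 1 - 88 * δ →
      lam a b (pt (n1, n2)) = 0 := by
    intro a b c h k1 k2
    have d := abs_le.1 (dlam_le h (x - pt (n1, n2)))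
    rw [← lam_sub] at d
    obtain ⟨k, hk⟩ : ∃ k : ℤ, lam a b (pt (n1, n2)) = k :=
      ⟨(b.1 - a.1) * (n2 - a.2) - (b.2 - a.2) * (n1 - a.1), by simp [lam_apply, pt]⟩
    rw [hk] at d ⊢
    have u1 : (-1 : ℝ) < k := by linarith
    have u2 : (k : ℝ) < 1 := by linarith
    have : k = 0 := by
      have v1 : -1 < k := by exact_mod_cast u1
      have v2 : k < 1 := by exact_mod_cast u2
      omega
    simp [this]
  have := lam_sum h (pt (n1, n2))
  rw [key a b c h hx.1.1 hx.1.2, key b c a h.rot hx.2.1.1 hx.2.1.2,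
    key c a b h.rot.rot hx.2.2.1 hx.2.2.2] at this
  norm_num at this

namespace QD
variable (Q : QD) (δ : ℝ)

/-- flat metric of one chart -/
noncomputable def gs (s : St) (x v w : R2) : ℝ :=
  dt (fderiv ℝ (Q.phi δ s) x v) (fderiv ℝ (Q.phi δ s) x w)

def In (s : St) (x : R2) : Prop := Q.Val s ∧ x ∈ Zone δ (10 * δ) s.a s.b s.c

open Classical in
noncomputable def gflat (x v w : R2) : ℝ :=
  if h : ∃ s, Q.In δ s x then Q.gs δ h.choose x v w else 0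

noncomputable def gd (G0 : R2 → R2 → R2 → ℝ) (x v w : R2) : ℝ :=
  kap δ x * Q.gflat δ x v w + (1 - kap δ x) * G0 x v w

lemma gs_cd (s : St) (v w : R2) : ContDiff ℝ ∞ fun x => Q.gs δ s x v w := by
  have h1 : ContDiff ℝ ∞ (fderiv ℝ (Q.phi δ s)) := (Q.phi_cd δ s).fderiv_right (m := ∞) (by simp)
  have h2 := fun v : R2 => h1.clm_apply (contDiff_const (c := v))
  have re := fun v : R2 => Complex.reCLM.contDiff.comp (h2 v)
  have im := fun v : R2 => Complex.imCLM.contDiff.comp (h2 v)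
  exact ((re v).mul (re w)).add ((im v).mul (im w))

variable {Q δ}

lemma In.rot {s : St} {x : R2} (h : Q.In δ s x) : Q.In δ (Q.rot s) x := ⟨h.1.rot, zone_rot h.2⟩

lemma gs_rot {s : St} (h : IsTri s.a s.b s.c) : Q.gs δ (Q.rot s) = Q.gs δ s := by
  funext x v w; unfold gs; rw [phi_rot h]

lemma gs_rot2 {s : St} (h : IsTri s.a s.b s.c) : Q.gs δ (Q.rot (Q.rot s)) = Q.gs δ s :=
  (gs_rot (s := Q.rot s) h.rot).trans (gs_rot h)

lemma gs_same {s s' : St} (h : Q.Val s) (h' : Q.Val s') (ha : s'.a = s.a) (hb : s'.b = s.b)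
    (hc : s'.c = s.c) : Q.gs δ s' = Q.gs δ s := by
  obtain ⟨α, β, hα, rfl⟩ := exists_mv h h' ha hb hc
  funext x v w
  have e : Q.phi δ (mv α β s) = fun x => α * Q.phi δ s x + β := funext (phi_mv h.1 α β)
  have d := (((Q.phi_cd δ s).differentiable (by simp) x).hasFDerivAt.const_mul α).add_const β
  unfold gs
  rw [e, d.fderiv]
  have hn : α.re * α.re + α.im * α.im = 1 := by rw [← nsq, hα]; norm_num
  simp only [smul_apply, smul_eq_mul, dt, mul_re, mul_im]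
  linear_combination ((fderiv ℝ (Q.phi δ s) x v).re * (fderiv ℝ (Q.phi δ s) x w).re +
    (fderiv ℝ (Q.phi δ s) x v).im * (fderiv ℝ (Q.phi δ s) x w).im) * hn

lemma phi_flip_ev (hδ : 0 < δ) {s : St} (h : IsTri s.a s.b s.c) {x : R2}
    (h1 : x ∈ Zone δ (10 * δ) s.a s.b s.c)
    (h2 : x ∈ Zone δ (10 * δ) s.b s.a (s.a + s.b - s.c)) :
    Q.phi δ (flip s) =ᶠ[𝓝 x] Q.phi δ s := by
  filter_upwards [(zone_open _ _ _ _ _).mem_nhds h1, (zone_open _ _ _ _ _).mem_nhds h2] with y k1 k2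
  have e := lam_sum h y
  have f := (lam_flip h y).1
  have k3 := k2.1.1
  apply phi_flip hδ h <;> linarith [k1.1.1, k1.2.1.2, k1.2.2.2]

lemma gs_flip (hδ : 0 < δ) {s s' : St} {x : R2} (h : Q.In δ s x) (h' : Q.In δ s' x)
    (ha : s'.a = s.b) (hb : s'.b = s.a) (hc : s'.c = s.a + s.b - s.c) :
    Q.gs δ s' x = Q.gs δ s x := by
  rw [gs_same (s := flip s) h.1.flip h'.1 ha hb hc]
  have := phi_flip_ev (Q := Q) hδ h.1.1 h.2 (by have := h'.2; rwa [ha, hb, hc] at this)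
  funext v w; unfold gs; rw [this.fderiv_eq]

lemma normal_form {s : St} {x : R2} (h : Q.In δ s x) : ∃ s', Q.In δ s' x ∧ Q.gs δ s' = Q.gs δ s ∧
    ((s'.b = (s'.a.1 + 1, s'.a.2) ∧ s'.c = (s'.a.1, s'.a.2 + 1)) ∨
      (s'.b = (s'.a.1 - 1, s'.a.2) ∧ s'.c = (s'.a.1, s'.a.2 - 1))) := by
  have t := h.1.1
  have g1 := gs_rot (Q := Q) (δ := δ) t
  have g2 := (gs_rot (Q := Q) (δ := δ) (s := Q.rot s) t.rot).trans g1
  obtain ⟨⟨a1, a2⟩, ⟨b1, b2⟩, ⟨c1, c2⟩, L, R⟩ := s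
  simp only [IsTri, IsDir, Prod.mk_sub_mk, Prod.mk.injEq] at t
  obtain ⟨t1, t2, t3⟩ := t
  rcases t1 with e | e | e | e | e | e
  · exact ⟨_, h, rfl, by simp only [Prod.mk.injEq]; omega⟩
  · exact ⟨_, h.rot, g1, by simp only [QD.rot, Prod.mk.injEq]; omega⟩
  · exact ⟨_, h.rot.rot, g2, by simp only [QD.rot, Prod.mk.injEq]; omega⟩
  · exact ⟨_, h, rfl, by simp only [Prod.mk.injEq]; omega⟩
  · exact ⟨_, h.rot, g1, by simp only [QD.rot, Prod.mk.injEq]; omega⟩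
  · exact ⟨_, h.rot.rot, g2, by simp only [QD.rot, Prod.mk.injEq]; omega⟩

lemma up_down (hδ : 0 < δ) (hδ1 : δ ≤ 1 / 100) {s s' : St} {x : R2} (h : Q.In δ s x)
    (h' : Q.In δ s' x) (u : s.b = (s.a.1 + 1, s.a.2) ∧ s.c = (s.a.1, s.a.2 + 1))
    (d : s'.b = (s'.a.1 - 1, s'.a.2) ∧ s'.c = (s'.a.1, s'.a.2 - 1)) :
    Q.gs δ s' x = Q.gs δ s x := by
  have z := h.2
  have z' := h'.2
  have t := h.1.1
  have t' := h'.1.1
  obtain ⟨⟨a1, a2⟩, b, c, L, R⟩ := s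
  obtain ⟨⟨a1', a2'⟩, b', c', L', R'⟩ := s'
  obtain ⟨rfl, rfl⟩ : b = (a1 + 1, a2) ∧ c = (a1, a2 + 1) := u
  obtain ⟨rfl, rfl⟩ : b' = (a1' - 1, a2') ∧ c' = (a1', a2' - 1) := d
  simp only [Zone, mem_ofPred_eq, lam_apply] at z z'
  push_cast at z z'
  have i1 : a1 - 1 < a1' := by exact_mod_cast (show (a1 : ℝ) - 1 < a1' by linarith)
  have i2 : a1' < a1 + 2 := by exact_mod_cast (show (a1' : ℝ) < a1 + 2 by linarith)
  have i3 : a2 - 1 < a2' := by exact_mod_cast (show (a2 : ℝ) - 1 < a2' by linarith)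
  have i4 : a2' < a2 + 2 := by exact_mod_cast (show (a2' : ℝ) < a2 + 2 by linarith)
  have i5 : a1 + a2 < a1' + a2' := by exact_mod_cast (show (a1 : ℝ) + a2 < a1' + a2' by linarith)
  have : (a1' = a1 + 1 ∧ a2' = a2) ∨ (a1' = a1 ∧ a2' = a2 + 1) ∨ (a1' = a1 + 1 ∧ a2' = a2 + 1) := by
    omega
  rcases this with ⟨rfl, rfl⟩ | ⟨rfl, rfl⟩ | ⟨rfl, rfl⟩
  · exact gs_flip hδ h h' rfl (by simp) (by ext <;> simp)
  · rw [← gs_rot2 t', ← gs_rot2 t]
    exact gs_flip hδ h.rot.rot h'.rot.rot (by simp [QD.rot]) (by simp [QD.rot])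
      (by ext <;> simp [QD.rot])
  · rw [← gs_rot t', ← gs_rot t]
    exact gs_flip hδ h.rot h'.rot (by simp [QD.rot]) (by simp [QD.rot])
      (by ext <;> simp [QD.rot])

lemma gs_wd (hδ : 0 < δ) (hδ1 : δ ≤ 1 / 100) {s s' : St} {x : R2} (h : Q.In δ s x)
    (h' : Q.In δ s' x) : Q.gs δ s' x = Q.gs δ s x := by
  obtain ⟨t, ht, e, n⟩ := normal_form h
  obtain ⟨t', ht', e', n'⟩ := normal_form h'
  rw [← e, ← e']
  rcases n with n | n <;> rcases n' with n' | n'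
  rotate_left
  · exact up_down hδ hδ1 ht ht' n n'
  · exact (up_down hδ hδ1 ht' ht n' n).symm
  all_goals
    have z := ht.2
    have z' := ht'.2
    rw [n.1, n.2] at z
    rw [n'.1, n'.2] at z'
    simp only [Zone, mem_ofPred_eq, lam_apply] at z z'
    push_cast at z z'
    have i1 : t.a.1 - 1 < t'.a.1 := by exact_mod_cast (show (t.a.1 : ℝ) - 1 < t'.a.1 by linarith)
    have i2 : t'.a.1 < t.a.1 + 1 := by exact_mod_cast (show (t'.a.1 : ℝ) < t.a.1 + 1 by linarith)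
    have i3 : t.a.2 - 1 < t'.a.2 := by exact_mod_cast (show (t.a.2 : ℝ) - 1 < t'.a.2 by linarith)
    have i4 : t'.a.2 < t.a.2 + 1 := by exact_mod_cast (show (t'.a.2 : ℝ) < t.a.2 + 1 by linarith)
    have ea : t'.a = t.a := Prod.ext (by omega) (by omega)
    rw [gs_same ht.1 ht'.1 ea (by rw [n.1, n'.1, ea]) (by rw [n.2, n'.2, ea])]

lemma gflat_eq (hδ : 0 < δ) (hδ1 : δ ≤ 1 / 100) {s : St} {x : R2} (h : Q.In δ s x) (v w : R2) :
    Q.gflat δ x v w = Q.gs δ s x v w := by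
  have ex : ∃ s, Q.In δ s x := ⟨s, h⟩
  unfold gflat
  rw [dif_pos ex, gs_wd hδ hδ1 h ex.choose_spec]

lemma cover' (Q : QD) (hδ : 0 < δ) (x : R2) : (∃ s, Q.In δ s x) ∨ kap δ =ᶠ[𝓝 x] fun _ => 0 := by
  rcases cover hδ x with ⟨a, b, c, h, hx⟩ | h
  · exact Or.inl ⟨_, exists_val h, hx⟩
  · exact Or.inr h

lemma gd_cd (hδ : 0 < δ) (hδ1 : δ ≤ 1 / 100) {G0 : R2 → R2 → R2 → ℝ} (v w : R2)
    (hG : ContDiff ℝ ∞ fun x => G0 x v w) : ContDiff ℝ ∞ fun x => Q.gd δ G0 x v w := by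
  refine ContDiff.add (contDiff_iff_contDiffAt.2 fun x => ?_) ((contDiff_const.sub (kap_cd δ)).mul hG)
  rcases Q.cover' hδ x with ⟨s, hs⟩ | h
  · refine ((kap_cd δ).mul (Q.gs_cd δ s v w)).contDiffAt.congr_of_eventuallyEq ?_
    filter_upwards [(zone_open _ _ _ _ _).mem_nhds hs.2] with y hy
    rw [gflat_eq hδ hδ1 ⟨hs.1, hy⟩]
  · refine (contDiffAt_const (c := (0 : ℝ))).congr_of_eventuallyEq ?_
    filter_upwards [h] with y hy
    rw [hy, zero_mul]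

def sh (n : Z2) (s : St) : St := ⟨s.a + n, s.b + n, s.c + n, s.L, s.R⟩

lemma lam_sh (a b n : Z2) (x : R2) : lam (a + n) (b + n) (x + pt n) = lam a b x := by
  simp [lam_apply, pt]

lemma gd_per (hδ : 0 < δ) (hδ1 : δ ≤ 1 / 100) {G0 : R2 → R2 → R2 → ℝ} {n : Z2}
    (hq : ∀ a b, Q.q (a + n) (b + n) = Q.q a b) (x v w : R2)
    (hG : G0 (x + pt n) v w = G0 x v w) : Q.gd δ G0 (x + pt n) v w = Q.gd δ G0 x v w := by
  unfold gd
  rw [kap_shift, hG]
  rcases Q.cover' hδ x with ⟨s, hs⟩ | h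
  swap
  · rw [h.eq_of_nhds]; simp
  have hO : ∀ s, Q.O (sh n s) = Q.O s := fun s => by simp only [O, z, sh, hq]
  have hrot : ∀ s, Q.rot (sh n s) = sh n (Q.rot s) := fun s => by
    ext1 <;> first | rfl | exact hO s
  have hfl : ∀ s, flip (sh n s) = sh n (flip s) := fun s => by
    ext1 <;> simp only [flip, sh]
    abel
  have hw : ∀ s, Q.w (sh n s) = Q.w s := fun s => by unfold QD.w; rw [hfl, hO, hO]; rfl
  have htau : ∀ s y, Q.tau δ (sh n s) (y + pt n) = Q.tau δ s y := fun s y => by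
    unfold tau; rw [hO, hw]; simp only [sh, lam_sh]
  have hphi : Q.phi δ s = fun y => Q.phi δ (sh n s) (y + pt n) := by
    funext y; unfold phi; rw [hrot, hrot, htau, htau, htau]
  have hin : Q.In δ (sh n s) (x + pt n) := by
    refine ⟨⟨?_, by simp only [sh, hq]; exact hs.1.2⟩, ?_⟩
    · have := hs.1.1
      simpa [IsTri, sh] using this
    · have := hs.2
      simpa only [Zone, sh, mem_ofPred_eq, lam_sh] using this
  rw [gflat_eq hδ hδ1 hs, gflat_eq hδ hδ1 hin]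
  unfold gs
  rw [hphi, fderiv_comp_add_right]

end QD

end Pool.Agent.H467Z.Lin
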