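import Pool.Agent.H467Z.Lin.Core
import Pool.Agent.H467Z.Lin.Defs

set_option autoImplicit false

open scoped ContDiff Topology RealInnerProductSpace
open Set Filter

namespace Pool.Agent.H467Z.Lin

lemma red (x : R2) : ∃ i j : ℤ, ‖x + ((i : ℝ), (j : ℝ))‖ ≤ 1 := by
  refine ⟨-⌊x.1⌋, -⌊x.2⌋, ?_⟩
  have a1 := Int.floor_le x.1
  have a2 := Int.lt_floor_add_one x.1
  have b1 := Int.floor_le x.2
  have b2 := Int.lt_floor_add_one x.2
  rw [Prod.norm_def]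
  refine max_le ?_ ?_ <;> simp only [Prod.fst_add, Prod.snd_add, Real.norm_eq_abs] <;> push_cast <;>
    exact abs_le.2 ⟨by linarith, by linarith⟩

lemma Per.bound {F : R2 → ℝ} (hp : Per F) (hc : Continuous F) : ∃ M, ∀ x, |F x| ≤ M := by
  obtain ⟨M, hM⟩ := (isCompact_closedBall (0 : R2) 1).exists_bound_of_continuousOn hc.continuousOn
  refine ⟨M, fun x => ?_⟩
  obtain ⟨i, j, h⟩ := red x
  rw [← hp x i j]
  exact hM _ (mem_closedBall_zero_iff.2 h)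

lemma Per.lower {F : R2 → ℝ} (hp : Per F) (hc : Continuous F) (h0 : ∀ x, 0 < F x) :
    ∃ m, 0 < m ∧ ∀ x, m ≤ F x := by
  obtain ⟨z, -, hz⟩ := (isCompact_closedBall (0 : R2) 1).exists_isMinOn ⟨0, by simp⟩ hc.continuousOn
  refine ⟨F z, h0 z, fun x => ?_⟩
  obtain ⟨i, j, h⟩ := red x
  rw [← hp x i j]
  exact hz (mem_closedBall_zero_iff.2 h)

lemma Per.unif {F : R2 → ℝ} (hp : Per F) (hc : Continuous F) {η : ℝ} (hη : 0 < η) :
    ∀ᶠ ρ in 𝓝[>] (0 : ℝ), ∀ x y, ‖x - y‖ ≤ ρ → |F x - F y| ≤ η := by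
  obtain ⟨ρ, hρ, h⟩ := Metric.uniformContinuousOn_iff_le.1
    ((isCompact_closedBall (0 : R2) 2).uniformContinuousOn_of_continuous hc.continuousOn) η hη
  filter_upwards [Ioo_mem_nhdsGT (lt_min hρ one_pos)] with r hr x y hxy
  obtain ⟨i, j, hx⟩ := red x
  have r1 := hr.2.le.trans (min_le_left _ _)
  have r2 := hr.2.le.trans (min_le_right _ _)
  rw [← hp x i j, ← hp y i j]
  have e : x + ((i : ℝ), (j : ℝ)) - (y + ((i : ℝ), (j : ℝ))) = x - y := by abel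
  refine h _ (mem_closedBall_zero_iff.2 (by linarith)) _ (mem_closedBall_zero_iff.2 ?_)
    (by rw [dist_eq_norm, e]; linarith)
  have := norm_sub_norm_le (y + ((i : ℝ), (j : ℝ))) (x + ((i : ℝ), (j : ℝ)))
  rw [norm_sub_rev, e] at this
  linarith

lemma small {φ : ℝ → ℝ} (hφ : Continuous φ) {c : ℝ} (h : φ 0 < c) :
    ∀ᶠ t in 𝓝[>] (0 : ℝ), φ t ≤ c :=
  mem_nhdsWithin_of_mem_nhds
    ((hφ.continuousAt.eventually_lt continuousAt_const h).mono fun _ h => h.le)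

lemma core' {E F G : R2 → ℝ} (sE : ContDiff ℝ ∞ E) (sF : ContDiff ℝ ∞ F)
    (sG : ContDiff ℝ ∞ G) (pE : Per E) (pF : Per F) (pG : Per G) {m0 M0 ε : ℝ} (hm0 : 0 < m0)
    (lo : ∀ (x v : R2), m0 * (v.1 ^ 2 + v.2 ^ 2) ≤ bil (E x) (F x) (G x) v v)
    (hi : ∀ x, |E x| ≤ M0 ∧ |F x| ≤ M0 ∧ |G x| ≤ M0) (hε : 0 < ε) (h7 : ε ≤ 1) :
    ∃ E' F' G' : R2 → ℝ, ContDiff ℝ ∞ E' ∧ ContDiff ℝ ∞ F' ∧ ContDiff ℝ ∞ G' ∧
      Per E' ∧ Per F' ∧ Per G' ∧
      (∀ x, |E' x - E x| ≤ ε ∧ |F' x - F x| ≤ ε ∧ |G' x - G x| ≤ ε) ∧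
      ¬ ∃ f : R2 → E3, ContDiff ℝ ∞ f ∧ Per f ∧ ∀ x,
        ⟪fderiv ℝ f x e1, fderiv ℝ f x e1⟫ = E' x ∧ ⟪fderiv ℝ f x e1, fderiv ℝ f x e2⟫ = F' x ∧
          ⟪fderiv ℝ f x e2, fderiv ℝ f x e2⟫ = G' x := by
  have hM0 : 0 ≤ M0 := (abs_nonneg _).trans (hi 0).1
  have hm1 : 0 < min (m0 / 4) (m0 ^ 2) := lt_min (by linarith) (by positivity)
  have a1 := small (φ := fun om => 6 * Cp * om) (by fun_prop)
    (c := √(min (m0 / 4) (m0 ^ 2)) / (4 * √(4 * M0 + 5)) / 2) (by simp only [mul_zero]; positivity)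
  have a2 := small (φ := fun om => 8 * √(4 * M0 + 5) * (6 * Cp * om) + (6 * Cp * om) ^ 2)
    (by fun_prop) (c := ε / 2) (by simp; linarith)
  obtain ⟨om, h5, h6, hom⟩ := (a1.and (a2.and self_mem_nhdsWithin)).exists
  have hom : 0 < om := hom
  have b1 := small (φ := fun η => 5 * η) (by fun_prop) (c := m0 / 4) (by simp; linarith)
  have b2 := small (φ := fun η => η) (by fun_prop) (c := 1) (by simp)
  have b3 := small (φ := fun η => 100 * (4 * M0 + 5) * η) (by fun_prop) (c := 3 * m0 ^ 2)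
    (by simp only [mul_zero]; positivity)
  have b4 := small (φ := fun η => 400 * η ^ 2 + 120 * (4 * M0 + 5) * η) (by fun_prop)
    (c := 4 * min (m0 / 4) (m0 ^ 2) * om ^ 2) (by simp only [mul_zero]; norm_num; positivity)
  have b5 := small (φ := fun η => 100 * η) (by fun_prop) (c := ε / 2) (by simp; linarith)
  obtain ⟨η, h1, h2, h3, h4, h8, hη⟩ :=
    (b1.and (b2.and (b3.and (b4.and (b5.and self_mem_nhdsWithin))))).exists
  have hη : 0 < η := hη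
  obtain ⟨ρ, o1, o2, o3, hρ⟩ := ((pE.unif sE.continuous hη).and ((pF.unif sF.continuous hη).and
    ((pG.unif sG.continuous hη).and self_mem_nhdsWithin))).exists
  have hρ : 0 < ρ := hρ
  obtain ⟨N, hN⟩ := exists_nat_gt (3 / ρ)
  have hN0 : (0 : ℝ) < N := lt_trans (by positivity) hN
  have : NeZero N := ⟨by rintro rfl; simp at hN0⟩
  have down : ∀ {α : Type} {F : R2 → α}, Per F → PerN N fun ξ => F ((N : ℝ)⁻¹ • ξ) := by
    intro α F hF ξ i j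
    beta_reduce
    rw [← hF ((N : ℝ)⁻¹ • ξ) i j]
    congr 1
    ext <;> simp [pt] <;> field_simp
  have up : ∀ {α : Type} {F : R2 → α}, PerN N F → Per fun x => F ((N : ℝ) • x) := by
    intro α F hF x i j
    beta_reduce
    rw [← hF ((N : ℝ) • x) i j]
    congr 1
    ext <;> simp [pt]
  have sm : ∀ c : ℝ, ContDiff ℝ ∞ fun ξ : R2 => c • ξ := fun c => by fun_prop
  have near : ∀ x y : R2, ‖x - y‖ ≤ 3 → ‖(N : ℝ)⁻¹ • x - (N : ℝ)⁻¹ • y‖ ≤ ρ := by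
    intro x y h
    rw [← smul_sub, norm_smul, Real.norm_eq_abs, abs_of_pos (inv_pos.2 hN0), inv_mul_le_iff₀ hN0]
    rw [div_lt_iff₀ hρ] at hN
    linarith
  obtain ⟨E', F', G', s1, s2, s3, p1, p2, p3, cl, no⟩ := core N (sE.comp (sm _)) (sF.comp (sm _))
    (sG.comp (sm _)) (down pE) (down pF) (down pG) hm0 hη hom.le (fun x v => lo _ v) (fun x => hi _)
    (fun x y h => ⟨o1 _ _ (near x y h), o2 _ _ (near x y h), o3 _ _ (near x y h)⟩) h1 h2 h3 h4 h5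
    (by linarith) h7
  refine ⟨_, _, _, s1.comp (sm N), s2.comp (sm N), s3.comp (sm N), up p1, up p2, up p3,
    fun x => ?_, ?_⟩
  · simpa [smul_smul, inv_mul_cancel₀ hN0.ne'] using cl ((N : ℝ) • x)
  rintro ⟨f, hf, pf, iso⟩
  refine no ⟨fun ξ => (N : ℝ) • f ((N : ℝ)⁻¹ • ξ), by fun_prop,
    fun ξ i j => congrArg (fun z : E3 => (N : ℝ) • z) (down pf ξ i j), fun ξ => ?_⟩
  have d : fderiv ℝ (fun ξ => (N : ℝ) • f ((N : ℝ)⁻¹ • ξ)) ξ = fderiv ℝ f ((N : ℝ)⁻¹ • ξ) := by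
    have d1 := (hf.differentiable (by simp) ((N : ℝ)⁻¹ • ξ)).hasFDerivAt
    have d2 := (d1.comp ξ ((hasFDerivAt_id ξ).const_smul (N : ℝ)⁻¹)).const_smul (N : ℝ)
    refine d2.fderiv.trans (ContinuousLinearMap.ext fun v => ?_)
    simp [smul_smul, mul_inv_cancel₀ hN0.ne']
  rw [d]
  simpa [smul_smul, mul_inv_cancel₀ hN0.ne'] using iso ((N : ℝ)⁻¹ • ξ)

theorem no_immersion (g₀ : ℝ × ℝ → Matrix (Fin 2) (Fin 2) ℝ) (h₀ : IsMetric g₀) (ε : ℝ)
    (hε : 0 < ε) : ∃ g, IsMetric g ∧ (∀ x, relNorm (g₀ x) (g x) ≤ ε) ∧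
      ¬ ∃ f, IsIsometricImmersion g f := by
  have sy : ∀ x, g₀ x 1 0 = g₀ x 0 1 := fun x => by
    simpa using (h₀.pos x).isHermitian.apply 0 1
  have per : ∀ i j, Per fun x => g₀ x i j := fun i j x a b => by simp only [h₀.per x a b]
  have cont : ∀ i j, Continuous fun x => g₀ x i j := fun i j => (h₀.smooth i j).continuous
  have dpos : ∀ x, 0 < g₀ x 0 0 * g₀ x 1 1 - g₀ x 0 1 ^ 2 := fun x => by
    have := (h₀.pos x).det_pos
    rw [Matrix.det_fin_two, sy] at this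
    linarith
  have tpos : ∀ x, 0 < g₀ x 0 0 + g₀ x 1 1 := fun x =>
    add_pos (h₀.pos x).diag_pos (h₀.pos x).diag_pos
  obtain ⟨m0, hm0, hlo⟩ := Per.lower
    (F := fun x => (g₀ x 0 0 * g₀ x 1 1 - g₀ x 0 1 ^ 2) / (g₀ x 0 0 + g₀ x 1 1))
    (fun x a b => by simp only [h₀.per x a b])
    ((((cont 0 0).mul (cont 1 1)).sub ((cont 0 1).pow 2)).div ((cont 0 0).add (cont 1 1))
      fun x => (tpos x).ne') fun x => div_pos (dpos x) (tpos x)
  have lo : ∀ (x v : R2), m0 * (v.1 ^ 2 + v.2 ^ 2) ≤ bil (g₀ x 0 0) (g₀ x 0 1) (g₀ x 1 1) v v := by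
    intro x v
    have h := hlo x
    rw [le_div_iff₀ (tpos x)] at h
    refine le_of_mul_le_mul_right ?_ (tpos x)
    unfold bil
    nlinarith [sq_nonneg (g₀ x 0 0 * v.1 + g₀ x 0 1 * v.2), sq_nonneg (g₀ x 0 1 * v.1 + g₀ x 1 1 * v.2),
      mul_le_mul_of_nonneg_right h (add_nonneg (sq_nonneg v.1) (sq_nonneg v.2))]
  obtain ⟨M1, b1⟩ := (per 0 0).bound (cont 0 0)
  obtain ⟨M2, b2⟩ := (per 0 1).bound (cont 0 1)
  obtain ⟨M3, b3⟩ := (per 1 1).bound (cont 1 1)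
  obtain ⟨M0, hi⟩ : ∃ M0, ∀ x, |g₀ x 0 0| ≤ M0 ∧ |g₀ x 0 1| ≤ M0 ∧ |g₀ x 1 1| ≤ M0 :=
    ⟨max M1 (max M2 M3), fun x => ⟨(b1 x).trans (le_max_left _ _),
      (b2 x).trans ((le_max_left _ _).trans (le_max_right _ _)),
      (b3 x).trans ((le_max_right _ _).trans (le_max_right _ _))⟩⟩
  have hM0 : 0 ≤ M0 := (abs_nonneg _).trans (hi 0).1
  have a1 := small (φ := fun t => t) (by fun_prop) (c := 1) (by simp)
  have a2 := small (φ := fun t => 4 * t) (by fun_prop) (c := m0) (by simpa using hm0)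
  have a3 := small (φ := fun t => 4 * (M0 / m0 ^ 2) * t) (by fun_prop) (c := ε) (by simpa using hε)
  obtain ⟨t, t1, t2, t3, ht⟩ := (a1.and (a2.and (a3.and self_mem_nhdsWithin))).exists
  have ht : 0 < t := ht
  obtain ⟨E', F', G', s1, s2, s3, p1, p2, p3, cl, no⟩ := core' (h₀.smooth 0 0) (h₀.smooth 0 1)
    (h₀.smooth 1 1) (per 0 0) (per 0 1) (per 1 1) hm0 lo hi ht t1
  refine ⟨fun x => !![E' x, F' x; F' x, G' x], ⟨fun i j => ?_, fun x a b => ?_, fun x => ?_⟩,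
    fun x => ?_, ?_⟩
  · fin_cases i <;> fin_cases j <;> simpa
  · simp only [p1 x a b, p2 x a b, p3 x a b]
  · refine Matrix.PosDef.of_dotProduct_mulVec_pos ?_ fun v hv => ?_
    · ext i j; fin_cases i <;> fin_cases j <;> simp
    · have h1 := lo x (v 0, v 1)
      obtain ⟨c1, c2, c3⟩ := cl x
      rw [abs_le] at c1 c2 c3
      have hp : 0 < v 0 ^ 2 + v 1 ^ 2 := by
        by_contra hc
        apply hv
        ext i
        fin_cases i <;> simp <;> nlinarith [sq_nonneg (v 0), sq_nonneg (v 1)]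
      simp only [bil] at h1
      simp [Matrix.mulVec, dotProduct, Fin.sum_univ_two]
      nlinarith [mul_nonneg (sub_nonneg.2 c1.1) (sq_nonneg (v 0)),
        mul_nonneg (sub_nonneg.2 c3.1) (sq_nonneg (v 1)),
        mul_nonneg (sub_nonneg.2 c2.1) (sq_nonneg (v 0 + v 1)),
        mul_nonneg (sub_nonneg.2 c2.2) (sq_nonneg (v 0 - v 1)), mul_pos ht hp,
        mul_nonneg (sub_nonneg.2 t2) hp.le]
  · have hd := det_lo hm0 (lo x)
    obtain ⟨c1, c2, c3⟩ := cl x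
    obtain ⟨k1, k2, k3⟩ := hi x
    have e : g₀ x = !![g₀ x 0 0, g₀ x 0 1; g₀ x 0 1, g₀ x 1 1] := by
      ext i j; fin_cases i <;> fin_cases j <;> simp [sy]
    have hD := dpos x
    generalize g₀ x 0 0 = E at *
    generalize g₀ x 0 1 = F at *
    generalize g₀ x 1 1 = G at *
    have inv : (!![E, F; F, G] : Matrix (Fin 2) (Fin 2) ℝ)⁻¹ =
        !![G / (E * G - F ^ 2), -F / (E * G - F ^ 2); -F / (E * G - F ^ 2), E / (E * G - F ^ 2)] := by
      apply Matrix.inv_eq_left_inv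
      have hD1 := hD.ne'
      have hD2 : G * E - F ^ 2 ≠ 0 := by rw [mul_comm]; exact hD1
      ext i j; fin_cases i <;> fin_cases j <;> simp [Matrix.mul_apply, Fin.sum_univ_two] <;>
        field_simp <;> ring
    have bd : ∀ a : ℝ, |a| ≤ M0 → |a / (E * G - F ^ 2)| ≤ M0 / m0 ^ 2 := fun a ha => by
      rw [abs_div, abs_of_pos hD]
      exact div_le_div₀ hM0 ha (by positivity) hd
    have hB : 0 ≤ M0 / m0 ^ 2 := by positivity
    have key : ∀ a b c d : ℝ, |a| ≤ M0 / m0 ^ 2 → |b| ≤ M0 / m0 ^ 2 → |c| ≤ t → |d| ≤ t →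
        |a * c + b * d| ≤ 2 * (M0 / m0 ^ 2) * t := fun a b c d ha hb hc hd => by
      refine (abs_add_le _ _).trans ?_
      rw [abs_mul, abs_mul]
      linarith [mul_le_mul ha hc (abs_nonneg _) hB, mul_le_mul hb hd (abs_nonneg _) hB]
    have u1 := bd G k3
    have u2 := bd (-F) (by rwa [abs_neg])
    have u3 := bd E k1
    have w1 := key _ _ _ _ u1 u2 c1 c2
    have w2 := key _ _ _ _ u1 u2 c2 c3
    have w3 := key _ _ _ _ u2 u3 c1 c2
    have w4 := key _ _ _ _ u2 u3 c2 c3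
    have key2 : ∀ a b : ℝ, |a| ≤ 2 * (M0 / m0 ^ 2) * t → |b| ≤ 2 * (M0 / m0 ^ 2) * t →
        a * b ≤ (2 * (M0 / m0 ^ 2) * t) ^ 2 := fun a b ha hb => by
      refine (le_abs_self _).trans ?_
      rw [abs_mul, sq]
      exact mul_le_mul ha hb (abs_nonneg _) (by positivity)
    unfold relNorm
    rw [e, inv]
    refine Real.sqrt_le_iff.2 ⟨hε.le, le_trans ?_ (pow_le_pow_left₀ (by positivity) t3 2)⟩
    simp only [Matrix.trace_fin_two, Matrix.mul_apply, Fin.sum_univ_two, Matrix.sub_apply,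
      Matrix.of_apply, Matrix.cons_val', Matrix.cons_val_zero, Matrix.cons_val_one,
      Matrix.cons_val_fin_one]
    linarith [key2 _ _ w1 w1, key2 _ _ w2 w3, key2 _ _ w3 w2, key2 _ _ w4 w4]
  · rintro ⟨f, hf⟩
    exact no ⟨f, hf.smooth, hf.per, fun x => ⟨hf.pullback x 0 0, hf.pullback x 0 1, hf.pullback x 1 1⟩⟩

end Pool.Agent.H467Z.Lin
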