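import Pool.Agent.H467Z.Lin.Tri

set_option autoImplicit false

open scoped ContDiff Topology
open Set Filter Complex

namespace Pool.Agent.H467Z.Lin

abbrev R2 := ℝ × ℝ

noncomputable def Psi (x : ℝ) : ℝ := x * Real.smoothTransition ((1 - x) / 2)

lemma Psi_cd : ContDiff ℝ ∞ Psi := by
  unfold Psi
  exact contDiff_id.mul (Real.smoothTransition.contDiff.comp (by fun_prop))

lemma Psi_zero {x : ℝ} (h : 1 ≤ x) : Psi x = 0 := by
  rw [Psi, Real.smoothTransition.zero_of_nonpos (by linarith), mul_zero]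

lemma Psi_id {x : ℝ} (h : x ≤ -1) : Psi x = x := by
  rw [Psi, Real.smoothTransition.one_of_one_le (by linarith), mul_one]

lemma Psi_neg (x : ℝ) : Psi x = x + Psi (-x) := by
  have h := Real.smoothTransition.pos_denom ((1 - x) / 2)
  have e : (1 - -x) / 2 = 1 - (1 - x) / 2 := by ring
  unfold Psi Real.smoothTransition
  rw [e, sub_sub_cancel, add_comm (expNegInvGlue (1 - (1 - x) / 2))]
  generalize expNegInvGlue ((1 - x) / 2) = A at *
  generalize expNegInvGlue (1 - (1 - x) / 2) = B at *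
  field_simp
  ring

lemma Psi_abs {x : ℝ} (h : 0 ≤ x) : |Psi x| ≤ 1 := by
  rcases le_total 1 x with h1 | h1
  · rw [Psi_zero h1]; simp
  · unfold Psi
    rw [abs_of_nonneg (mul_nonneg h (Real.smoothTransition.nonneg _))]
    nlinarith [Real.smoothTransition.le_one ((1 - x) / 2), Real.smoothTransition.nonneg ((1 - x) / 2)]

lemma Psi_deriv : ∃ C : ℝ, 1 ≤ C ∧ ∀ x, |deriv Psi x| ≤ C := by
  obtain ⟨C, hC⟩ := (isCompact_Icc (a := (-1 : ℝ)) (b := 1)).exists_bound_of_continuousOn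
    ((Psi_cd.continuous_deriv (by simp)).continuousOn)
  refine ⟨max C 1, le_max_right _ _, fun x => ?_⟩
  rcases lt_or_ge x (-1) with h | h
  · have : Psi =ᶠ[𝓝 x] id := by
      filter_upwards [Iio_mem_nhds h] with y hy using Psi_id (le_of_lt hy)
    rw [this.deriv_eq]; simp
  rcases lt_or_ge 1 x with h' | h'
  · have : Psi =ᶠ[𝓝 x] fun _ => 0 := by
      filter_upwards [Ioi_mem_nhds h'] with y hy using Psi_zero (le_of_lt hy)
    rw [this.deriv_eq]; simp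
  · exact (hC x ⟨h, h'⟩).trans (le_max_left _ _)

noncomputable def Cp : ℝ := Psi_deriv.choose
lemma Cp_one : 1 ≤ Cp := Psi_deriv.choose_spec.1

noncomputable def psi (δ t : ℝ) : ℝ := δ * Psi (t / δ)

lemma psi_cd (δ : ℝ) : ContDiff ℝ ∞ (psi δ) := by
  unfold psi
  exact contDiff_const.mul (Psi_cd.comp (by fun_prop))

lemma psi_zero {δ t : ℝ} (hδ : 0 < δ) (h : δ ≤ t) : psi δ t = 0 := by
  rw [psi, Psi_zero ((one_le_div hδ).2 h), mul_zero]

lemma psi_at0 (δ : ℝ) : psi δ 0 = 0 := by simp [psi, Psi]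

lemma psi_neg {δ : ℝ} (hδ : 0 < δ) (t : ℝ) : psi δ t = t + psi δ (-t) := by
  unfold psi; rw [Psi_neg (t / δ), neg_div]; field_simp

lemma psi_abs {δ t : ℝ} (hδ : 0 < δ) (h : 0 ≤ t) : |psi δ t| ≤ δ := by
  unfold psi
  rw [abs_mul, abs_of_pos hδ]
  nlinarith [Psi_abs (div_nonneg h hδ.le)]

lemma psi_der {δ : ℝ} (hδ : 0 < δ) (t : ℝ) : ∃ c : ℝ, |c| ≤ Cp ∧ HasDerivAt (psi δ) c t := by
  refine ⟨deriv Psi (t / δ), Psi_deriv.choose_spec.2 _, ?_⟩
  have h1 : HasDerivAt Psi (deriv Psi (t / δ)) (t / δ) :=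
    (Psi_cd.differentiable (by simp) _).hasDerivAt
  have := (h1.comp t ((hasDerivAt_id t).div_const δ)).const_mul δ
  refine this.congr_deriv ?_
  field_simp

/-- linear part of a barycentric coordinate -/
noncomputable def dlam (a b : Z2) : R2 →L[ℝ] ℝ :=
  ((b.1 - a.1 : ℤ) : ℝ) • ContinuousLinearMap.snd ℝ ℝ ℝ -
    ((b.2 - a.2 : ℤ) : ℝ) • ContinuousLinearMap.fst ℝ ℝ ℝ

def pt (a : Z2) : R2 := ((a.1 : ℝ), (a.2 : ℝ))

/-- barycentric coordinate vanishing on the line `a b` -/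
noncomputable def lam (a b : Z2) (x : R2) : ℝ := dlam a b (x - pt a)

lemma dlam_apply (a b : Z2) (v : R2) :
    dlam a b v = ((b.1 : ℝ) - a.1) * v.2 - ((b.2 : ℝ) - a.2) * v.1 := by
  simp [dlam]

lemma lam_apply (a b : Z2) (x : R2) :
    lam a b x = ((b.1 : ℝ) - a.1) * (x.2 - a.2) - ((b.2 : ℝ) - a.2) * (x.1 - a.1) := by
  simp [lam, dlam_apply, pt]

lemma lam_hasF (a b : Z2) (x : R2) : HasFDerivAt (lam a b) (dlam a b) x := by
  have := (dlam a b).hasFDerivAt.comp x ((hasFDerivAt_id x).sub_const (pt a))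
  rw [ContinuousLinearMap.comp_id] at this
  exact this

lemma lam_cd (a b : Z2) : ContDiff ℝ ∞ (lam a b) :=
  (dlam a b).contDiff.comp (contDiff_id.sub contDiff_const)

lemma lam_sub (a b : Z2) (x y : R2) : lam a b x - lam a b y = dlam a b (x - y) := by
  simp only [lam, ← map_sub]; congr 1; abel

/-- real form of the triangle condition -/
lemma IsTri.real {a b c : Z2} (h : IsTri a b c) : ∃ d1 d2 : ℝ,
    (b.1 : ℝ) = a.1 + d1 ∧ (b.2 : ℝ) = a.2 + d2 ∧ (c.1 : ℝ) = a.1 - d2 ∧ (c.2 : ℝ) = a.2 + d1 + d2 ∧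
      d1 ^ 2 + d1 * d2 + d2 ^ 2 = 1 ∧ |d1| ≤ 1 ∧ |d2| ≤ 1 ∧ |d1 + d2| ≤ 1 := by
  obtain ⟨a1, a2⟩ := a; obtain ⟨b1, b2⟩ := b; obtain ⟨c1, c2⟩ := c
  simp only [IsTri, IsDir, Prod.mk_sub_mk, Prod.mk.injEq] at *
  obtain ⟨h1, h2, h3⟩ := h
  obtain rfl : c1 = a1 - (b2 - a2) := by omega
  obtain rfl : c2 = a2 + (b1 - a1) + (b2 - a2) := by omega
  refine ⟨((b1 - a1 : ℤ) : ℝ), ((b2 - a2 : ℤ) : ℝ), by push_cast; ring, by push_cast; ring,
    by push_cast; ring, by push_cast; ring, ?_⟩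
  rcases h1 with ⟨e1, e2⟩ | ⟨e1, e2⟩ | ⟨e1, e2⟩ | ⟨e1, e2⟩ | ⟨e1, e2⟩ | ⟨e1, e2⟩ <;>
    rw [e1, e2] <;> norm_num

lemma lam_sum {a b c : Z2} (h : IsTri a b c) (x : R2) : lam a b x + lam b c x + lam c a x = 1 := by
  obtain ⟨d1, d2, e1, e2, e3, e4, e5, -⟩ := h.real
  simp only [lam_apply, e1, e2, e3, e4]
  linear_combination e5

lemma dlam_sum (a b c : Z2) (v : R2) : dlam a b v + dlam b c v + dlam c a v = 0 := by
  simp only [dlam_apply]; ring

lemma dlam_le {a b c : Z2} (h : IsTri a b c) (v : R2) : |dlam a b v| ≤ 2 * ‖v‖ := by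
  obtain ⟨d1, d2, e1, e2, -, -, -, b1, b2, -⟩ := h.real
  simp only [dlam_apply, e1, e2, add_sub_cancel_left]
  have h1 : |v.1| ≤ ‖v‖ := norm_fst_le v
  have h2 : |v.2| ≤ ‖v‖ := norm_snd_le v
  refine (abs_sub _ _).trans ?_
  rw [abs_mul, abs_mul]
  nlinarith [abs_nonneg v.1, abs_nonneg v.2, abs_nonneg d1, abs_nonneg d2]

lemma vec_eq {a b c : Z2} (h : IsTri a b c) (v : R2) :
    v = dlam c a v • (pt b - pt a) + dlam a b v • (pt c - pt a) := by
  obtain ⟨d1, d2, e1, e2, e3, e4, e5, -⟩ := h.real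
  ext
  · simp [dlam_apply, pt, e1, e2, e3, e4]; linear_combination (-v.1) * e5
  · simp [dlam_apply, pt, e1, e2, e3, e4]; linear_combination (-v.2) * e5

lemma pt_le {a b c : Z2} (h : IsTri a b c) : ‖pt b - pt a‖ ≤ 1 ∧ ‖pt c - pt a‖ ≤ 1 := by
  obtain ⟨d1, d2, e1, e2, e3, e4, -, b1, b2, b3⟩ := h.real
  constructor
  · simp [Prod.norm_def, pt, e1, e2, b1, b2]
  · simp [Prod.norm_def, pt, e3, e4, b2, add_assoc, b3]

lemma norm_le_dlam {a b c : Z2} (h : IsTri a b c) (v : R2) :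
    ‖v‖ ≤ |dlam c a v| + |dlam a b v| := by
  conv_lhs => rw [vec_eq h v]
  refine (norm_add_le _ _).trans ?_
  rw [norm_smul, norm_smul, Real.norm_eq_abs, Real.norm_eq_abs]
  have := pt_le h
  nlinarith [abs_nonneg (dlam c a v), abs_nonneg (dlam a b v)]

lemma lam_bary {a b c : Z2} (h : IsTri a b c) (β γ : ℝ) :
    lam a b (pt a + β • (pt b - pt a) + γ • (pt c - pt a)) = γ ∧
    lam c a (pt a + β • (pt b - pt a) + γ • (pt c - pt a)) = β ∧
    lam b c (pt a + β • (pt b - pt a) + γ • (pt c - pt a)) = 1 - β - γ := by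
  obtain ⟨d1, d2, e1, e2, e3, e4, e5, -⟩ := h.real
  refine ⟨?_, ?_, ?_⟩ <;> simp [lam_apply, pt, e1, e2, e3, e4]
  · linear_combination γ * e5
  · linear_combination β * e5
  · linear_combination (1 - β - γ) * e5

lemma lam_flip {a b c : Z2} (h : IsTri a b c) (x : R2) :
    lam b a x = -lam a b x ∧ lam a (a + b - c) x = lam a b x + lam c a x ∧
      lam (a + b - c) b x = lam a b x + lam b c x := by
  obtain ⟨d1, d2, e1, e2, e3, e4, e5, -⟩ := h.real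
  refine ⟨?_, ?_, ?_⟩ <;> simp [lam_apply, e1, e2, e3, e4]
  · ring
  · ring
  · ring

namespace QD
variable (Q : QD) (δ : ℝ)

noncomputable def tau (s : St) (x : R2) : ℂ :=
  lam s.a s.b x • Q.O s + psi δ (lam s.a s.b x) • Q.w s

/-- smoothed developing map of a triangle -/
noncomputable def phi (s : St) (x : R2) : ℂ :=
  Q.tau δ s x + Q.tau δ (Q.rot s) x + Q.tau δ (Q.rot (Q.rot s)) x

/-- its affine model -/
noncomputable def Lam (s : St) : R2 →L[ℝ] ℂ :=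
  (dlam s.c s.a).smulRight (s.R - s.L) + (dlam s.a s.b).smulRight (Q.O s - s.L)

lemma tau_cd (s : St) : ContDiff ℝ ∞ (Q.tau δ s) :=
  ((lam_cd _ _).smul contDiff_const).add (((psi_cd δ).comp (lam_cd _ _)).smul contDiff_const)

lemma phi_cd (s : St) : ContDiff ℝ ∞ (Q.phi δ s) :=
  ((Q.tau_cd δ _).add (Q.tau_cd δ _)).add (Q.tau_cd δ _)

variable {Q δ}

lemma phi_rot {s : St} (h : IsTri s.a s.b s.c) : Q.phi δ (Q.rot s) = Q.phi δ s := by
  funext x; unfold phi; rw [rot3 h]; ring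

lemma phi_eq {s : St} (h : IsTri s.a s.b s.c) (x : R2) : Q.phi δ s x =
    s.L + lam s.c s.a x • (s.R - s.L) + lam s.a s.b x • (Q.O s - s.L) +
      (psi δ (lam s.a s.b x) • Q.w s + psi δ (lam s.b s.c x) • Q.w (Q.rot s) +
        psi δ (lam s.c s.a x) • Q.w (Q.rot (Q.rot s))) := by
  have e1 : Q.O (Q.rot s) = s.L := O_rot h
  have e2 : Q.O (Q.rot (Q.rot s)) = s.R := O_rot (s := Q.rot s) h.rot
  have e3 := lam_sum h x
  unfold phi tau
  rw [e1, e2]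
  simp only [rot]
  linear_combination (norm := module) e3 • s.L

lemma phi_mv {s : St} (h : IsTri s.a s.b s.c) (α β : ℂ) (x : R2) :
    Q.phi δ (mv α β s) x = α * Q.phi δ s x + β := by
  rw [phi_eq h, phi_eq (s := mv α β s) h, rot_mv, rot_mv, w_mv, w_mv, w_mv, O_mv]
  simp only [mv, real_smul]; ring

lemma phi_flip (hδ : 0 < δ) {s : St} (h : IsTri s.a s.b s.c) {x : R2} (h1 : δ ≤ lam s.b s.c x)
    (h2 : δ ≤ lam s.c s.a x) (h3 : δ ≤ lam s.a s.b x + lam s.b s.c x)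
    (h4 : δ ≤ lam s.a s.b x + lam s.c s.a x) : Q.phi δ (flip s) x = Q.phi δ s x := by
  obtain ⟨f1, f2, f3⟩ := lam_flip h x
  have e3 := lam_sum h x
  rw [phi_eq h, phi_eq (s := flip s) h.flip, w_flip]
  simp only [flip]
  rw [f1, f2, f3, psi_zero hδ h1, psi_zero hδ h2, psi_zero hδ h3, psi_zero hδ h4,
    psi_neg hδ (lam s.a s.b x)]
  have e : Q.O ⟨s.b, s.a, s.a + s.b - s.c, s.R, s.L⟩ = s.L + s.R - Q.O s - Q.w s := by
    simp only [w, flip]; ring
  rw [e]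
  linear_combination (norm := module) e3 • (s.L - s.R)

lemma tau_der (hδ : 0 < δ) (s : St) (x : R2) : ∃ c : ℝ, |c| ≤ Cp ∧ HasFDerivAt (Q.tau δ s)
    ((dlam s.a s.b).smulRight (Q.O s) + (c • dlam s.a s.b).smulRight (Q.w s)) x := by
  obtain ⟨c, hc, hd⟩ := psi_der hδ (lam s.a s.b x)
  exact ⟨c, hc, ((lam_hasF _ _ x).smul_const _).add
    ((hd.comp_hasFDerivAt x (lam_hasF _ _ x)).smul_const _)⟩

lemma phi_der (hδ : 0 < δ) {s : St} (h : Q.Val s) (x v : R2) :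
    ‖fderiv ℝ (Q.phi δ s) x v - Q.Lam s v‖ ≤ 6 * Cp * Q.ω * ‖v‖ := by
  obtain ⟨c1, b1, d1⟩ := tau_der (Q := Q) hδ s x
  obtain ⟨c2, b2, d2⟩ := tau_der (Q := Q) hδ (Q.rot s) x
  obtain ⟨c3, b3, d3⟩ := tau_der (Q := Q) hδ (Q.rot (Q.rot s)) x
  have e1 : Q.O (Q.rot s) = s.L := O_rot h.1
  have e2 : Q.O (Q.rot (Q.rot s)) = s.R := O_rot (s := Q.rot s) h.1.rot
  have e3 := dlam_sum s.a s.b s.c v
  have : HasFDerivAt (Q.phi δ s) _ x := (d1.add d2).add d3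
  rw [this.fderiv, e1, e2]
  have key : ∀ (s' : St) (c : ℝ), Q.Val s' → |c| ≤ Cp →
      ‖(c * dlam s'.a s'.b v) • Q.w s'‖ ≤ 2 * Cp * Q.ω * ‖v‖ := by
    intro s' c hs hc
    rw [norm_smul, Real.norm_eq_abs, abs_mul]
    have a1 := mul_le_mul hc (dlam_le hs.1 v) (abs_nonneg _) (by linarith [Cp_one])
    have a2 := mul_le_mul a1 hs.w_le (norm_nonneg _) (by have := Cp_one; positivity)
    linarith
  have k1 := key s c1 h b1
  have k2 := key _ c2 h.rot b2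
  have k3 := key _ c3 h.rot.rot b3
  have e : ((dlam s.a s.b).smulRight (Q.O s) + (c1 • dlam s.a s.b).smulRight (Q.w s) +
      ((dlam (Q.rot s).a (Q.rot s).b).smulRight s.L +
        (c2 • dlam (Q.rot s).a (Q.rot s).b).smulRight (Q.w (Q.rot s))) +
      ((dlam (Q.rot (Q.rot s)).a (Q.rot (Q.rot s)).b).smulRight s.R +
        (c3 • dlam (Q.rot (Q.rot s)).a (Q.rot (Q.rot s)).b).smulRight (Q.w (Q.rot (Q.rot s))))) v -
      Q.Lam s v = (c1 * dlam s.a s.b v) • Q.w s +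
        (c2 * dlam (Q.rot s).a (Q.rot s).b v) • Q.w (Q.rot s) +
        (c3 * dlam (Q.rot (Q.rot s)).a (Q.rot (Q.rot s)).b v) • Q.w (Q.rot (Q.rot s)) := by
    simp only [Lam, add_apply, ContinuousLinearMap.smulRight_apply, smul_apply, smul_eq_mul, rot]
    linear_combination (norm := module) e3 • s.L
  rw [e]
  linarith [norm_add₃_le (a := (c1 * dlam s.a s.b v) • Q.w s)
    (b := (c2 * dlam (Q.rot s).a (Q.rot s).b v) • Q.w (Q.rot s))
    (c := (c3 * dlam (Q.rot (Q.rot s)).a (Q.rot (Q.rot s)).b v) • Q.w (Q.rot (Q.rot s)))]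

lemma Lam_apply (s : St) (v : R2) :
    Q.Lam s v = dlam s.c s.a v • (s.R - s.L) + dlam s.a s.b v • (Q.O s - s.L) := rfl

noncomputable def c0 (Q : QD) : ℝ := √Q.m1 / (4 * √Q.M1)

lemma Val.M_pos {s : St} (h : Q.Val s) : 0 < √Q.M1 :=
  Real.sqrt_pos.2 ((pos h.1).trans_le (Q.hi _ _ _ h.1))

lemma Val.c0_pos {s : St} (h : Q.Val s) : 0 < Q.c0 := by
  have := h.M_pos; have := Q.m1_pos; unfold c0; positivity

lemma Lam_lo {s : St} (h : Q.Val s) (v : R2) : Q.c0 * ‖v‖ ≤ ‖Q.Lam s v‖ := by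
  have a := h.area
  have hM := h.M_pos
  have hm : 0 ≤ √Q.m1 := Real.sqrt_nonneg _
  have e1 : cr (s.R - s.L) (Q.Lam s v) = dlam s.a s.b v * cr (s.R - s.L) (Q.O s - s.L) := by
    rw [Lam_apply]; simp [cr]; ring
  have e2 : cr (Q.O s - s.L) (Q.Lam s v) = -dlam s.c s.a v * cr (s.R - s.L) (Q.O s - s.L) := by
    rw [Lam_apply]; simp [cr]; ring
  have b1 := abs_cr_le (s.R - s.L) (Q.Lam s v)
  have b2 := abs_cr_le (Q.O s - s.L) (Q.Lam s v)
  rw [e1, abs_mul, abs_of_nonneg (a := cr _ _) (by linarith)] at b1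
  rw [e2, abs_mul, abs_neg, abs_of_nonneg (a := cr _ _) (by linarith)] at b2
  have c1 := mul_le_mul_of_nonneg_right h.len (norm_nonneg (Q.Lam s v))
  have c2 := mul_le_mul_of_nonneg_right h.lenO (norm_nonneg (Q.Lam s v))
  have c3 := norm_le_dlam h.1 v
  have c4 := mul_le_mul_of_nonneg_left a (abs_nonneg (dlam s.a s.b v))
  have c5 := mul_le_mul_of_nonneg_left a (abs_nonneg (dlam s.c s.a v))
  unfold c0
  rw [div_mul_eq_mul_div, div_le_iff₀ (by positivity)]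
  nlinarith [mul_le_mul_of_nonneg_left c3 hm]

lemma Lam_hi {s : St} (h : Q.Val s) (v : R2) : ‖Q.Lam s v‖ ≤ 4 * √Q.M1 * ‖v‖ := by
  rw [Lam_apply]
  refine (norm_add_le _ _).trans ?_
  rw [norm_smul, norm_smul, Real.norm_eq_abs, Real.norm_eq_abs]
  have a1 := mul_le_mul (dlam_le h.1 v) h.lenO (norm_nonneg _) (by positivity)
  have a2 := mul_le_mul (dlam_le h.1.rot.rot v) h.len (norm_nonneg _) (by positivity)
  linarith

end QD

lemma exists_inv {φ : R2 → ℂ} (hφ : ContDiff ℝ ∞ φ) (Λ : R2 →L[ℝ] ℂ) {c : ℝ} (hc : 0 < c)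
    (h1 : ∀ v, c * ‖v‖ ≤ ‖Λ v‖) (h2 : ∀ x v, ‖fderiv ℝ φ x v - Λ v‖ ≤ c / 2 * ‖v‖) :
    Function.Bijective φ ∧ ContDiff ℝ ∞ (Function.invFun φ) ∧
      ∀ x y, c / 2 * ‖x - y‖ ≤ ‖φ x - φ y‖ := by
  have hd : Differentiable ℝ φ := hφ.differentiable (by simp)
  have mk : ∀ A : R2 →L[ℝ] ℂ, (∀ v, c / 2 * ‖v‖ ≤ ‖A v‖) → ∃ E : R2 ≃L[ℝ] ℂ, (E : R2 →L[ℝ] ℂ) = A := by
    intro A hA
    have inj : Function.Injective (A : R2 →ₗ[ℝ] ℂ) := by
      rw [injective_iff_map_eq_zero]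
      intro v hv
      have := hA v
      have hv' : A v = 0 := hv
      rw [hv', norm_zero] at this
      exact norm_le_zero_iff.1 (by nlinarith [norm_nonneg v])
    exact ⟨(LinearMap.linearEquivOfInjective _ inj (by simp)).toContinuousLinearEquiv, rfl⟩
  have lip : ∀ x y, ‖φ x - φ y - Λ (x - y)‖ ≤ c / 2 * ‖x - y‖ := by
    intro x y
    have := (convex_univ (𝕜 := ℝ) (E := R2)).norm_image_sub_le_of_norm_hasFDerivWithin_le
      (f := fun x => φ x - Λ x) (f' := fun x => fderiv ℝ φ x - Λ) (C := c / 2)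
      (fun x _ => ((hd x).hasFDerivAt.sub Λ.hasFDerivAt).hasFDerivWithinAt)
      (fun x _ => ContinuousLinearMap.opNorm_le_bound _ (by positivity) (h2 x)) (mem_univ y)
      (mem_univ x)
    rw [map_sub]
    have e : φ x - φ y - (Λ x - Λ y) = φ x - Λ x - (φ y - Λ y) := by abel
    rw [e]; exact this
  obtain ⟨E, hE⟩ := mk Λ fun v => by nlinarith [h1 v, norm_nonneg v]
  obtain ⟨c', hc'⟩ : ∃ c' : NNReal, (c' : ℝ) = c / 2 := ⟨⟨c / 2, by positivity⟩, rfl⟩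
  have ap : ApproximatesLinearOn φ (E : R2 →L[ℝ] ℂ) univ c' := by
    intro x _ y _; rw [hE, hc']; exact lip x y
  have hN : ‖(E.symm : ℂ →L[ℝ] R2)‖ ≤ c⁻¹ := by
    refine ContinuousLinearMap.opNorm_le_bound _ (by positivity) fun y => ?_
    have := h1 (E.symm y)
    rw [← hE] at this
    simp only [ContinuousLinearEquiv.coe_coe, ContinuousLinearEquiv.apply_symm_apply] at this ⊢
    rw [inv_mul_eq_div, le_div_iff₀ hc]; linarith
  have hlt : c' < ‖(E.symm : ℂ →L[ℝ] R2)‖₊⁻¹ := by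
    have hp : 0 < ‖(E.symm : ℂ →L[ℝ] R2)‖ := E.norm_symm_pos
    rw [← NNReal.coe_lt_coe]
    simp only [hc', NNReal.coe_inv, coe_nnnorm]
    have := inv_anti₀ hp hN
    rw [inv_inv] at this
    linarith
  let H := ap.toHomeomorph φ (Or.inr hlt)
  have hH : (H : R2 → ℂ) = φ := rfl
  have bij : Function.Bijective φ := hH ▸ H.bijective
  have lo : ∀ x v, c / 2 * ‖v‖ ≤ ‖fderiv ℝ φ x v‖ := fun x v => by
    have := norm_sub_norm_le (Λ v) (fderiv ℝ φ x v)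
    rw [norm_sub_rev] at this
    linarith [h1 v, h2 x v]
  choose E' hE' using fun x => mk (fderiv ℝ φ x) (lo x)
  refine ⟨bij, ?_, fun x y => ?_⟩
  · have : Function.invFun φ = H.symm := by
      funext y
      apply bij.1
      rw [Function.rightInverse_invFun bij.2 y, ← hH, H.apply_symm_apply]
    rw [this]
    exact H.contDiff_symm (f₀' := E') (fun a => by rw [hE', hH]; exact (hd a).hasFDerivAt) hφ
  · have := norm_sub_norm_le (Λ (x - y)) (φ x - φ y)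
    rw [norm_sub_rev (Λ (x - y))] at this
    linarith [h1 (x - y), lip x y]

end Pool.Agent.H467Z.Lin
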