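import Pool.Agent.H467Z.Lin.Dev

set_option autoImplicit false

open scoped ContDiff Topology RealInnerProductSpace
open Set Filter Complex

namespace Pool.Agent.H467Z.Lin

def cr (a b : ℂ) : ℝ := a.re * b.im - a.im * b.re
def dt (a b : ℂ) : ℝ := a.re * b.re + a.im * b.im

lemma nsq (a : ℂ) : ‖a‖ ^ 2 = a.re * a.re + a.im * a.im := by
  rw [← Complex.normSq_eq_norm_sq, Complex.normSq_apply]

lemma cr_dt (a b : ℂ) : cr a b ^ 2 + dt a b ^ 2 = (‖a‖ * ‖b‖) ^ 2 := by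
  rw [mul_pow, nsq, nsq]; unfold cr dt; ring

lemma abs_cr_le (a b : ℂ) : |cr a b| ≤ ‖a‖ * ‖b‖ :=
  abs_le_of_sq_le_sq' (by nlinarith [cr_dt a b, sq_nonneg (dt a b)]) (by positivity) |> abs_le.2

lemma abs_dt_le (a b : ℂ) : |dt a b| ≤ ‖a‖ * ‖b‖ :=
  abs_le_of_sq_le_sq' (by nlinarith [cr_dt a b, sq_nonneg (cr a b)]) (by positivity) |> abs_le.2

lemma ang {e1 p f1 q x : ℝ} (he : e1 ^ 2 + p ^ 2 = 1) (hf : f1 ^ 2 + q ^ 2 = 1) (hp : 0 < p)
    (hq : 0 < q) (hx : x = p * f1 - q * e1) (hx0 : 0 < x) : x ^ 2 / 2 ≤ f1 - e1 := by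
  have e1le : e1 ≤ 1 := by nlinarith
  have e1ge : -1 ≤ e1 := by nlinarith
  have h1 : p ≤ q + x := by
    have : p ^ 2 = q ^ 2 + x ^ 2 + 2 * q * x * e1 := by
      rw [hx]; linear_combination (-p ^ 2) * hf + q ^ 2 * he
    have h2 : p ^ 2 ≤ (q + x) ^ 2 := by nlinarith [mul_pos hq hx0]
    exact pow_le_pow_left₀ hp.le (le_refl p) 2 |> fun _ => abs_le_of_sq_le_sq' h2 (by positivity) |>.2
  have h3 : p * (f1 - e1 - 1 + (e1 * f1 + p * q)) = (q + x - p) * (1 + e1) := by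
    rw [hx]; linear_combination q * he
  have h4 : 0 ≤ f1 - e1 - 1 + (e1 * f1 + p * q) := by
    have : 0 ≤ p * (f1 - e1 - 1 + (e1 * f1 + p * q)) := by
      rw [h3]; exact mul_nonneg (by linarith) (by linarith)
    exact nonneg_of_mul_nonneg_right this hp |> fun h => by
      by_contra hc; push Not at hc; nlinarith
  have h5 : x ^ 2 + (e1 * f1 + p * q) ^ 2 = 1 := by
    rw [hx]; linear_combination (f1 ^ 2 + q ^ 2) * he + hf
  nlinarith [sq_nonneg (1 - (e1 * f1 + p * q))]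

lemma pivot {u r o : ℂ} {ε m M a a' t t' : ℝ} (hu : ‖u‖ = 1) (hε : ε ^ 2 = 1) (hm : 0 < m)
    (hr : ε * cr u r < 0) (ho : ε * cr u o < 0) (hro : m ≤ ε * cr r o) (hrM : ‖r‖ ≤ M)
    (hoM : ‖o‖ ≤ M) (ha : 0 ≤ a) (ha' : 0 ≤ a') (hs : a' • o - a • r = (t' - t) • u) :
    t ≤ t' ∧ 4 * M / m * t + (1 - 2 * a) * (dt u r / ‖r‖) + m ^ 2 / (2 * M ^ 4) ≤
      4 * M / m * t' + (1 - 2 * a') * (dt u o / ‖o‖) := by
  have hre := congrArg Complex.re hs
  have him := congrArg Complex.im hs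
  simp only [sub_re, sub_im, real_smul, mul_re, mul_im, ofReal_re, ofReal_im, zero_mul, sub_zero,
    add_zero, ofReal_sub] at hre him
  have habs : |ε| = 1 := by
    have : |ε| ^ 2 = 1 ^ 2 := by rw [sq_abs, hε]; norm_num
    exact (pow_left_inj₀ (abs_nonneg _) zero_le_one two_ne_zero).1 this
  have b1 : -(ε * cr u r) ≤ M := by
    have := abs_cr_le u r
    have h2 : |ε * cr u r| ≤ M := by rw [abs_mul, habs]; rw [hu] at this; linarith
    linarith [neg_abs_le (ε * cr u r)]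
  have b2 : -(ε * cr u o) ≤ M := by
    have := abs_cr_le u o
    have h2 : |ε * cr u o| ≤ M := by rw [abs_mul, habs]; rw [hu] at this; linarith
    linarith [neg_abs_le (ε * cr u o)]
  have e1 : (t' - t) * -(ε * cr u r) = a' * (ε * cr r o) := by
    unfold cr; linear_combination ε * r.im * hre - ε * r.re * him
  have e2 : (t' - t) * -(ε * cr u o) = a * (ε * cr r o) := by
    unfold cr; linear_combination ε * o.im * hre - ε * o.re * him
  have hs0 : 0 ≤ t' - t := by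
    by_contra hc; push Not at hc
    have : 0 ≤ a' * (ε * cr r o) := mul_nonneg ha' (by linarith)
    nlinarith
  have hr0 : 0 < ‖r‖ := by
    rw [norm_pos_iff]; rintro rfl; simp [cr] at hr
  have ho0 : 0 < ‖o‖ := by
    rw [norm_pos_iff]; rintro rfl; simp [cr] at ho
  have hM : 0 < M := by linarith
  have f1 : a' * m ≤ (t' - t) * M := by nlinarith
  have f2 : a * m ≤ (t' - t) * M := by nlinarith
  have c1 : |dt u r / ‖r‖| ≤ 1 := by
    rw [abs_div, abs_of_pos hr0, div_le_one hr0]; simpa [hu] using abs_dt_le u r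
  have c2 : |dt u o / ‖o‖| ≤ 1 := by
    rw [abs_div, abs_of_pos ho0, div_le_one ho0]; simpa [hu] using abs_dt_le u o
  have hun : u.re * u.re + u.im * u.im = 1 := by rw [← nsq, hu]; norm_num
  have g := ang (e1 := dt u r / ‖r‖) (p := -(ε * cr u r) / ‖r‖) (f1 := dt u o / ‖o‖)
    (q := -(ε * cr u o) / ‖o‖) (x := ε * cr r o / (‖r‖ * ‖o‖))
    (by have := cr_dt u r; rw [hu] at this; field_simp; linear_combination this + cr u r ^ 2 * hε)
    (by have := cr_dt u o; rw [hu] at this; field_simp; linear_combination this + cr u o ^ 2 * hε)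
    (div_pos (by linarith) hr0) (div_pos (by linarith) ho0)
    (by field_simp; unfold cr dt; linear_combination (-ε * (r.re * o.im - r.im * o.re)) * hun)
    (div_pos (by linarith) (by positivity))
  have g2 : m / M ^ 2 ≤ ε * cr r o / (‖r‖ * ‖o‖) := by
    apply div_le_div₀ (by linarith) hro (by positivity)
    rw [sq]; exact mul_le_mul hrM hoM ho0.le hM.le
  have g3 : m ^ 2 / (2 * M ^ 4) ≤ (ε * cr r o / (‖r‖ * ‖o‖)) ^ 2 / 2 := by
    have := pow_le_pow_left₀ (by positivity) g2 2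
    calc m ^ 2 / (2 * M ^ 4) = (m / M ^ 2) ^ 2 / 2 := by field_simp
      _ ≤ _ := by linarith
  have g4 : 2 * (a + a') ≤ 4 * M / m * (t' - t) := by
    rw [div_mul_eq_mul_div, le_div_iff₀ hm]; nlinarith
  refine ⟨by linarith, ?_⟩
  have := abs_le.1 c1
  have := abs_le.1 c2
  nlinarith

lemma on_line {u y0 p : ℂ} (hu : ‖u‖ = 1) (h : cr u (p - y0) = 0) :
    p = y0 + dt u (p - y0) • u := by
  have hun : u.re * u.re + u.im * u.im = 1 := by rw [← nsq, hu]; norm_num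
  unfold cr at h
  simp only [sub_re, sub_im] at h
  apply Complex.ext <;> simp [dt]
  · linear_combination (-(p.re - y0.re)) * hun - u.im * h
  · linear_combination (-(p.im - y0.im)) * hun + u.re * h

def tri (L R O : ℂ) : Set ℂ :=
  {p | ∃ β γ : ℝ, 0 ≤ β ∧ 0 ≤ γ ∧ β + γ ≤ 1 ∧ p = L + β • (R - L) + γ • (O - L)}

lemma tri_seg {L R O y0 u : ℂ} {t t' τ : ℝ} (h1 : y0 + t • u ∈ tri L R O)
    (h2 : y0 + t' • u ∈ tri L R O) (hτ : τ ∈ Icc t t') : y0 + τ • u ∈ tri L R O := by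
  obtain ⟨a, b, ha, hb, hab, rfl⟩ := (Convex.mem_Icc (hτ.1.trans hτ.2)).1 hτ
  obtain ⟨β, γ, k1, k2, k3, e⟩ := h1
  obtain ⟨β', γ', k1', k2', k3', e'⟩ := h2
  refine ⟨a * β + b * β', a * γ + b * γ', by positivity, by positivity, by nlinarith, ?_⟩
  obtain rfl : b = 1 - a := by linarith
  linear_combination (norm := module) a • e + (1 - a) • e'

/-- placed triangles with rotation and reflection across an edge -/
structure Sys (S V : Type) where
  rot : S → S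
  flip : S → S
  L : S → ℂ
  lab : S → V
  m : ℝ
  M : ℝ
  m_pos : 0 < m
  rot3 : ∀ s, rot (rot (rot s)) = s
  flipL : ∀ s, L (flip s) = L (rot s)
  flipR : ∀ s, L (rot (flip s)) = L s
  area : ∀ s, m ≤ cr (L (rot s) - L s) (L (rot (rot s)) - L s)
  len : ∀ s, ‖L (rot s) - L s‖ ≤ M

variable {S V : Type}

/-- an isometric immersion read in the placed triangles, away from the vertices -/
structure Data (σ : Sys S V) (K D δ : ℝ) where
  h : S → ℂ → E3
  X : V → E3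
  smooth : ∀ s, ContDiff ℝ ∞ (h s)
  hrot : ∀ s, h (σ.rot s) = h s
  hL : ∀ s, h s (σ.L s) = X (σ.lab s)
  lip : ∀ s p q, ‖h s p - h s q‖ ≤ K * ‖p - q‖
  diam : ∀ s s' p q, ‖h s p - h s' q‖ ≤ D
  diamX : ∀ v w, ‖X v - X w‖ ≤ D
  iso : ∀ s p, p ∈ tri (σ.L s) (σ.L (σ.rot s)) (σ.L (σ.rot (σ.rot s))) → δ < ‖σ.L s - p‖ →
    δ < ‖σ.L (σ.rot s) - p‖ → δ < ‖σ.L (σ.rot (σ.rot s)) - p‖ → IsoN (h s) p
  hflip : ∀ s (θ : ℝ) p, 0 ≤ θ → θ ≤ 1 → p = σ.L s + θ • (σ.L (σ.rot s) - σ.L s) →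
    δ < ‖σ.L s - p‖ → δ < ‖σ.L (σ.rot s) - p‖ → h (σ.flip s) =ᶠ[𝓝 p] h s

def Sys.reach (σ : Sys S V) : ℕ → S → Set S
  | 0, _ => ∅
  | n + 1, s => {s, σ.rot s, σ.rot (σ.rot s)} ∪ σ.reach n (σ.flip (σ.rot (σ.rot s))) ∪
      σ.reach n (σ.flip (σ.rot s))

lemma Sys.reach_finite (σ : Sys S V) : ∀ n s, (σ.reach n s).Finite
  | 0, _ => finite_empty
  | n + 1, _ => ((toFinite _).union (σ.reach_finite n _)).union (σ.reach_finite n _)

lemma Sys.alt (σ : Sys S V) (s : S) (θ : ℝ) :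
    σ.m ≤ σ.M * ‖σ.L (σ.rot (σ.rot s)) - (σ.L s + θ • (σ.L (σ.rot s) - σ.L s))‖ := by
  have h1 := σ.area s
  have h2 := abs_cr_le (σ.L (σ.rot s) - σ.L s)
    (σ.L (σ.rot (σ.rot s)) - (σ.L s + θ • (σ.L (σ.rot s) - σ.L s)))
  have h3 : cr (σ.L (σ.rot s) - σ.L s)
      (σ.L (σ.rot (σ.rot s)) - (σ.L s + θ • (σ.L (σ.rot s) - σ.L s))) =
      cr (σ.L (σ.rot s) - σ.L s) (σ.L (σ.rot (σ.rot s)) - σ.L s) := by
    simp [cr]; ring
  rw [h3] at h2
  exact h1.trans ((le_abs_self _).trans (h2.trans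
    (mul_le_mul_of_nonneg_right (σ.len s) (norm_nonneg _))))

/-- jet of `h` along the ray -/
def Jet (h : ℂ → E3) (y0 u : ℂ) (x0 : E3) (A : ℂ →L[ℝ] E3) (t : ℝ) : Prop :=
  Rul h u (y0 + t • u) ∧ fderiv ℝ h (y0 + t • u) = A ∧ h (y0 + t • u) = x0 + t • A u

lemma jet_step {h : ℂ → E3} (hs : ContDiff ℝ ∞ h) {y0 u : ℂ} (hu : ‖u‖ = 1) {x0 : E3}
    {A : ℂ →L[ℝ] E3} {t t' : ℝ} (ht : t ≤ t') (J : Jet h y0 u x0 A t)
    (H : ∀ τ ∈ Icc t t', IsoN h (y0 + τ • u)) : Jet h y0 u x0 A t' := by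
  have e : ∀ τ : ℝ, y0 + t • u + τ • u = y0 + (t + τ) • u := fun τ => by module
  have := ray hs (y := y0 + t • u) hu (T := t' - t) (by linarith)
    (fun τ hτ => by rw [e]; exact H _ ⟨by linarith [hτ.1], by linarith [hτ.2]⟩) J.1
  rw [e, add_sub_cancel, J.2.1, J.2.2] at this
  refine ⟨this.1, this.2.1, ?_⟩
  rw [this.2.2]; module

lemma cross_tri {σ : Sys S V} {K D δ : ℝ} (d : Data σ K D δ) (hδ : 0 < δ) (s : S) {y0 u : ℂ}
    (hu : ‖u‖ = 1) {x0 : E3} {A : ℂ →L[ℝ] E3} {t t' : ℝ} (ht : t ≤ t')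
    (h1 : y0 + t • u ∈ tri (σ.L s) (σ.L (σ.rot s)) (σ.L (σ.rot (σ.rot s))))
    (h2 : y0 + t' • u ∈ tri (σ.L s) (σ.L (σ.rot s)) (σ.L (σ.rot (σ.rot s))))
    (J : Jet (d.h s) y0 u x0 A t) :
    (∃ s' ∈ ({s, σ.rot s, σ.rot (σ.rot s)} : Set S), ∃ τ, t ≤ τ ∧ ‖σ.L s' - (y0 + τ • u)‖ ≤ 2 * δ ∧
      d.h s (y0 + τ • u) = x0 + τ • A u) ∨
    ((∀ s' ∈ ({s, σ.rot s, σ.rot (σ.rot s)} : Set S), 2 * δ < ‖σ.L s' - (y0 + t' • u)‖) ∧
      Jet (d.h s) y0 u x0 A t') := by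
  set T : Set S := {s, σ.rot s, σ.rot (σ.rot s)} with hT
  have hTf : T.Finite := toFinite _
  have iso : ∀ τ ∈ Icc t t', (∀ s' ∈ T, 2 * δ ≤ ‖σ.L s' - (y0 + τ • u)‖) →
      IsoN (d.h s) (y0 + τ • u) := fun τ hτ hf =>
    d.iso s _ (tri_seg h1 h2 hτ) (by linarith [hf s (by simp [hT])])
      (by linarith [hf (σ.rot s) (by simp [hT])]) (by linarith [hf (σ.rot (σ.rot s)) (by simp [hT])])
  have cont : ∀ s', Continuous fun τ : ℝ => ‖σ.L s' - (y0 + τ • u)‖ := fun s' => by fun_prop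
  by_cases hB : ∃ τ ∈ Icc t t', ∃ s' ∈ T, ‖σ.L s' - (y0 + τ • u)‖ ≤ 2 * δ
  · left
    have hK : IsCompact (Icc t t' ∩ ⋃ s' ∈ T, {τ : ℝ | ‖σ.L s' - (y0 + τ • u)‖ ≤ 2 * δ}) :=
      isCompact_Icc.inter_right
        (hTf.isClosed_biUnion fun s' _ => isClosed_le (cont s') continuous_const)
    obtain ⟨τ, ⟨hτ, hz⟩, hmin⟩ := hK.exists_isLeast (by
      obtain ⟨τ, hτ, s', hs', hz⟩ := hB
      exact ⟨τ, hτ, mem_biUnion hs' hz⟩)
    obtain ⟨s', hs', hz⟩ := mem_iUnion₂.1 hz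
    refine ⟨s', hs', τ, hτ.1, hz, ?_⟩
    rcases hτ.1.eq_or_lt with e | e
    · rw [← e]; exact J.2.2
    refine (jet_step (d.smooth s) hu hτ.1 J fun τ' hτ' => iso τ' ⟨hτ'.1, hτ'.2.trans hτ.2⟩ ?_).2.2
    intro s'' hs''
    have hcl : IsClosed {τ : ℝ | 2 * δ ≤ ‖σ.L s'' - (y0 + τ • u)‖} :=
      isClosed_le continuous_const (cont s'')
    have hsub : Ico t τ ⊆ {τ : ℝ | 2 * δ ≤ ‖σ.L s'' - (y0 + τ • u)‖} := by
      intro a ha
      by_contra hc
      simp only [mem_ofPred_eq, not_le] at hc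
      have := hmin ⟨⟨ha.1, ha.2.le.trans hτ.2⟩, mem_biUnion hs'' hc.le⟩
      linarith [ha.2]
    exact hcl.closure_subset_iff.2 hsub (by rw [closure_Ico e.ne]; exact hτ')
  · right
    push Not at hB
    exact ⟨hB t' ⟨ht, le_rfl⟩,
      jet_step (d.smooth s) hu ht J fun τ hτ => iso τ hτ fun s' hs' => (hB τ hτ s' hs').le⟩

lemma Jet.congr {h k : ℂ → E3} {y0 u : ℂ} {x0 : E3} {A : ℂ →L[ℝ] E3} {t : ℝ}
    (e : k =ᶠ[𝓝 (y0 + t • u)] h) (J : Jet h y0 u x0 A t) : Jet k y0 u x0 A t :=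
  ⟨J.1.congr e, by rw [e.fderiv_eq, J.2.1], by rw [e.eq_of_nhds, J.2.2]⟩

lemma shoot {σ : Sys S V} {K D δ : ℝ} (d : Data σ K D δ) (hδ : 0 < δ) (hδm : σ.M * (10 * δ) ≤ σ.m)
    (hK : 0 ≤ K) {y0 u : ℂ} (hu : ‖u‖ = 1) {x0 : E3} {A : ℂ →L[ℝ] E3} (hA : ∀ v, ‖A v‖ = ‖v‖)
    (hx0 : ∀ s p, ‖d.h s p - x0‖ ≤ D) :
    ∀ (n : ℕ) (s : S) (t θ : ℝ), 0 ≤ t → 0 ≤ θ → θ ≤ 1 → 0 < cr u (σ.L s - y0) →
      cr u (σ.L (σ.rot s) - y0) < 0 → y0 + t • u = σ.L s + θ • (σ.L (σ.rot s) - σ.L s) →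
      10 * δ ≤ ‖σ.L s - y0‖ + t → 10 * δ ≤ ‖σ.L (σ.rot s) - y0‖ + t → Jet (d.h s) y0 u x0 A t →
      4 * σ.M / σ.m * D + 1 < 4 * σ.M / σ.m * t + (1 - 2 * θ) *
        (dt u (σ.L (σ.rot s) - σ.L s) / ‖σ.L (σ.rot s) - σ.L s‖) + n * (σ.m ^ 2 / (2 * σ.M ^ 4)) →
      ∃ s' ∈ σ.reach n s, 0 < dt u (σ.L s' - y0) ∧
        ‖x0 + A (σ.L s' - y0) - d.X (σ.lab s')‖ ≤ 2 * (1 + K) * δ := by
  have hm := σ.m_pos
  intro n
  induction n with
  | zero =>
    intro s t θ ht h0 h1 hL hR hy jL jR J hb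
    exfalso
    have htD : t ≤ D := by
      have := hx0 s (y0 + t • u)
      rw [J.2.2, add_sub_cancel_left, norm_smul, hA, hu, mul_one, Real.norm_eq_abs,
        abs_of_nonneg ht] at this
      exact this
    have hM : 0 ≤ σ.M := (norm_nonneg _).trans (σ.len s)
    have c1 : |dt u (σ.L (σ.rot s) - σ.L s) / ‖σ.L (σ.rot s) - σ.L s‖| ≤ 1 := by
      rw [abs_div, abs_norm]
      exact div_le_one_of_le₀ (by simpa [hu] using abs_dt_le u _) (norm_nonneg _)
    have c2 := abs_le.1 c1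
    have c3 : 4 * σ.M / σ.m * t ≤ 4 * σ.M / σ.m * D :=
      mul_le_mul_of_nonneg_left htD (by positivity)
    simp only [Nat.cast_zero, zero_mul, add_zero] at hb
    nlinarith
  | succ n ih =>
    intro s t θ ht h0 h1 hL hR hy jL jR J hb
    set L := σ.L s with hLd
    set R := σ.L (σ.rot s) with hRd
    set O := σ.L (σ.rot (σ.rot s)) with hOd
    have hM : 0 ≤ σ.M := (norm_nonneg _).trans (σ.len s)
    have lenLO : ‖O - L‖ ≤ σ.M := by
      have := σ.len (σ.rot (σ.rot s)); rw [σ.rot3, norm_sub_rev] at this; exact this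
    have lenOR : ‖O - R‖ ≤ σ.M := σ.len (σ.rot s)
    have ntri : ∀ p : ℂ, ∀ τ : ℝ, 0 ≤ τ → ‖p - (y0 + τ • u)‖ ≤ ‖p - y0‖ + τ := fun p τ hτ => by
      have : p - (y0 + τ • u) = (p - y0) - τ • u := by ring
      rw [this]
      refine (norm_sub_le _ _).trans ?_
      rw [norm_smul, hu, mul_one, Real.norm_eq_abs, abs_of_nonneg hτ]
    have jO : 10 * δ ≤ ‖O - y0‖ + t := by
      have a1 := σ.alt s θ
      rw [← hLd, ← hRd, ← hOd, ← hy] at a1
      have hM' : 0 < σ.M := by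
        rcases hM.eq_or_lt with e | e
        · rw [← e] at a1; linarith
        · exact e
      have a2 := le_of_mul_le_mul_left (hδm.trans a1) hM'
      linarith [ntri O t ht]
    have y1 : y0 + t • u ∈ tri L R O := ⟨θ, 0, h0, le_rfl, by linarith, by rw [hy]; simp⟩
    -- what to do once a vertex is met
    have stop : (∃ s' ∈ ({s, σ.rot s, σ.rot (σ.rot s)} : Set S), ∃ τ, t ≤ τ ∧
        ‖σ.L s' - (y0 + τ • u)‖ ≤ 2 * δ ∧ d.h s (y0 + τ • u) = x0 + τ • A u) →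
        ∃ s' ∈ σ.reach (n + 1) s, 0 < dt u (σ.L s' - y0) ∧
          ‖x0 + A (σ.L s' - y0) - d.X (σ.lab s')‖ ≤ 2 * (1 + K) * δ := by
      rintro ⟨s', hs', τ, hτ, hn, hv⟩
      have j' : 10 * δ ≤ ‖σ.L s' - y0‖ + t ∧ d.h s' = d.h s := by
        rcases hs' with rfl | rfl | rfl
        · exact ⟨jL, rfl⟩
        · exact ⟨jR, d.hrot _⟩
        · exact ⟨jO, by rw [d.hrot, d.hrot]⟩
      refine ⟨s', Or.inl (Or.inl hs'), ?_, ?_⟩
      · have e1 : σ.L s' - y0 = (σ.L s' - (y0 + τ • u)) + τ • u := by ring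
        have e2 : ‖σ.L s' - y0‖ ≤ 2 * δ + τ := by
          rw [e1]
          refine (norm_add_le _ _).trans ?_
          rw [norm_smul, hu, mul_one, Real.norm_eq_abs, abs_of_nonneg (ht.trans hτ)]
          linarith
        have e3 : dt u (σ.L s' - y0) = dt u (σ.L s' - (y0 + τ • u)) + τ := by
          have hun : u.re * u.re + u.im * u.im = 1 := by rw [← nsq, hu]; norm_num
          simp [dt]; linear_combination τ * hun
        have e4 := abs_le.1 (abs_dt_le u (σ.L s' - (y0 + τ • u)))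
        rw [hu] at e4
        linarith [j'.1]
      · have e1 : x0 + A (σ.L s' - y0) - d.X (σ.lab s') =
            A (σ.L s' - (y0 + τ • u)) + (d.h s' (y0 + τ • u) - d.h s' (σ.L s')) := by
          rw [d.hL, j'.2, hv]; simp only [map_sub, map_add, map_smul]; module
        rw [e1]
        refine (norm_add_le _ _).trans ?_
        rw [hA]
        have := d.lip s' (y0 + τ • u) (σ.L s')
        rw [norm_sub_rev (y0 + τ • u)] at this
        nlinarith
    have hcr : ∀ P Q : ℂ, ∀ a : ℝ, cr u (P + a • (Q - P) - y0) =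
        cr u (P - y0) + a * (cr u (Q - y0) - cr u (P - y0)) := fun P Q a => by simp [cr]; ring
    have hcr2 : ∀ P Q : ℂ, cr u (Q - P) = cr u (Q - y0) - cr u (P - y0) :=
      fun P Q => by simp [cr]; ring
    have harea := σ.area s
    rw [← hLd, ← hRd, ← hOd] at harea
    rcases le_or_gt (cr u (O - y0)) 0 with hO | hO
    · -- exit through the edge `L O`
      set θ' := cr u (L - y0) / (cr u (L - y0) - cr u (O - y0)) with hθ'
      have hden : 0 < cr u (L - y0) - cr u (O - y0) := by linarith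
      have g0 : 0 ≤ θ' := div_nonneg hL.le hden.le
      have g1 : θ' ≤ 1 := (div_le_one hden).2 (by linarith)
      have hl := on_line (u := u) (y0 := y0) (p := L + θ' • (O - L)) hu (by
        rw [hcr, hθ']; field_simp; ring)
      set t' := dt u (L + θ' • (O - L) - y0) with ht'
      obtain ⟨p1, p2⟩ := pivot (u := u) (r := R - L) (o := O - L) (ε := 1) (m := σ.m) (M := σ.M)
        (a := θ) (a' := θ') (t := t) (t' := t') hu (by norm_num) hm (by rw [hcr2]; linarith)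
        (by rw [hcr2]; linarith) (by linarith) (σ.len s) lenLO h0 g0
        (by linear_combination (norm := module) hl + hy)
      have y2 : y0 + t' • u ∈ tri L R O := ⟨0, θ', le_rfl, g0, by linarith, by rw [← hl]; simp⟩
      rcases cross_tri d hδ s hu p1 y1 y2 J with hs | ⟨hf, J'⟩
      · exact stop hs
      have f1 := hf s (by simp)
      have f3 := hf (σ.rot (σ.rot s)) (by simp)
      rw [← hLd] at f1; rw [← hOd] at f3
      have hO' : cr u (O - y0) < 0 := by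
        refine lt_of_le_of_ne hO fun e => ?_
        have : θ' = 1 := by rw [hθ', e, sub_zero, div_self hL.ne']
        rw [← hl, this] at f3; simp at f3; linarith
      have eL : σ.L (σ.flip (σ.rot (σ.rot s))) = L := by rw [σ.flipL, σ.rot3]
      have eR : σ.L (σ.rot (σ.flip (σ.rot (σ.rot s)))) = O := σ.flipR _
      have hfl := d.hflip (σ.rot (σ.rot s)) (1 - θ') (y0 + t' • u) (by linarith) (by linarith)
        (by rw [σ.rot3, ← hl, ← hLd, ← hOd]; module) (by linarith) (by rw [σ.rot3]; linarith)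
      rw [d.hrot, d.hrot] at hfl
      obtain ⟨s', hs', hh⟩ := ih (σ.flip (σ.rot (σ.rot s))) t' θ' (ht.trans p1) g0 g1
        (by rw [eL]; exact hL) (by rw [eR]; exact hO') (by rw [eL, eR]; exact hl.symm)
        (by rw [eL]; linarith) (by rw [eR]; linarith) (J'.congr hfl)
        (by rw [eL, eR]; push_cast at hb; linarith)
      exact ⟨s', Or.inl (Or.inr hs'), hh⟩
    · -- exit through the edge `O R`
      set θ' := cr u (O - y0) / (cr u (O - y0) - cr u (R - y0)) with hθ'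
      have hden : 0 < cr u (O - y0) - cr u (R - y0) := by linarith
      have g0 : 0 ≤ θ' := div_nonneg hO.le hden.le
      have g1 : θ' ≤ 1 := (div_le_one hden).2 (by linarith)
      have hl := on_line (u := u) (y0 := y0) (p := O + θ' • (R - O)) hu (by
        rw [hcr, hθ']; field_simp; ring)
      set t' := dt u (O + θ' • (R - O) - y0) with ht'
      obtain ⟨p1, p2⟩ := pivot (u := u) (r := L - R) (o := O - R) (ε := -1) (m := σ.m) (M := σ.M)
        (a := 1 - θ) (a' := 1 - θ') (t := t) (t' := t') hu (by norm_num) hm (by rw [hcr2]; linarith)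
        (by rw [hcr2]; linarith) (by simp [cr] at harea ⊢; linarith)
        (by rw [norm_sub_rev]; exact σ.len s) lenOR (by linarith) (by linarith)
        (by linear_combination (norm := module) hl + hy)
      have y2 : y0 + t' • u ∈ tri L R O :=
        ⟨θ', 1 - θ', g0, by linarith, by linarith, by rw [← hl]; module⟩
      rcases cross_tri d hδ s hu p1 y1 y2 J with hs | ⟨hf, J'⟩
      · exact stop hs
      have f2 := hf (σ.rot s) (by simp)
      have f3 := hf (σ.rot (σ.rot s)) (by simp)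
      rw [← hRd] at f2; rw [← hOd] at f3
      have eL : σ.L (σ.flip (σ.rot s)) = O := σ.flipL _
      have eR : σ.L (σ.rot (σ.flip (σ.rot s))) = R := σ.flipR _
      have hfl := d.hflip (σ.rot s) (1 - θ') (y0 + t' • u) (by linarith) (by linarith)
        (by rw [← hl, ← hRd, ← hOd]; module) (by linarith) (by linarith)
      rw [d.hrot] at hfl
      have n1 : dt u (L - R) / ‖L - R‖ = -(dt u (R - L) / ‖R - L‖) := by
        rw [norm_sub_rev, ← neg_div]; congr 1; simp [dt]; ring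
      have n2 : dt u (O - R) / ‖O - R‖ = -(dt u (R - O) / ‖R - O‖) := by
        rw [norm_sub_rev, ← neg_div]; congr 1; simp [dt]; ring
      rw [n1, n2] at p2
      obtain ⟨s', hs', hh⟩ := ih (σ.flip (σ.rot s)) t' θ' (ht.trans p1) g0 g1
        (by rw [eL]; exact hO) (by rw [eR]; exact hR) (by rw [eL, eR]; exact hl.symm)
        (by rw [eL]; linarith) (by rw [eR]; linarith) (J'.congr hfl)
        (by rw [eL, eR]; push_cast at hb; linarith)
      exact ⟨s', Or.inr hs', hh⟩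

end Pool.Agent.H467Z.Lin
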