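import Pool.Agent.H467Z.Lin.Ray

set_option autoImplicit false

open Set Complex

namespace Pool.Agent.H467Z.Lin

abbrev Z2 := ℤ × ℤ

def IsDir (d : Z2) : Prop :=
  d = (1, 0) ∨ d = (0, 1) ∨ d = (-1, 1) ∨ d = (-1, 0) ∨ d = (0, -1) ∨ d = (1, -1)

/-- positively oriented triangles of the standard triangulation of the plane -/
def IsTri (a b c : Z2) : Prop :=
  IsDir (b - a) ∧ c.1 - a.1 = -(b.2 - a.2) ∧ c.2 - a.2 = (b.1 - a.1) + (b.2 - a.2)

lemma IsTri.rot {a b c : Z2} (h : IsTri a b c) : IsTri b c a := by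
  obtain ⟨a1, a2⟩ := a; obtain ⟨b1, b2⟩ := b; obtain ⟨c1, c2⟩ := c
  simp only [IsTri, IsDir, Prod.mk_sub_mk, Prod.mk.injEq] at *
  omega

lemma IsTri.flip {a b c : Z2} (h : IsTri a b c) : IsTri b a (a + b - c) := by
  obtain ⟨a1, a2⟩ := a; obtain ⟨b1, b2⟩ := b; obtain ⟨c1, c2⟩ := c
  simp only [IsTri, IsDir, Prod.mk_sub_mk, Prod.mk_add_mk, Prod.mk.injEq] at *
  omega

def Her (A B C : ℝ) : ℝ := 4 * A * B - (A + B - C) ^ 2

noncomputable def zf (A B C : ℝ) : ℂ := ⟨(A + B - C) / (2 * A), √(Her A B C) / (2 * A)⟩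

lemma zf_rot {A B C : ℝ} (hA : 0 < A) (hC : 0 < C) (hH : 0 ≤ Her A B C) :
    zf C A B * (1 - zf A B C) = 1 := by
  have e : Her C A B = Her A B C := by unfold Her; ring
  have hs := Real.mul_self_sqrt hH
  apply Complex.ext
  · simp only [zf, e, mul_re, sub_re, one_re, sub_im, one_im]
    field_simp
    unfold Her at *
    linear_combination hs
  · simp only [zf, e, mul_im, sub_re, one_re, sub_im, one_im]
    field_simp
    ring

lemma zf_nsq {A B C : ℝ} (hA : 0 < A) (hH : 0 ≤ Her A B C) :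
    ‖zf A B C‖ ^ 2 * A = B ∧ ‖zf A B C - 1‖ ^ 2 * A = C := by
  have hs := Real.mul_self_sqrt hH
  constructor
  · simp only [nsq, zf]
    field_simp
    unfold Her at *
    linear_combination hs
  · simp only [nsq, zf, sub_re, sub_im, one_re, one_im]
    field_simp
    unfold Her at *
    linear_combination hs

lemma zf_sub {A B C B' C' M η : ℝ} (hA : 0 < A) (hH : 0 ≤ Her A B C) (hH' : 0 ≤ Her A B' C')
    (hAM : A ≤ M) (hB : 0 ≤ B) (hBM : B ≤ M) (hC : 0 ≤ C) (hCM : C ≤ M) (hB' : 0 ≤ B')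
    (hBM' : B' ≤ M) (hC' : 0 ≤ C') (hCM' : C' ≤ M) (h1 : |B' - B| ≤ η) (h2 : |C' - C| ≤ η) :
    ‖zf A B' C' - zf A B C‖ ^ 2 * A * (4 * A) ≤ 4 * η ^ 2 + 12 * M * η := by
  have e : ‖zf A B' C' - zf A B C‖ ^ 2 * A * (4 * A) =
      ((B' - B) - (C' - C)) ^ 2 + (√(Her A B' C') - √(Her A B C)) ^ 2 := by
    simp only [nsq, zf, sub_re, sub_im]; field_simp; ring
  rw [e]
  have a1 := abs_le.1 h1
  have a2 := abs_le.1 h2
  have hη : 0 ≤ η := (abs_nonneg _).trans h1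
  have b1 : ((B' - B) - (C' - C)) ^ 2 ≤ 4 * η ^ 2 := by nlinarith
  have hs := Real.mul_self_sqrt hH
  have hs' := Real.mul_self_sqrt hH'
  have p := Real.sqrt_nonneg (Her A B C)
  have p' := Real.sqrt_nonneg (Her A B' C')
  have b2 : (√(Her A B' C') - √(Her A B C)) ^ 2 ≤ |Her A B' C' - Her A B C| := by
    rcases le_total √(Her A B' C') √(Her A B C) with h | h
    · refine le_trans ?_ (neg_le_abs _); nlinarith
    · refine le_trans ?_ (le_abs_self _); nlinarith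
  have b3 : |Her A B' C' - Her A B C| ≤ 12 * M * η := by
    have e2 : Her A B' C' - Her A B C =
        4 * A * (B' - B) - ((B' - B) - (C' - C)) * (2 * A + B + B' - C - C') := by unfold Her; ring
    rw [e2]
    refine (abs_sub _ _).trans ?_
    rw [abs_mul, abs_mul _ (2 * A + B + B' - C - C'), abs_of_pos (by positivity : 0 < 4 * A)]
    have c1 : |(B' - B) - (C' - C)| ≤ 2 * η := abs_le.2 ⟨by linarith, by linarith⟩
    have c2 : |2 * A + B + B' - C - C'| ≤ 4 * M := abs_le.2 ⟨by linarith, by linarith⟩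
    have c3 := mul_le_mul c1 c2 (abs_nonneg _) (by positivity)
    have c4 := mul_le_mul (show 4 * A ≤ 4 * M by linarith) h1 (abs_nonneg _) (by linarith)
    linarith
  linarith

/-- a lattice triangle with the positions of two of its vertices in the plane -/
@[ext] structure St where
  a : Z2
  b : Z2
  c : Z2
  L : ℂ
  R : ℂ

/-- squared edge lengths close to those of a constant metric -/
structure QD where
  q : Z2 → Z2 → ℝ
  m1 : ℝ
  M1 : ℝ
  η : ℝ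
  ω : ℝ
  m1_pos : 0 < m1
  ω_nonneg : 0 ≤ ω
  hω : 4 * η ^ 2 + 12 * M1 * η ≤ 4 * m1 * ω ^ 2
  symm : ∀ a b, q a b = q b a
  lo : ∀ a b c, IsTri a b c → m1 ≤ q a b
  hi : ∀ a b c, IsTri a b c → q a b ≤ M1
  her : ∀ a b c, IsTri a b c → m1 ≤ Her (q a b) (q a c) (q b c)
  par : ∀ a b c, IsTri a b c → |q b (a + b - c) - q a c| ≤ η ∧ |q a (a + b - c) - q b c| ≤ η

namespace QD
variable (Q : QD)

noncomputable def z (s : St) : ℂ := zf (Q.q s.a s.b) (Q.q s.a s.c) (Q.q s.b s.c)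
noncomputable def O (s : St) : ℂ := s.L + Q.z s * (s.R - s.L)
noncomputable def rot (s : St) : St := ⟨s.b, s.c, s.a, s.R, Q.O s⟩
def flip (s : St) : St := ⟨s.b, s.a, s.a + s.b - s.c, s.R, s.L⟩
noncomputable def w (s : St) : ℂ := s.L + s.R - Q.O s - Q.O (flip s)
def Val (s : St) : Prop := IsTri s.a s.b s.c ∧ ‖s.R - s.L‖ ^ 2 = Q.q s.a s.b

lemma flip_flip (s : St) : flip (flip s) = s := by
  ext1 <;> simp only [flip]
  abel

lemma w_flip (s : St) : Q.w (flip s) = Q.w s := by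
  unfold w; rw [flip_flip]; simp only [flip]; ring

variable {Q}

lemma pos {a b c : Z2} (h : IsTri a b c) : 0 < Q.q a b := Q.m1_pos.trans_le (Q.lo _ _ _ h)

lemma herp {a b c : Z2} (h : IsTri a b c) : 0 ≤ Her (Q.q a b) (Q.q a c) (Q.q b c) :=
  Q.m1_pos.le.trans (Q.her _ _ _ h)

lemma O_rot {s : St} (h : IsTri s.a s.b s.c) : Q.O (Q.rot s) = s.L := by
  have := zf_rot (pos (Q := Q) h) (pos h.rot) (herp h)
  simp only [O, rot, z]
  rw [Q.symm s.b s.a, Q.symm s.c s.a]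
  linear_combination (s.L - s.R) * this

lemma rot3 {s : St} (h : IsTri s.a s.b s.c) : Q.rot (Q.rot (Q.rot s)) = s := by
  ext1
  · rfl
  · rfl
  · rfl
  · exact O_rot h
  · exact O_rot (s := Q.rot s) h.rot

lemma Val.rot {s : St} (h : Q.Val s) : Q.Val (Q.rot s) := by
  refine ⟨h.1.rot, ?_⟩
  have := (zf_nsq (pos (Q := Q) h.1) (herp h.1)).2
  have e : (Q.rot s).R - (Q.rot s).L = (Q.z s - 1) * (s.R - s.L) := by simp only [QD.rot, O]; ring
  rw [e, norm_mul, mul_pow, h.2]; exact this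

lemma Val.flip {s : St} (h : Q.Val s) : Q.Val (flip s) :=
  ⟨h.1.flip, by simp only [QD.flip]; rw [norm_sub_rev, h.2, Q.symm]⟩

lemma Val.area {s : St} (h : Q.Val s) : √Q.m1 / 2 ≤ cr (s.R - s.L) (Q.O s - s.L) := by
  have e : cr (s.R - s.L) (Q.O s - s.L) = (Q.z s).im * ‖s.R - s.L‖ ^ 2 := by
    simp only [nsq, O, cr, add_sub_cancel_left, mul_re, mul_im]; ring
  have hp := pos (Q := Q) h.1
  rw [e, h.2]
  simp only [z, zf]
  have := Real.sqrt_le_sqrt (Q.her _ _ _ h.1)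
  calc √Q.m1 / 2 ≤ √(Her (Q.q s.a s.b) (Q.q s.a s.c) (Q.q s.b s.c)) / 2 := by linarith
    _ = _ := by field_simp

lemma Val.len {s : St} (h : Q.Val s) : ‖s.R - s.L‖ ≤ √Q.M1 :=
  Real.le_sqrt_of_sq_le (by rw [h.2]; exact Q.hi _ _ _ h.1)

lemma Val.lenO {s : St} (h : Q.Val s) : ‖Q.O s - s.L‖ ≤ √Q.M1 := by
  have := h.rot.rot.len
  rw [norm_sub_rev]
  have e : (Q.rot (Q.rot s)).R = s.L := O_rot h.1
  rw [e] at this
  exact this

lemma Val.nsqO {s : St} (h : Q.Val s) : ‖Q.O s - s.L‖ ^ 2 = Q.q s.a s.c := by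
  have := h.rot.rot.2
  have e : (Q.rot (Q.rot s)).R = s.L := O_rot h.1
  rw [e, norm_sub_rev, Q.symm] at this
  exact this

lemma Val.w_le {s : St} (h : Q.Val s) : ‖Q.w s‖ ≤ Q.ω := by
  have e : Q.w s = (Q.z (QD.flip s) - Q.z s) * (s.R - s.L) := by simp only [w, O, QD.flip]; ring
  have t := h.1
  have hp := pos (Q := Q) t
  have f := t.flip
  have k := zf_sub (M := Q.M1) (η := Q.η) hp (herp t)
    (by have := herp (Q := Q) f; rwa [Q.symm s.b s.a] at this) (Q.hi _ _ _ t)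
    (by rw [Q.symm]; exact (pos t.rot.rot).le) (by rw [Q.symm]; exact Q.hi _ _ _ t.rot.rot)
    (pos t.rot).le (Q.hi _ _ _ t.rot)
    (by rw [Q.symm]; exact (pos f.rot.rot).le) (by rw [Q.symm]; exact Q.hi _ _ _ f.rot.rot)
    (pos f.rot).le (Q.hi _ _ _ f.rot) (Q.par _ _ _ t).1 (Q.par _ _ _ t).2
  have e2 : ‖Q.w s‖ ^ 2 = ‖Q.z (QD.flip s) - Q.z s‖ ^ 2 * Q.q s.a s.b := by
    rw [e, norm_mul, mul_pow, h.2]
  have e3 : Q.z (QD.flip s) = zf (Q.q s.a s.b) (Q.q s.b (s.a + s.b - s.c))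
      (Q.q s.a (s.a + s.b - s.c)) := by simp only [z, QD.flip]; rw [Q.symm s.b s.a]
  rw [← e3] at k
  change ‖Q.z (QD.flip s) - Q.z s‖ ^ 2 * _ * _ ≤ _ at k
  rw [← e2] at k
  have k2 : ‖Q.w s‖ ^ 2 * (4 * Q.m1) ≤ Q.ω ^ 2 * (4 * Q.m1) := by
    have := Q.lo _ _ _ t
    nlinarith [Q.hω, sq_nonneg ‖Q.w s‖]
  exact abs_le_of_sq_le_sq' (le_of_mul_le_mul_right k2 (by linarith [Q.m1_pos])) Q.ω_nonneg |>.2

/-- the system of placed triangles -/
noncomputable def sys (Q : QD) {V : Type} (lab : Z2 → V) : Sys {s : St // Q.Val s} V where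
  rot s := ⟨Q.rot s.1, s.2.rot⟩
  flip s := ⟨flip s.1, s.2.flip⟩
  L s := s.1.L
  lab s := lab s.1.a
  m := √Q.m1 / 2
  M := √Q.M1
  m_pos := by have := Q.m1_pos; positivity
  rot3 s := Subtype.ext (rot3 s.2.1)
  flipL _ := rfl
  flipR _ := rfl
  area s := s.2.area
  len s := s.2.len

/-- move a placed triangle -/
def mv (α β : ℂ) (s : St) : St := ⟨s.a, s.b, s.c, α * s.L + β, α * s.R + β⟩

lemma O_mv (α β : ℂ) (s : St) : Q.O (mv α β s) = α * Q.O s + β := by simp only [O, mv, z]; ring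
lemma rot_mv (α β : ℂ) (s : St) : Q.rot (mv α β s) = mv α β (Q.rot s) := by
  ext1 <;> first | rfl | exact O_mv α β s
lemma flip_mv (α β : ℂ) (s : St) : flip (mv α β s) = mv α β (flip s) := rfl
lemma w_mv (α β : ℂ) (s : St) : Q.w (mv α β s) = α * Q.w s := by
  unfold w; rw [flip_mv, O_mv, O_mv]; simp only [mv]; ring

lemma exists_mv {s s' : St} (h : Q.Val s) (h' : Q.Val s') (ha : s'.a = s.a) (hb : s'.b = s.b)
    (hc : s'.c = s.c) : ∃ α β : ℂ, ‖α‖ = 1 ∧ s' = mv α β s := by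
  have hp := pos (Q := Q) h.1
  have hne : s.R - s.L ≠ 0 := by
    intro e; have := h.2; rw [e] at this; simp at this; linarith
  refine ⟨(s'.R - s'.L) / (s.R - s.L), s'.L - (s'.R - s'.L) / (s.R - s.L) * s.L, ?_, ?_⟩
  · have : ‖s'.R - s'.L‖ = ‖s.R - s.L‖ :=
      (pow_left_inj₀ (norm_nonneg _) (norm_nonneg _) two_ne_zero).1 (by rw [h.2, h'.2, ha, hb])
    rw [norm_div, this, div_self (norm_ne_zero_iff.2 hne)]
  · ext1
    · exact ha
    · exact hb
    · exact hc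
    · simp [mv]
    · simp only [mv]; field_simp; ring

lemma exists_val {a b c : Z2} (h : IsTri a b c) : Q.Val ⟨a, b, c, 0, (√(Q.q a b) : ℝ)⟩ :=
  ⟨h, by simp [Real.sq_sqrt (pos (Q := Q) h).le]⟩

end QD

end Pool.Agent.H467Z.Lin
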